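import Pool.Agent.H775.SZ.Up1

/-!
# Roots modulo powers of a prime
-/

set_option autoImplicit false

namespace Pool.Agent.H775.SZ

open Finset Polynomial Pool.Agent.W4.CF Pool.Agent.W4.VC Pool.Agent.TH498.KB

set_option linter.deprecated false

theorem lift_root (f : ℤ[X]) (l : ℕ) (hl : l.Prime) (r : ℤ) (h1 : (l : ℤ) ∣ f.eval r)
    (h2 : ¬ (l : ℤ) ∣ f.derivative.eval r) (a : ℕ) :
    ∃ ρ : ℤ, (l : ℤ) ^ (a + 1) ∣ f.eval ρ ∧ (l : ℤ) ∣ ρ - r := by
  have hlZ : Prime (l : ℤ) := Nat.prime_iff_prime_int.mp hl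
  induction a with
  | zero => exact ⟨r, by simpa using h1, by simp⟩
  | succ a ih =>
    obtain ⟨ρ, ⟨m, hm⟩, h3⟩ := ih
    have h4 : ¬ (l : ℤ) ∣ f.derivative.eval ρ := by
      intro h
      have h5 : (l : ℤ) ∣ f.derivative.eval ρ - f.derivative.eval r :=
        h3.trans (sub_dvd_eval_sub _ _ _)
      exact h2 (by simpa using dvd_sub h h5)
    have hcop : IsCoprime (f.derivative.eval ρ) (l : ℤ) :=
      ((Prime.coprime_iff_not_dvd hlZ).mpr h4).symm
    obtain ⟨u, v, huv⟩ := hcop
    obtain ⟨k, hk⟩ := binomExpansion f ρ ((l : ℤ) ^ (a + 1) * (-(m * u)))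
    refine ⟨ρ + (l : ℤ) ^ (a + 1) * (-(m * u)), ?_, ?_⟩
    · rw [hk, hm]
      refine ⟨m * v + k * (l : ℤ) ^ a * (m * u) ^ 2, ?_⟩
      have e : m = m * (u * f.derivative.eval ρ) + m * (v * l) := by rw [← mul_add, huv, mul_one]
      linear_combination ((l : ℤ) ^ (a + 1)) * e
    · have : (l : ℤ) ∣ (l : ℤ) ^ (a + 1) * (-(m * u)) :=
        (dvd_pow_self _ (Nat.succ_ne_zero a)).mul_right _
      have e : ρ + (l : ℤ) ^ (a + 1) * (-(m * u)) - r =
          (ρ - r) + (l : ℤ) ^ (a + 1) * (-(m * u)) := by ring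
      rw [e]
      exact dvd_add h3 this

/-- clearing denominators in a Bezout identity -/
theorem int_bezout (f g : ℤ[X]) (h : IsCoprime (f.map (Int.castRingHom ℚ))
    (g.map (Int.castRingHom ℚ))) : ∃ (u v : ℤ[X]) (D : ℤ), D ≠ 0 ∧ u * f + v * g = C D := by
  obtain ⟨a, b, hab⟩ := h
  obtain ⟨⟨s, hs⟩, h1⟩ := IsLocalization.integerNormalization_map_to_map (nonZeroDivisors ℤ) a
  obtain ⟨⟨t, ht⟩, h2⟩ := IsLocalization.integerNormalization_map_to_map (nonZeroDivisors ℤ) b
  have hs0 : s ≠ 0 := nonZeroDivisors.ne_zero hs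
  have ht0 : t ≠ 0 := nonZeroDivisors.ne_zero ht
  refine ⟨C t * IsLocalization.integerNormalization (nonZeroDivisors ℤ) a,
    C s * IsLocalization.integerNormalization (nonZeroDivisors ℤ) b, s * t, mul_ne_zero hs0 ht0, ?_⟩
  apply Polynomial.map_injective (Int.castRingHom ℚ) Int.cast_injective
  have h1' : (IsLocalization.integerNormalization (nonZeroDivisors ℤ) a).map (Int.castRingHom ℚ) =
      C (s : ℚ) * a := by
    have := h1
    rw [show (algebraMap ℤ ℚ) = Int.castRingHom ℚ from rfl] at this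
    rw [this]
    ext n
    simp
  have h2' : (IsLocalization.integerNormalization (nonZeroDivisors ℤ) b).map (Int.castRingHom ℚ) =
      C (t : ℚ) * b := by
    have := h2
    rw [show (algebraMap ℤ ℚ) = Int.castRingHom ℚ from rfl] at this
    rw [this]
    ext n
    simp
  simp only [Polynomial.map_add, Polynomial.map_mul, map_C, h1', h2']
  have e : (C ((Int.castRingHom ℚ) t) : ℚ[X]) * (C (s : ℚ) * a) * map (Int.castRingHom ℚ) f +
      C ((Int.castRingHom ℚ) s) * (C (t : ℚ) * b) * map (Int.castRingHom ℚ) g =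
      C (s : ℚ) * C (t : ℚ) * (a * map (Int.castRingHom ℚ) f + b * map (Int.castRingHom ℚ) g) := by
    simp only [eq_intCast]
    ring
  rw [e, hab, mul_one, ← C_mul]
  simp

/-- a prime `l ≥ 5` modulo which `f` has a simple root -/
theorem simple_root (f : ℤ[X]) (hf : Squarefree (f.map (Int.castRingHom ℚ)))
    (hd : 1 ≤ f.natDegree) : ∃ (l : ℕ) (r : ℤ), l.Prime ∧ 5 ≤ l ∧ (l : ℤ) ∣ f.eval r ∧
      ¬ (l : ℤ) ∣ f.derivative.eval r := by
  have hsep : (f.map (Int.castRingHom ℚ)).Separable := by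
    rwa [PerfectField.separable_iff_squarefree]
  unfold Separable at hsep
  rw [derivative_map] at hsep
  obtain ⟨u, v, D, hD, huv⟩ := int_bezout f f.derivative hsep
  have key : ∀ (l : ℕ) (r : ℤ), (l : ℤ) ∣ f.eval r → ¬ (l : ℤ) ∣ D → ¬ (l : ℤ) ∣ f.derivative.eval r := by
    intro l r h1 h2 h3
    apply h2
    have e : u.eval r * f.eval r + v.eval r * f.derivative.eval r = D := by
      have := congrArg (eval r) huv
      simpa using this
    rw [← e]
    exact dvd_add (h1.mul_left _) (h3.mul_left _)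
  have hf0 : f ≠ 0 := by
    rintro rfl
    simp at hd
  by_cases h0 : f.eval 0 = 0
  · obtain ⟨l, hl1, hl2⟩ := Nat.exists_infinite_primes (D.natAbs + 5)
    refine ⟨l, 0, hl2, by omega, by rw [h0]; exact dvd_zero _, key l 0 (by rw [h0]; exact dvd_zero _) ?_⟩
    intro h
    have := Nat.le_of_dvd (Int.natAbs_pos.mpr hD) (Int.natCast_dvd.mp h)
    omega
  · -- `f = X g + c`
    set c := f.eval 0 with hc
    have hM : (6 : ℤ) * D ≠ 0 := mul_ne_zero (by norm_num) hD
    -- choose `t` with `f (c * 6 D t) ≠ ± c`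
    have hfin : Set.Finite {x : ℤ | f.eval x = c ∨ f.eval x = -c} := by
      have e1 : (f - C c) ≠ 0 := by
        intro h
        have : f.natDegree = 0 := by
          rw [sub_eq_zero.mp h, natDegree_C]
        omega
      have e2 : (f + C c) ≠ 0 := by
        intro h
        have : f.natDegree = 0 := by
          rw [eq_neg_of_add_eq_zero_left h, natDegree_neg, natDegree_C]
        omega
      refine ((Polynomial.finite_setOfPred_isRoot e1).union
        (Polynomial.finite_setOfPred_isRoot e2)).subset ?_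
      rintro x (hx | hx)
      · left; simp [IsRoot, hx]
      · right; simp [IsRoot, hx]
    have hinj : Function.Injective (fun t : ℕ => c * (6 * D) * (t : ℤ)) := by
      intro a b hab
      have := mul_left_cancel₀ (mul_ne_zero h0 hM) hab
      exact_mod_cast this
    obtain ⟨t, ht⟩ : ∃ t : ℕ, c * (6 * D) * (t : ℤ) ∉ {x : ℤ | f.eval x = c ∨ f.eval x = -c} := by
      by_contra hcon
      push Not at hcon
      exact Set.infinite_of_injective_forall_mem hinj hcon hfin
    have hdvd : c * (6 * D) ∣ f.eval (c * (6 * D) * (t : ℤ)) - c := by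
      have := sub_dvd_eval_sub (c * (6 * D) * (t : ℤ)) 0 f
      rw [sub_zero] at this
      exact (Dvd.intro _ rfl).trans this
    obtain ⟨w, hw⟩ := hdvd
    have hval : f.eval (c * (6 * D) * (t : ℤ)) = c * (1 + 6 * D * w) := by linear_combination hw
    have hne1 : (1 + 6 * D * w).natAbs ≠ 1 := by
      intro h
      apply ht
      rcases Int.natAbs_eq_iff.mp h with h | h
      · left; rw [hval, h]; simp
      · right; rw [hval, h]; simp
    obtain ⟨l, hl, hdl⟩ := Nat.exists_prime_and_dvd hne1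
    have hdl' : (l : ℤ) ∣ 1 + 6 * D * w := Int.natCast_dvd.mpr hdl
    have hnd : ¬ (l : ℤ) ∣ 6 * D := by
      intro h
      have h1 : (l : ℤ) ∣ 1 := by
        have := dvd_sub hdl' (h.mul_right w)
        simpa using this
      have h2 : l ∣ 1 := by exact_mod_cast h1
      exact hl.one_lt.ne' (Nat.dvd_one.mp h2)
    have h1 : (l : ℤ) ∣ f.eval (c * (6 * D) * (t : ℤ)) := by
      rw [hval]; exact hdl'.mul_left _
    refine ⟨l, _, hl, ?_, h1, key l _ h1 fun h => hnd (h.mul_left _)⟩
    by_contra hlt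
    push Not at hlt
    apply hnd
    refine Dvd.dvd.mul_right ?_ D
    interval_cases l
    · exact absurd hl (by norm_num)
    · exact absurd hl (by norm_num)
    · norm_num
    · norm_num
    · exact absurd hl (by norm_num)

end Pool.Agent.H775.SZ
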