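import Pool.Agent.H775.SZ.Pairs

/-!
# Coprime pairs in a lattice `x ≡ ρ y (mod q)`
-/

set_option autoImplicit false

namespace Pool.Agent.H775.SZ

open Finset

theorem cls_low (N q : ℕ) (hq : 0 < q) (v : ℤ) :
    N / q ≤ ((Icc 1 N).filter (fun x : ℕ => (q : ℤ) ∣ (x : ℤ) - v)).card := by
  have hqZ : (0 : ℤ) < q := by exact_mod_cast hq
  set x0 : ℕ := ((v - 1) % q).toNat + 1 with hx0
  have h0 : 0 ≤ (v - 1) % (q : ℤ) := Int.emod_nonneg _ hqZ.ne'
  have h1 : (v - 1) % (q : ℤ) < q := Int.emod_lt_of_pos _ hqZ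
  have hx0Z : (x0 : ℤ) = (v - 1) % q + 1 := by
    rw [hx0]; push_cast; rw [Int.toNat_of_nonneg h0]
  have hx0q : x0 ≤ q := by
    have : (x0 : ℤ) ≤ q := by rw [hx0Z]; omega
    exact_mod_cast this
  rw [← Finset.card_range (N / q)]
  refine Finset.card_le_card_of_injOn (fun j => x0 + q * j) ?_ ?_
  · intro j hj
    have hj' : j < N / q := mem_range.mp hj
    have h2 : q * (j + 1) ≤ N := by
      calc q * (j + 1) ≤ q * (N / q) := Nat.mul_le_mul_left _ hj'
        _ ≤ N := Nat.mul_div_le N q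
    rw [mem_coe, mem_filter, mem_Icc]
    have hx01 : 1 ≤ x0 := by rw [hx0]; exact Nat.le_add_left 1 _
    rw [mul_add, mul_one] at h2
    refine ⟨⟨?_, ?_⟩, ?_⟩
    · show 1 ≤ x0 + q * j
      omega
    · show x0 + q * j ≤ N
      omega
    have h3 : (q : ℤ) ∣ (v - 1) % q - (v - 1) := by
      have := Int.emod_add_mul_ediv (v - 1) q
      exact ⟨-((v - 1) / q), by linarith⟩
    have h4 : ((x0 + q * j : ℕ) : ℤ) - v = ((v - 1) % q - (v - 1)) + q * j := by
      push_cast
      rw [hx0Z]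
      ring
    rw [h4]
    exact dvd_add h3 (dvd_mul_right _ _)
  · intro j _ j' _ h
    have : q * j = q * j' := by
      have h' : x0 + q * j = x0 + q * j' := h
      omega
    exact Nat.eq_of_mul_eq_mul_left hq this

theorem cls_up (N d : ℕ) (P : ℕ → Prop) [DecidablePred P]
    (h : ∀ x y : ℕ, P x → P y → (d : ℤ) ∣ (x : ℤ) - y) :
    ((Icc 1 N).filter P).card ≤ N / d + 1 := by
  rw [← Finset.card_range (N / d + 1)]
  refine Finset.card_le_card_of_injOn (fun n => n / d) ?_ ?_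
  · intro n hn
    obtain ⟨h1, -⟩ := mem_filter.mp hn
    rw [mem_coe, mem_range]
    exact Nat.lt_succ_of_le (Nat.div_le_div_right (mem_Icc.mp h1).2)
  · intro n hn n' hn' he
    obtain ⟨-, h1⟩ := mem_filter.mp hn
    obtain ⟨-, h2⟩ := mem_filter.mp hn'
    have h3 := h n n' h1 h2
    have h4 : n % d = n' % d := by
      have : (n : ℤ) % d = (n' : ℤ) % d := (Int.emod_emod_of_dvd _ (dvd_refl _)).symm.trans
        (by rw [Int.emod_emod_of_dvd _ (dvd_refl _)]; exact Int.emod_eq_emod_iff_emod_sub_eq_zero.mpr (Int.emod_eq_zero_of_dvd h3))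
      exact_mod_cast this
    have he' : n / d = n' / d := he
    rw [← Nat.div_add_mod n d, ← Nat.div_add_mod n' d, he', h4]

/-- the coprime pairs `(x, 6 l n + 1)` with `x ≤ N`, `n ≤ M`, `x ≡ ρ (6 l n + 1) (mod q)` -/
noncomputable def good (l q N M : ℕ) (ρ : ℤ) : Finset (ℕ × ℕ) := by
  classical
  exact (Icc 1 N ×ˢ Icc 1 M).filter (fun z => (q : ℤ) ∣ (z.1 : ℤ) - ρ * ((6 * l * z.2 + 1 : ℕ) : ℤ) ∧
    Nat.Coprime z.1 (6 * l * z.2 + 1))

theorem good_card (l q N M a : ℕ) (ρ : ℤ) (hl : l.Prime) (hq : q = l ^ (a + 1)) :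
    (M : ℝ) * ((N : ℝ) / q - 1) ≤ (good l q N M ρ).card +
      ∑ d ∈ Icc 5 N, ((M : ℝ) / d + 1) * ((N : ℝ) / (d * q) + 1) := by
  classical
  have hq0 : 0 < q := by rw [hq]; exact pow_pos hl.pos _
  set S := (Icc 1 N ×ˢ Icc 1 M).filter
    (fun z => (q : ℤ) ∣ (z.1 : ℤ) - ρ * ((6 * l * z.2 + 1 : ℕ) : ℤ)) with hS
  set bad := S.filter (fun z => ¬ Nat.Coprime z.1 (6 * l * z.2 + 1)) with hbad
  have hgood : good l q N M ρ = S.filter (fun z => Nat.Coprime z.1 (6 * l * z.2 + 1)) := by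
    unfold good
    rw [hS, filter_filter]
  have hsplit := Finset.card_filter_add_card_filter_not (s := S)
    (fun z => Nat.Coprime z.1 (6 * l * z.2 + 1))
  -- the total
  have htot : M * (N / q) ≤ S.card := by
    have h1 : S.card = ∑ n ∈ Icc 1 M, ((Icc 1 N).filter
        (fun x : ℕ => (q : ℤ) ∣ (x : ℤ) - ρ * ((6 * l * n + 1 : ℕ) : ℤ))).card := by
      rw [Finset.card_eq_sum_card_fiberwise (f := fun z : ℕ × ℕ => z.2) (t := Icc 1 M)]
      · refine sum_congr rfl fun n hn => ?_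
        refine Finset.card_bij (fun z _ => z.1) ?_ ?_ ?_
        · rintro ⟨x, m⟩ hz
          obtain ⟨h2, h3⟩ := mem_filter.mp hz
          obtain ⟨h4, h5⟩ := mem_filter.mp h2
          simp only at h3
          subst h3
          exact mem_filter.mpr ⟨(mem_product.mp h4).1, h5⟩
        · rintro ⟨x, m⟩ hz ⟨x', m'⟩ hz' he
          have h3 := (mem_filter.mp hz).2
          have h3' := (mem_filter.mp hz').2
          simp only at h3 h3' he
          rw [he, h3, h3']
        · intro x hx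
          obtain ⟨h2, h3⟩ := mem_filter.mp hx
          exact ⟨(x, n), mem_filter.mpr ⟨mem_filter.mpr ⟨mem_product.mpr ⟨h2, hn⟩, h3⟩, rfl⟩, rfl⟩
      · intro z hz
        exact (mem_product.mp (mem_filter.mp hz).1).2
    rw [h1]
    calc M * (N / q) = ∑ n ∈ Icc 1 M, N / q := by simp
      _ ≤ _ := sum_le_sum fun n _ => cls_low N q hq0 _
  -- the pairs that are not coprime
  have hb : bad ⊆ (Icc 5 N).biUnion (fun d =>
      ((Icc 1 N ×ˢ Icc 1 M).filter (fun z => (Nat.Coprime d (6 * l) ∧ d ∣ 6 * l * z.2 + 1) ∧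
        (d ∣ z.1 ∧ (q : ℤ) ∣ (z.1 : ℤ) - ρ * ((6 * l * z.2 + 1 : ℕ) : ℤ))))) := by
    rintro ⟨x, n⟩ hz
    obtain ⟨h1, h2⟩ := mem_filter.mp hz
    obtain ⟨h3, h4⟩ := mem_filter.mp h1
    simp only at h2 h4
    set d := Nat.gcd x (6 * l * n + 1) with hd
    have hx := mem_Icc.mp (mem_product.mp h3).1
    simp only at hx
    have hdx : d ∣ x := Nat.gcd_dvd_left _ _
    have hdy : d ∣ 6 * l * n + 1 := Nat.gcd_dvd_right _ _
    have hdN : d ≤ N := (Nat.le_of_dvd (by omega) hdx).trans hx.2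
    have hd0 : 0 < d := Nat.pos_of_dvd_of_pos hdx (by omega)
    have hcop : Nat.Coprime d (6 * l) := by
      have e1 : Nat.gcd d (6 * l) ∣ 6 * l * n + 1 := (Nat.gcd_dvd_left _ _).trans hdy
      have e2 : Nat.gcd d (6 * l) ∣ 6 * l * n := (Nat.gcd_dvd_right d (6 * l)).mul_right n
      exact Nat.dvd_one.mp ((Nat.dvd_add_right e2).mp e1)
    have hd1 : d ≠ 1 := h2
    have hd5 : 5 ≤ d := by
      by_contra hlt
      push Not at hlt
      have hc6 : Nat.Coprime d 6 := Nat.Coprime.coprime_dvd_right (dvd_mul_right 6 l) hcop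
      interval_cases d
      · exact hd1 rfl
      · norm_num at hc6
      · norm_num at hc6
      · norm_num at hc6
    rw [mem_biUnion]
    exact ⟨d, mem_Icc.mpr ⟨hd5, hdN⟩, mem_filter.mpr ⟨h3, ⟨hcop, hdy⟩, hdx, h4⟩⟩
  have hcard : (bad.card : ℝ) ≤ ∑ d ∈ Icc 5 N, ((M : ℝ) / d + 1) * ((N : ℝ) / (d * q) + 1) := by
    have h1 : bad.card ≤ ∑ d ∈ Icc 5 N, (M / d + 1) * (N / (d * q) + 1) := by
      refine (card_le_card hb).trans (card_biUnion_le.trans (sum_le_sum fun d hd => ?_))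
      have hd5 := (mem_Icc.mp hd).1
      set T := (Icc 1 N ×ˢ Icc 1 M).filter (fun z => (Nat.Coprime d (6 * l) ∧ d ∣ 6 * l * z.2 + 1) ∧
        (d ∣ z.1 ∧ (q : ℤ) ∣ (z.1 : ℤ) - ρ * ((6 * l * z.2 + 1 : ℕ) : ℤ))) with hT
      set U := (Icc 1 M).filter (fun n => Nat.Coprime d (6 * l) ∧ d ∣ 6 * l * n + 1) with hU
      have hUc : U.card ≤ M / d + 1 := by
        refine cls_up M d _ ?_
        rintro n n' ⟨c1, c2⟩ ⟨-, c3⟩
        have e1 : (d : ℤ) ∣ ((6 * l : ℕ) : ℤ) * ((n : ℤ) - n') := by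
          have := dvd_sub (Int.natCast_dvd_natCast.mpr c2) (Int.natCast_dvd_natCast.mpr c3)
          have e : ((6 * l : ℕ) : ℤ) * ((n : ℤ) - n') =
              ((6 * l * n + 1 : ℕ) : ℤ) - ((6 * l * n' + 1 : ℕ) : ℤ) := by
            push_cast
            ring
          rw [e]
          exact this
        exact (Nat.isCoprime_iff_coprime.mpr c1).dvd_of_dvd_mul_left e1
      have hTs : T.card ≤ ∑ n ∈ U, (N / (d * q) + 1) := by
        rw [Finset.card_eq_sum_card_fiberwise (f := fun z : ℕ × ℕ => z.2) (t := U)]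
        · refine sum_le_sum fun n hn => ?_
          have hc1 := (mem_filter.mp hn).2.1
          have hdq : Nat.Coprime d q := by
            rw [hq]
            exact Nat.Coprime.pow_right _ (Nat.Coprime.coprime_dvd_right (dvd_mul_left l 6) hc1)
          refine le_trans (Finset.card_le_card_of_injOn (t := (Icc 1 N).filter (fun x : ℕ => d ∣ x ∧
            (q : ℤ) ∣ (x : ℤ) - ρ * ((6 * l * n + 1 : ℕ) : ℤ))) (fun z => z.1) ?_ ?_) ?_
          · rintro ⟨x, m⟩ hz
            obtain ⟨h2, h3⟩ := mem_filter.mp hz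
            obtain ⟨h4, h5⟩ := mem_filter.mp h2
            simp only at h3
            subst h3
            exact mem_filter.mpr ⟨(mem_product.mp h4).1, h5.2⟩
          · rintro ⟨x, m⟩ hz ⟨x', m'⟩ hz' he
            have h3 := (mem_filter.mp hz).2
            have h3' := (mem_filter.mp hz').2
            simp only at h3 h3' he
            rw [he, h3, h3']
          · refine cls_up N (d * q) _ ?_
            rintro x y ⟨c1, c2⟩ ⟨c3, c4⟩
            have e1 : (d : ℤ) ∣ (x : ℤ) - y :=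
              dvd_sub (Int.natCast_dvd_natCast.mpr c1) (Int.natCast_dvd_natCast.mpr c3)
            have e2 : (q : ℤ) ∣ (x : ℤ) - y := by
              have := dvd_sub c2 c4
              have e : (x : ℤ) - y = ((x : ℤ) - ρ * ((6 * l * n + 1 : ℕ) : ℤ)) -
                  ((y : ℤ) - ρ * ((6 * l * n + 1 : ℕ) : ℤ)) := by ring
              rw [e]
              exact this
            have := IsCoprime.mul_dvd (Nat.isCoprime_iff_coprime.mpr hdq) e1 e2
            exact_mod_cast this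
        · rintro z hz
          obtain ⟨h2, h3⟩ := mem_filter.mp hz
          exact mem_filter.mpr ⟨(mem_product.mp h2).2, h3.1⟩
      rw [sum_const, smul_eq_mul] at hTs
      exact hTs.trans (Nat.mul_le_mul_right _ hUc)
    calc (bad.card : ℝ) ≤ ((∑ d ∈ Icc 5 N, (M / d + 1) * (N / (d * q) + 1) : ℕ) : ℝ) := by
          exact_mod_cast h1
      _ = ∑ d ∈ Icc 5 N, (((M / d : ℕ) : ℝ) + 1) * (((N / (d * q) : ℕ) : ℝ) + 1) := by push_cast; rfl
      _ ≤ _ := by
        refine sum_le_sum fun d _ => ?_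
        have e1 : ((M / d : ℕ) : ℝ) ≤ (M : ℝ) / d := Nat.cast_div_le
        have e2 : ((N / (d * q) : ℕ) : ℝ) ≤ (N : ℝ) / (d * q) := by
          have := Nat.cast_div_le (α := ℝ) (m := N) (n := d * q)
          push_cast at this
          exact this
        gcongr
  have hfl : (N : ℝ) / q - 1 ≤ ((N / q : ℕ) : ℝ) := by
    have := Nat.lt_div_mul_add (a := N) (b := q) hq0
    have h2 : (N : ℝ) < ((N / q : ℕ) : ℝ) * q + q := by exact_mod_cast this
    have hqR : (0 : ℝ) < q := by exact_mod_cast hq0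
    rw [sub_le_iff_le_add, div_le_iff₀ hqR]
    linarith
  have htot' : (M : ℝ) * ((N / q : ℕ) : ℝ) ≤ (S.card : ℝ) := by exact_mod_cast htot
  have hs' : (S.card : ℝ) = (good l q N M ρ).card + bad.card := by
    rw [hgood]
    exact_mod_cast hsplit.symm
  have hM : (0 : ℝ) ≤ M := Nat.cast_nonneg M
  nlinarith [mul_le_mul_of_nonneg_left hfl hM]

end Pool.Agent.H775.SZ
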