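import Mathlib

/-!
# Many pairs of coprime integers with a small radical in a given sector
-/

set_option autoImplicit false

namespace Pool.Agent.H775.SZ

open Finset

/-- the product of the primes dividing `n` -/
def rd (n : ℕ) : ℕ := ∏ p ∈ n.primeFactors, p

theorem rd_pos (n : ℕ) : 0 < rd n :=
  Finset.prod_pos fun _ hp => (Nat.prime_of_mem_primeFactors hp).pos

theorem rd_le {n : ℕ} (hn : n ≠ 0) : rd n ≤ n :=
  Nat.le_of_dvd (Nat.pos_of_ne_zero hn) (Nat.prod_primeFactors_dvd n)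

theorem rd_mono {m n : ℕ} (h : m.primeFactors ⊆ n.primeFactors) : rd m ≤ rd n :=
  Finset.prod_le_prod_of_subset_of_one_le' h fun _ hi _ =>
    (Nat.prime_of_mem_primeFactors hi).one_le

theorem rd_mul_le {m n : ℕ} (hm : m ≠ 0) (hn : n ≠ 0) : rd (m * n) ≤ rd m * rd n := by
  classical
  unfold rd
  rw [Nat.primeFactors_mul hm hn]
  have h := Finset.prod_union_inter (s₁ := m.primeFactors) (s₂ := n.primeFactors)
    (f := fun p : ℕ => p)
  rw [← h]
  refine Nat.le_mul_of_pos_right _ (Finset.prod_pos fun p hp => ?_)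
  exact (Nat.prime_of_mem_primeFactors (mem_inter.mp hp).1).pos

theorem rd_pow_mul {l a m : ℕ} (hl : l.Prime) (hm : m ≠ 0) : rd (l ^ a * m) ≤ l * m := by
  have h1 : rd (l ^ a) ≤ l := by
    rcases Nat.eq_zero_or_pos a with rfl | ha
    · simp only [rd, pow_zero, Nat.primeFactors_one, Finset.prod_empty]
      exact hl.one_le
    · unfold rd
      rw [Nat.primeFactors_prime_pow ha.ne' hl, Finset.prod_singleton]
  exact (rd_mul_le (pow_ne_zero _ hl.ne_zero) hm).trans (Nat.mul_le_mul h1 (rd_le hm))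

theorem strip {l b b' m m' : ℕ} (hl : 1 < l) (h : l ^ b * m = l ^ b' * m') (hm : ¬ l ∣ m)
    (hm' : ¬ l ∣ m') : m = m' := by
  have key : ∀ b b' m m' : ℕ, b ≤ b' → l ^ b * m = l ^ b' * m' → ¬ l ∣ m → m = m' := by
    intro b b' m m' hb h hm
    obtain ⟨c, rfl⟩ := Nat.exists_eq_add_of_le hb
    rw [pow_add, mul_assoc] at h
    have h1 := Nat.eq_of_mul_eq_mul_left (pow_pos (by omega) b) h
    rcases c with _ | c
    · simpa using h1
    · exact absurd ⟨l ^ c * m', by rw [h1, pow_succ]; ring⟩ hm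
  rcases le_total b b' with h1 | h1
  · exact key b b' m m' h1 h hm
  · exact (key b' b m' m h1 h.symm hm').symm

/-- numbers `6 n + 1` divisible by `d` -/
theorem card_T (N d : ℕ) :
    ((Icc 1 N).filter (fun n => d ∣ 6 * n + 1)).card ≤ N / d + 1 := by
  rw [← Finset.card_range (N / d + 1)]
  refine Finset.card_le_card_of_injOn (fun n => n / d) ?_ ?_
  · intro n hn
    obtain ⟨h1, -⟩ := mem_filter.mp hn
    rw [mem_coe, mem_range]
    exact Nat.lt_succ_of_le (Nat.div_le_div_right (mem_Icc.mp h1).2)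
  · intro n hn n' hn' h
    obtain ⟨-, h1⟩ := mem_filter.mp hn
    obtain ⟨-, h2⟩ := mem_filter.mp hn'
    have hc : Nat.gcd d 6 = 1 := by
      have e1 : Nat.gcd d 6 ∣ 6 * n + 1 := (Nat.gcd_dvd_left d 6).trans h1
      have e2 : Nat.gcd d 6 ∣ 6 * n := (Nat.gcd_dvd_right d 6).mul_right n
      exact Nat.dvd_one.mp ((Nat.dvd_add_right e2).mp e1)
    have h3 : 6 * n + 1 ≡ 6 * n' + 1 [MOD d] :=
      (Nat.modEq_zero_iff_dvd.mpr h1).trans (Nat.modEq_zero_iff_dvd.mpr h2).symm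
    have h4 : 6 * n ≡ 6 * n' [MOD d] := Nat.ModEq.add_right_cancel' 1 h3
    have h5 : n ≡ n' [MOD d] := Nat.ModEq.cancel_left_of_coprime hc h4
    have h6 : n % d = n' % d := h5
    have h7 : n / d = n' / d := h
    rw [← Nat.div_add_mod n d, ← Nat.div_add_mod n' d, h6, h7]

theorem sum_sq (D : ℕ) (hD : 4 ≤ D) :
    ∑ d ∈ Icc 5 D, 1 / (d : ℝ) ^ 2 ≤ 1 / 4 - 1 / (D : ℝ) := by
  induction D, hD using Nat.le_induction with
  | base => norm_num
  | succ D hD ih =>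
    rw [Finset.sum_Icc_succ_top (by omega)]
    have hD0 : (0 : ℝ) < D := by
      have : (4 : ℝ) ≤ D := by exact_mod_cast hD
      linarith
    have h1 : 1 / ((D + 1 : ℕ) : ℝ) ^ 2 ≤ 1 / D - 1 / ((D + 1 : ℕ) : ℝ) := by
      push_cast
      rw [div_sub_div _ _ hD0.ne' (by positivity), div_le_div_iff₀ (by positivity) (by positivity)]
      nlinarith
    linarith

/-- the number of coprime pairs -/
theorem cop_count (N : ℕ) (hN : 48 ≤ N) : (N : ℝ) ^ 2 / 4 ≤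
    (((Icc 1 N ×ˢ Icc 1 N).filter
      (fun x => Nat.Coprime (6 * x.1 + 1) (6 * x.2 + 1))).card : ℝ) := by
  classical
  set S := Icc 1 N ×ˢ Icc 1 N with hS
  have hcard : S.card = N * N := by
    rw [hS, card_product, Nat.card_Icc]
    simp
  set bad := S.filter (fun x => ¬ Nat.Coprime (6 * x.1 + 1) (6 * x.2 + 1)) with hbad
  have hsplit := Finset.card_filter_add_card_filter_not (s := S)
    (fun x => Nat.Coprime (6 * x.1 + 1) (6 * x.2 + 1))
  have hb : (bad.card : ℝ) ≤ (N : ℝ) ^ 2 / 2 + 12 * N := by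
    have hsub : bad ⊆ (Icc 5 (6 * N + 1)).biUnion (fun d =>
        (Icc 1 N).filter (fun n => d ∣ 6 * n + 1) ×ˢ
          (Icc 1 N).filter (fun n => d ∣ 6 * n + 1)) := by
      intro x hx
      obtain ⟨h1, h2⟩ := mem_filter.mp hx
      obtain ⟨h3, h4⟩ := mem_product.mp h1
      set g := Nat.gcd (6 * x.1 + 1) (6 * x.2 + 1) with hg
      have g1 : g ∣ 6 * x.1 + 1 := Nat.gcd_dvd_left _ _
      have g2 : g ∣ 6 * x.2 + 1 := Nat.gcd_dvd_right _ _
      have g3 : g ≠ 1 := h2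
      have g0 : g ≠ 0 := by
        intro h0
        rw [h0] at g1
        have := Nat.eq_zero_of_zero_dvd g1
        omega
      have hc : Nat.gcd g 6 = 1 := by
        have e1 : Nat.gcd g 6 ∣ 6 * x.1 + 1 := (Nat.gcd_dvd_left g 6).trans g1
        have e2 : Nat.gcd g 6 ∣ 6 * x.1 := (Nat.gcd_dvd_right g 6).mul_right _
        exact Nat.dvd_one.mp ((Nat.dvd_add_right e2).mp e1)
      have g5 : 5 ≤ g := by
        by_contra hlt
        push Not at hlt
        interval_cases g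
        · exact g0 rfl
        · exact g3 rfl
        · norm_num at hc
        · norm_num at hc
        · norm_num at hc
      have g6 : g ≤ 6 * N + 1 := by
        have := Nat.le_of_dvd (by omega) g1
        have := (mem_Icc.mp h3).2
        omega
      rw [mem_biUnion]
      exact ⟨g, mem_Icc.mpr ⟨g5, g6⟩, mem_product.mpr ⟨mem_filter.mpr ⟨h3, g1⟩,
        mem_filter.mpr ⟨h4, g2⟩⟩⟩
    have h1 : bad.card ≤ ∑ d ∈ Icc 5 (6 * N + 1), (N / d + 1) * (N / d + 1) := by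
      refine (card_le_card hsub).trans (card_biUnion_le.trans (sum_le_sum fun d _ => ?_))
      rw [card_product]
      exact Nat.mul_le_mul (card_T N d) (card_T N d)
    have h2 : ((∑ d ∈ Icc 5 (6 * N + 1), (N / d + 1) * (N / d + 1) : ℕ) : ℝ) ≤
        ∑ d ∈ Icc 5 (6 * N + 1), (2 * (N : ℝ) ^ 2 * (1 / (d : ℝ) ^ 2) + 2) := by
      push_cast
      refine sum_le_sum fun d hd => ?_
      have hd0 : (0 : ℝ) < d := by
        have := (mem_Icc.mp hd).1
        exact_mod_cast (by omega : 0 < d)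
      have e1 : ((N / d : ℕ) : ℝ) ≤ (N : ℝ) / d := Nat.cast_div_le
      have e0 : (0 : ℝ) ≤ ((N / d : ℕ) : ℝ) := Nat.cast_nonneg _
      have e2 : 2 * (N : ℝ) ^ 2 * (1 / (d : ℝ) ^ 2) = 2 * ((N : ℝ) / d) ^ 2 := by
        rw [div_pow]
        ring
      rw [e2]
      nlinarith [sq_nonneg (((N / d : ℕ) : ℝ) - 1)]
    have h3 : ∑ d ∈ Icc 5 (6 * N + 1), (2 * (N : ℝ) ^ 2 * (1 / (d : ℝ) ^ 2) + 2) ≤
        (N : ℝ) ^ 2 / 2 + 12 * N := by
      rw [sum_add_distrib, ← mul_sum, sum_const, Nat.card_Icc, nsmul_eq_mul]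
      have e1 := sum_sq (6 * N + 1) (by omega)
      have e2 : (0 : ℝ) ≤ 1 / ((6 * N + 1 : ℕ) : ℝ) := by positivity
      have e3 : ∑ d ∈ Icc 5 (6 * N + 1), 1 / (d : ℝ) ^ 2 ≤ 1 / 4 := by linarith
      have e4 : (((6 * N + 1 + 1 - 5 : ℕ) : ℝ)) ≤ 6 * N := by
        have : 6 * N + 1 + 1 - 5 ≤ 6 * N := by omega
        exact_mod_cast this
      have e5 : (0 : ℝ) ≤ 2 * (N : ℝ) ^ 2 := by positivity
      nlinarith [mul_le_mul_of_nonneg_left e3 e5]
    exact ((by exact_mod_cast h1 : (bad.card : ℝ) ≤ ((∑ d ∈ Icc 5 (6 * N + 1),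
      (N / d + 1) * (N / d + 1) : ℕ) : ℝ)).trans h2).trans h3
  have hs : ((S.filter (fun x => Nat.Coprime (6 * x.1 + 1) (6 * x.2 + 1))).card : ℝ) +
      (bad.card : ℝ) = (N : ℝ) * N := by
    rw [hcard] at hsplit
    exact_mod_cast hsplit
  have hN' : (48 : ℝ) ≤ N := by exact_mod_cast hN
  nlinarith

/-- **Pairs.** -/
theorem pairs (θ δ c0 : ℝ) (h0 : 0 < θ) (h2 : θ < 2) (hδ : 0 < δ) (hδ1 : δ ≤ 1) (hc0 : 0 < c0) :
    ∃ c1 : ℝ, 0 < c1 ∧ ∃ Y0 : ℝ, 1 ≤ Y0 ∧ ∀ Y : ℝ, Y0 ≤ Y → ∃ S : Finset (ℕ × ℕ),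
      (∀ x ∈ S, 0 < x.1 ∧ 0 < x.2 ∧ Nat.Coprime x.1 x.2 ∧ δ * x.2 / 4 ≤ x.1 ∧
        (x.1 : ℝ) ≤ δ * x.2 / 2 ∧ Y / 3 ≤ x.2 ∧ (x.2 : ℝ) ≤ Y ∧
        (rd x.1 : ℝ) * rd x.2 ≤ c0 * Y ^ θ) ∧ c1 * Y ^ θ ≤ S.card := by
  classical
  set η : ℝ := min 1 (c0 / 294) with hη
  have hη0 : 0 < η := lt_min one_pos (by positivity)
  have hη1 : η ≤ 1 := min_le_left _ _
  have hη2 : 294 * η ≤ c0 := by
    have := min_le_right (1 : ℝ) (c0 / 294)
    rw [← hη] at this
    linarith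
  -- large `Y`
  have hlarge : ∃ Y0 : ℝ, 1 ≤ Y0 ∧ ∀ Y : ℝ, Y0 ≤ Y → 98 ≤ η * Y ^ (θ / 2) ∧
      42 * Y ^ (θ / 2) ≤ δ * Y := by
    have t1 : Filter.Tendsto (fun Y : ℝ => η * Y ^ (θ / 2)) Filter.atTop Filter.atTop :=
      (tendsto_rpow_atTop (by positivity : 0 < θ / 2)).const_mul_atTop hη0
    have t2 : Filter.Tendsto (fun Y : ℝ => δ * Y ^ (1 - θ / 2)) Filter.atTop Filter.atTop :=
      (tendsto_rpow_atTop (by linarith : 0 < 1 - θ / 2)).const_mul_atTop hδ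
    have := ((t1.eventually_ge_atTop 98).and (t2.eventually_ge_atTop 42)).and
      (Filter.eventually_ge_atTop (1 : ℝ))
    obtain ⟨Y1, hY1⟩ := Filter.eventually_atTop.mp this
    refine ⟨max Y1 1, le_max_right _ _, fun Y hY => ?_⟩
    obtain ⟨⟨a1, a2⟩, a3⟩ := hY1 Y (le_trans (le_max_left _ _) hY)
    refine ⟨a1, ?_⟩
    have hY0 : 0 < Y := by linarith
    have e1 : Y = Y ^ (1 - θ / 2) * Y ^ (θ / 2) := by
      rw [← Real.rpow_add hY0]
      have : 1 - θ / 2 + θ / 2 = 1 := by ring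
      rw [this, Real.rpow_one]
    have e2 : 0 ≤ Y ^ (θ / 2) := Real.rpow_nonneg hY0.le _
    calc 42 * Y ^ (θ / 2) ≤ (δ * Y ^ (1 - θ / 2)) * Y ^ (θ / 2) := by gcongr
      _ = δ * (Y ^ (1 - θ / 2) * Y ^ (θ / 2)) := by ring
      _ = δ * Y := by rw [← e1]
  obtain ⟨Y0, hY01, hY0⟩ := hlarge
  refine ⟨η ^ 2 / 16, by positivity, Y0, hY01, fun Y hY => ?_⟩
  obtain ⟨b1, b2⟩ := hY0 Y hY
  have hYp : 0 < Y := by linarith
  set P : ℝ := Y ^ (θ / 2) with hP
  have hP0 : 0 ≤ P := Real.rpow_nonneg hYp.le _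
  have hPP : P * P = Y ^ θ := by
    rw [hP, ← Real.rpow_add hYp]
    congr 1
    ring
  set N : ℕ := ⌊η * P⌋₊ with hN
  have hN1 : (N : ℝ) ≤ η * P := Nat.floor_le (by positivity)
  have hN2 : η * P < N + 1 := Nat.lt_floor_add_one _
  have hN48 : 48 ≤ N := by
    have : (48 : ℝ) < N + 1 := by linarith
    have h3 : (48 : ℕ) < N + 1 := by exact_mod_cast this
    omega
  have hNP : (N : ℝ) ≤ P := hN1.trans (mul_le_of_le_one_left hP0 hη1)
  -- the exponents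
  have hm : ∀ n : ℕ, n ≤ N → ((6 * n + 1 : ℕ) : ℝ) ≤ 7 * N := by
    intro n hn
    have : 6 * n + 1 ≤ 7 * N := by omega
    exact_mod_cast this
  have hq : ∀ n : ℕ, n ≤ N → ∃ b : ℕ, Y / 3 ≤ ((3 ^ b * (6 * n + 1) : ℕ) : ℝ) ∧
      ((3 ^ b * (6 * n + 1) : ℕ) : ℝ) ≤ Y := by
    intro n hn
    have e0 : (0 : ℝ) < ((6 * n + 1 : ℕ) : ℝ) := by positivity
    have e1 : (1 : ℝ) ≤ Y / ((6 * n + 1 : ℕ) : ℝ) := by
      rw [le_div_iff₀ e0, one_mul]
      have := hm n hn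
      nlinarith
    obtain ⟨b, e2, e3⟩ := exists_nat_pow_near e1 (by norm_num : (1 : ℝ) < 3)
    refine ⟨b, ?_, ?_⟩
    · rw [div_lt_iff₀ e0] at e3
      push_cast
      push_cast at e3
      have : (3 : ℝ) ^ (b + 1) = 3 * 3 ^ b := by ring
      rw [this] at e3
      linarith
    · rw [le_div_iff₀ e0] at e2
      push_cast
      push_cast at e2
      linarith
  choose! fb hb1 hb2 using hq
  have hp : ∀ n n' : ℕ, n ≤ N → n' ≤ N → ∃ a : ℕ,
      δ * ((3 ^ fb n' * (6 * n' + 1) : ℕ) : ℝ) / 4 ≤ ((2 ^ a * (6 * n + 1) : ℕ) : ℝ) ∧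
      ((2 ^ a * (6 * n + 1) : ℕ) : ℝ) ≤ δ * ((3 ^ fb n' * (6 * n' + 1) : ℕ) : ℝ) / 2 := by
    intro n n' hn hn'
    set q : ℝ := ((3 ^ fb n' * (6 * n' + 1) : ℕ) : ℝ) with hq
    have e0 : (0 : ℝ) < ((6 * n + 1 : ℕ) : ℝ) := by positivity
    have hqY := hb1 n' hn'
    rw [← hq] at hqY
    have e1 : (1 : ℝ) ≤ δ * q / 2 / ((6 * n + 1 : ℕ) : ℝ) := by
      rw [le_div_iff₀ e0, one_mul]
      have := hm n hn
      nlinarith
    obtain ⟨a, e2, e3⟩ := exists_nat_pow_near e1 (by norm_num : (1 : ℝ) < 2)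
    refine ⟨a, ?_, ?_⟩
    · rw [div_lt_iff₀ e0] at e3
      push_cast
      push_cast at e3
      have : (2 : ℝ) ^ (a + 1) = 2 * 2 ^ a := by ring
      rw [this] at e3
      linarith
    · rw [le_div_iff₀ e0] at e2
      push_cast
      push_cast at e2
      linarith
  choose! fa ha1 ha2 using hp
  let φ : ℕ × ℕ → ℕ × ℕ := fun x =>
    (2 ^ fa x.1 x.2 * (6 * x.1 + 1), 3 ^ fb x.2 * (6 * x.2 + 1))
  set G := (Icc 1 N ×ˢ Icc 1 N).filter (fun x => Nat.Coprime (6 * x.1 + 1) (6 * x.2 + 1)) with hG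
  have hinj : Set.InjOn φ (G : Set (ℕ × ℕ)) := by
    rintro ⟨n, n'⟩ - ⟨m, m'⟩ - h
    simp only [φ, Prod.mk.injEq] at h
    obtain ⟨h1, h2⟩ := h
    have e1 := strip (by norm_num) h1 (by omega) (by omega)
    have e2 := strip (by norm_num) h2 (by omega) (by omega)
    ext <;> simp only <;> omega
  refine ⟨G.image φ, ?_, ?_⟩
  · intro y hy
    obtain ⟨⟨n, n'⟩, hx, rfl⟩ := mem_image.mp hy
    obtain ⟨hx1, hx2⟩ := mem_filter.mp hx
    obtain ⟨hx3, hx4⟩ := mem_product.mp hx1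
    have hn := (mem_Icc.mp hx3).2
    have hn' := (mem_Icc.mp hx4).2
    simp only at hn hn' hx2
    refine ⟨by positivity, by positivity, ?_, ha1 n n' hn hn', ha2 n n' hn hn', hb1 n' hn',
      hb2 n' hn', ?_⟩
    · change Nat.Coprime (2 ^ fa n n' * (6 * n + 1)) (3 ^ fb n' * (6 * n' + 1))
      have c1 : Nat.Coprime 2 (6 * n' + 1) := by
        exact Nat.coprime_two_left.mpr ⟨3 * n', by ring⟩
      have c2 : Nat.Coprime (6 * n + 1) 3 := by
        rw [Nat.coprime_comm, Nat.Prime.coprime_iff_not_dvd Nat.prime_three]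
        omega
      have c3 : Nat.Coprime 2 3 := by norm_num
      exact Nat.Coprime.mul_left
        (Nat.Coprime.mul_right (Nat.Coprime.pow _ _ c3) (Nat.Coprime.pow_left _ c1))
        (Nat.Coprime.mul_right (Nat.Coprime.pow_right _ c2) hx2)
    · have r1 : rd (2 ^ fa n n' * (6 * n + 1)) ≤ 2 * (6 * n + 1) :=
        rd_pow_mul Nat.prime_two (by omega)
      have r2 : rd (3 ^ fb n' * (6 * n' + 1)) ≤ 3 * (6 * n' + 1) :=
        rd_pow_mul Nat.prime_three (by omega)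
      have r3 : (rd (2 ^ fa n n' * (6 * n + 1)) : ℝ) ≤ 2 * (7 * N) := by
        have : (rd (2 ^ fa n n' * (6 * n + 1)) : ℝ) ≤ ((2 * (6 * n + 1) : ℕ) : ℝ) := by
          exact_mod_cast r1
        have h5 := hm n hn
        push_cast at this h5
        linarith
      have r4 : (rd (3 ^ fb n' * (6 * n' + 1)) : ℝ) ≤ 3 * (7 * N) := by
        have : (rd (3 ^ fb n' * (6 * n' + 1)) : ℝ) ≤ ((3 * (6 * n' + 1) : ℕ) : ℝ) := by
          exact_mod_cast r2
        have h5 := hm n' hn'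
        push_cast at this h5
        linarith
      change (rd (2 ^ fa n n' * (6 * n + 1)) : ℝ) * (rd (3 ^ fb n' * (6 * n' + 1)) : ℝ) ≤ _
      have hN0 : (0 : ℝ) ≤ N := Nat.cast_nonneg _
      calc (rd (2 ^ fa n n' * (6 * n + 1)) : ℝ) * (rd (3 ^ fb n' * (6 * n' + 1)) : ℝ) ≤
            (2 * (7 * N)) * (3 * (7 * N)) := by gcongr
        _ = 294 * (N * N) := by ring
        _ ≤ 294 * ((η * P) * P) := by gcongr
        _ = (294 * η) * (P * P) := by ring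
        _ ≤ c0 * (P * P) := by gcongr
        _ = c0 * Y ^ θ := by rw [hPP]
  · rw [Finset.card_image_of_injOn hinj]
    refine le_trans ?_ (cop_count N hN48)
    rw [← hPP]
    have h3 : η * P / 2 ≤ N := by linarith
    have h4 : (0 : ℝ) ≤ η * P / 2 := by positivity
    nlinarith

end Pool.Agent.H775.SZ
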