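import Pool.Agent.TH498.KB.Tors
import Pool.Agent.H775.SZ.Pairs

/-!
# Bounds for the values of binary forms in a sector
-/

set_option autoImplicit false

namespace Pool.Agent.H775.SZ

open Finset Polynomial Pool.Agent.W4.CF Pool.Agent.W4.VC Pool.Agent.TH498.KB

theorem hom_real (f : ℤ[X]) (n : ℕ) (hf : f.natDegree ≤ n) (a b : ℤ) (hb : (b : ℝ) ≠ 0) :
    ((hom f n a b : ℤ) : ℝ) = (b : ℝ) ^ n * (f.map (Int.castRingHom ℝ)).eval ((a : ℝ) / b) := by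
  rw [eval_eq_sum_range' (n := n + 1) (by
    exact lt_of_le_of_lt (natDegree_map_le.trans hf) (Nat.lt_succ_self n))]
  unfold hom
  push_cast
  rw [mul_sum]
  refine sum_congr rfl fun j hj => ?_
  have hjn : j ≤ n := Nat.lt_succ_iff.mp (mem_range.mp hj)
  rw [coeff_map, div_pow]
  have h1 : (b : ℝ) ^ n = (b : ℝ) ^ (n - j) * (b : ℝ) ^ j := by
    rw [← pow_add, Nat.sub_add_cancel hjn]
  rw [h1, eq_intCast]
  field_simp

/-- no zeros near `t0`, to the right of `t0` -/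
theorem no_zero (f : ℤ[X]) (hf : f ≠ 0) (t0 : ℤ) : ∃ δ : ℝ, 0 < δ ∧ δ ≤ 1 ∧ ∀ x : ℝ, 0 < x →
    x ≤ δ → (f.map (Int.castRingHom ℝ)).eval ((t0 : ℝ) + x) ≠ 0 := by
  set F := f.map (Int.castRingHom ℝ) with hF
  have hF0 : F ≠ 0 := by
    rw [hF]
    exact (Polynomial.map_ne_zero_iff Int.cast_injective).mpr hf
  set Z : Set ℝ := {x | x ≠ 0 ∧ F.eval ((t0 : ℝ) + x) = 0} with hZ
  have hfin : Z.Finite := by
    refine ((Polynomial.finite_setOfPred_isRoot hF0).image (fun y => y - (t0 : ℝ))).subset ?_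
    rintro x ⟨-, hx⟩
    exact ⟨(t0 : ℝ) + x, hx, by ring⟩
  have h0 : (0 : ℝ) ∈ Zᶜ := fun h => h.1 rfl
  obtain ⟨ε, hε, hball⟩ := Metric.mem_nhds_iff.mp (hfin.isClosed.isOpen_compl.mem_nhds h0)
  refine ⟨min (ε / 2) 1, lt_min (by positivity) one_pos, min_le_right _ _, fun x hx hx' hz => ?_⟩
  have h1 : x ∈ Metric.ball (0 : ℝ) ε := by
    rw [Metric.mem_ball, dist_zero_right, Real.norm_eq_abs, abs_of_pos hx]
    have := min_le_left (ε / 2) 1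
    linarith
  exact hball h1 ⟨hx.ne', hz⟩

theorem low (f : ℤ[X]) (n : ℕ) (hf : f.natDegree ≤ n) (t0 : ℤ) (δ : ℝ) (hδ : 0 < δ)
    (hne : ∀ x : ℝ, 0 < x → x ≤ δ → (f.map (Int.castRingHom ℝ)).eval ((t0 : ℝ) + x) ≠ 0) :
    ∃ c : ℝ, 0 < c ∧ ∀ p q : ℕ, 0 < q → δ * q / 4 ≤ p → (p : ℝ) ≤ δ * q / 2 →
      c * (q : ℝ) ^ n ≤ |((hom f n ((p : ℤ) + t0 * q) q : ℤ) : ℝ)| := by
  set F := f.map (Int.castRingHom ℝ) with hF
  obtain ⟨x0, hx0, hmin⟩ := (isCompact_Icc (a := δ / 4) (b := δ / 2)).exists_isMinOn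
    ⟨δ / 4, by constructor <;> linarith⟩
    (f := fun x : ℝ => |F.eval ((t0 : ℝ) + x)|)
    ((F.continuous.comp (continuous_const.add continuous_id)).abs.continuousOn)
  refine ⟨|F.eval ((t0 : ℝ) + x0)|, ?_, ?_⟩
  · exact abs_pos.mpr (hne x0 (by linarith [hx0.1]) (by linarith [hx0.2]))
  · intro p q hq h1 h2
    have hq0 : (0 : ℝ) < q := by exact_mod_cast hq
    rw [hom_real f n hf _ _ (by exact_mod_cast hq.ne'), abs_mul, abs_pow]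
    push_cast
    rw [Nat.abs_cast]
    have e1 : ((p : ℝ) + t0 * q) / q = (t0 : ℝ) + (p : ℝ) / q := by field_simp; ring
    rw [e1]
    have h3 := hmin (a := (p : ℝ) / q) ⟨by rw [le_div_iff₀ hq0]; linarith,
      by rw [div_le_iff₀ hq0]; linarith⟩
    have h4 : |F.eval ((t0 : ℝ) + x0)| ≤ |F.eval ((t0 : ℝ) + (p : ℝ) / q)| := h3
    rw [mul_comm]
    exact mul_le_mul_of_nonneg_left h4 (by positivity)

theorem upp (f : ℤ[X]) (n : ℕ) (t0 : ℤ) :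
    ∃ C : ℝ, 1 ≤ C ∧ ∀ p q : ℕ, p ≤ q →
      |((hom f n ((p : ℤ) + t0 * q) q : ℤ) : ℝ)| ≤ C * (q : ℝ) ^ n := by
  obtain ⟨C, hC, h⟩ := Pool.Agent.W505.VC.t_HOM.2.1 f n
  have h1 : (1 : ℝ) ≤ (1 + |(t0 : ℝ)|) ^ n :=
    one_le_pow₀ (by linarith [abs_nonneg (t0 : ℝ)])
  refine ⟨C * (1 + |(t0 : ℝ)|) ^ n, by nlinarith, fun p q hpq => (h _ _).trans ?_⟩
  have hpq' : (p : ℝ) ≤ q := by exact_mod_cast hpq
  have hq0 : (0 : ℝ) ≤ q := Nat.cast_nonneg _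
  have hp0 : (0 : ℝ) ≤ p := Nat.cast_nonneg _
  have ht := abs_nonneg (t0 : ℝ)
  have h2 : max |(((p : ℤ) + t0 * q : ℤ) : ℝ)| |(((q : ℕ) : ℤ) : ℝ)| ≤ (1 + |(t0 : ℝ)|) * q := by
    refine max_le ?_ ?_
    · push_cast
      refine (abs_add_le _ _).trans ?_
      rw [abs_mul, Nat.abs_cast, Nat.abs_cast]
      nlinarith
    · push_cast
      rw [Nat.abs_cast]
      nlinarith
  calc C * (max |(((p : ℤ) + t0 * q : ℤ) : ℝ)| |(((q : ℕ) : ℤ) : ℝ)|) ^ n ≤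
        C * ((1 + |(t0 : ℝ)|) * q) ^ n := by gcongr
    _ = C * (1 + |(t0 : ℝ)|) ^ n * (q : ℝ) ^ n := by rw [mul_pow]; ring

end Pool.Agent.H775.SZ
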