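import Pool.Agent.H775.SZ.CjA
import Pool.Agent.H775.SZ.CjB
import Pool.Agent.H775.SZ.Forms

/-!
# Many coprime pairs where a binary form is divisible by a high power of a fixed prime
-/

set_option autoImplicit false

namespace Pool.Agent.H775.SZ

open Finset Polynomial Pool.Agent.W4.CF Pool.Agent.W4.VC Pool.Agent.TH498.KB

theorem sum_sq5 (N : ℕ) : ∑ d ∈ Icc 5 N, 1 / (d : ℝ) ^ 2 ≤ 1 / 4 := by
  rcases Nat.lt_or_ge N 4 with h | h
  · rw [Icc_eq_empty (by omega)]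
    norm_num
  · have := sum_sq N h
    have h2 : (0 : ℝ) ≤ 1 / (N : ℝ) := by positivity
    linarith

theorem sum_one5 (N : ℕ) : ∑ d ∈ Icc 5 N, 1 / (d : ℝ) ≤ 1 + Real.log N := by
  have h1 : ((harmonic N : ℚ) : ℝ) ≤ 1 + Real.log N := harmonic_le_one_add_log N
  refine le_trans ?_ h1
  rw [harmonic_eq_sum_Icc]
  push_cast
  refine (sum_le_sum_of_subset_of_nonneg (Icc_subset_Icc_left (by norm_num : 1 ≤ 5))
    fun i _ _ => by positivity).trans (le_of_eq ?_)
  refine sum_congr rfl fun i _ => ?_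
  rw [one_div]

theorem good_many (l q N M a : ℕ) (ρ : ℤ) (hl : l.Prime) (hq : q = l ^ (a + 1)) :
    3 / 4 * ((M : ℝ) * ((N : ℝ) / q)) ≤ (good l q N M ρ).card + M +
      ((M : ℝ) + N / q) * (1 + Real.log N) + N := by
  have h0 := good_card l q N M a ρ hl hq
  have hq0 : (0 : ℝ) < q := by
    rw [hq]; exact_mod_cast pow_pos hl.pos _
  have h1 : ∑ d ∈ Icc 5 N, ((M : ℝ) / d + 1) * ((N : ℝ) / (d * q) + 1) =
      (M : ℝ) * (N / q) * ∑ d ∈ Icc 5 N, 1 / (d : ℝ) ^ 2 +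
        ((M : ℝ) + N / q) * ∑ d ∈ Icc 5 N, 1 / (d : ℝ) + ∑ d ∈ Icc 5 N, (1 : ℝ) := by
    rw [mul_sum, mul_sum, ← sum_add_distrib, ← sum_add_distrib]
    refine sum_congr rfl fun d hd => ?_
    have hd0 : (0 : ℝ) < d := by
      have := (mem_Icc.mp hd).1
      exact_mod_cast (by omega : 0 < d)
    field_simp
    ring
  have h2 : ∑ d ∈ Icc 5 N, (1 : ℝ) ≤ N := by
    rw [sum_const, nsmul_eq_mul, mul_one, Nat.card_Icc]
    exact_mod_cast (by omega : N + 1 - 5 ≤ N)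
  have h3 : (0 : ℝ) ≤ (M : ℝ) * (N / q) := by positivity
  have h4 : (0 : ℝ) ≤ (M : ℝ) + N / q := by positivity
  have h5 := mul_le_mul_of_nonneg_left (sum_sq5 N) h3
  have h6 := mul_le_mul_of_nonneg_left (sum_one5 N) h4
  rw [h1] at h0
  linarith

/-- the coprime pairs with `y > 0` where the form vanishes -/
theorem zeros_card (f : ℤ[X]) (n : ℕ) (hn : f.natDegree ≤ n) (hf : f ≠ 0) (s : Finset (ℤ × ℤ))
    (hs : ∀ p ∈ s, IsCoprime p.1 p.2 ∧ 0 < p.2 ∧ hom f n p.1 p.2 = 0) : s.card ≤ n := by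
  classical
  have hF : f.map (Int.castRingHom ℝ) ≠ 0 :=
    (Polynomial.map_ne_zero_iff Int.cast_injective).mpr hf
  have h1 : s.card ≤ (f.map (Int.castRingHom ℝ)).roots.toFinset.card := by
    refine Finset.card_le_card_of_injOn (fun p => (p.1 : ℝ) / p.2) ?_ ?_
    · intro p hp
      obtain ⟨g1, g2, g3⟩ := hs p hp
      have hb : ((p.2 : ℤ) : ℝ) ≠ 0 := by exact_mod_cast g2.ne'
      have := hom_real f n hn p.1 p.2 hb
      rw [g3] at this
      rw [mem_coe, Multiset.mem_toFinset, mem_roots hF, IsRoot]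
      have h4 : ((p.2 : ℤ) : ℝ) ^ n ≠ 0 := pow_ne_zero _ hb
      have h5 := this.symm
      push_cast at h5
      exact (mul_eq_zero.mp h5).resolve_left h4
    · intro p hp p' hp' he
      obtain ⟨g1, g2, g3⟩ := hs p hp
      obtain ⟨g1', g2', g3'⟩ := hs p' hp'
      have hb : ((p.2 : ℤ) : ℝ) ≠ 0 := by exact_mod_cast g2.ne'
      have hb' : ((p'.2 : ℤ) : ℝ) ≠ 0 := by exact_mod_cast g2'.ne'
      have he' : (p.1 : ℝ) / p.2 = (p'.1 : ℝ) / p'.2 := he
      rw [div_eq_div_iff hb hb'] at he'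
      have he2 : p.1 * p'.2 = p'.1 * p.2 := by exact_mod_cast he'
      have d1 : p.2 ∣ p'.2 := by
        have : p.2 ∣ p.1 * p'.2 := ⟨p'.1, by rw [he2]; ring⟩
        exact g1.symm.dvd_of_dvd_mul_left this
      have d2 : p'.2 ∣ p.2 := by
        have : p'.2 ∣ p'.1 * p.2 := ⟨p.1, by rw [← he2]; ring⟩
        exact g1'.symm.dvd_of_dvd_mul_left this
      have e2 : p.2 = p'.2 := Int.dvd_antisymm g2.le g2'.le d1 d2
      have e1 : p.1 = p'.1 := by
        rw [← e2] at he2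
        exact mul_right_cancel₀ g2.ne' he2
      exact Prod.ext e1 e2
  refine h1.trans ((Multiset.toFinset_card_le _).trans ?_)
  exact (card_roots' _).trans (natDegree_map_le.trans hn)

/-- divisibility of the value of the form -/
theorem hom_dvd (f : ℤ[X]) (n : ℕ) (hn : f.natDegree ≤ n) (q : ℕ) (ρ x y : ℤ)
    (h : (q : ℤ) ∣ f.eval ρ) (hx : (q : ℤ) ∣ x - ρ * y) : (q : ℤ) ∣ hom f n x y := by
  have h1 : hom f n (ρ * y) y = y ^ n * f.eval ρ := by
    unfold hom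
    rw [eval_eq_sum_range' (n := n + 1) (Nat.lt_succ_of_le hn), mul_sum]
    refine sum_congr rfl fun j hj => ?_
    have hjn : j ≤ n := Nat.lt_succ_iff.mp (mem_range.mp hj)
    have h1 : y ^ n = y ^ (n - j) * y ^ j := by rw [← pow_add, Nat.sub_add_cancel hjn]
    rw [h1]
    ring
  have h2 : (q : ℤ) ∣ hom f n x y - hom f n (ρ * y) y := by
    unfold hom
    rw [← sum_sub_distrib]
    refine dvd_sum fun j _ => ?_
    have h3 : (q : ℤ) ∣ x ^ j - (ρ * y) ^ j := hx.trans (sub_dvd_pow_sub_pow x (ρ * y) j)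
    have h4 : f.coeff j * x ^ j * y ^ (n - j) - f.coeff j * (ρ * y) ^ j * y ^ (n - j) =
        (x ^ j - (ρ * y) ^ j) * (f.coeff j * y ^ (n - j)) := by ring
    rw [h4]
    exact h3.mul_right _
  have h3 : (q : ℤ) ∣ hom f n (ρ * y) y := by rw [h1]; exact h.mul_left _
  simpa using dvd_add h2 h3

end Pool.Agent.H775.SZ
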