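import Pool.Agent.H775.SZ.CjC

/-!
# Lower bound for the number of values of a binary form with small radical
-/

set_option autoImplicit false

namespace Pool.Agent.H775.SZ

open Finset Polynomial Filter Pool.Agent.W4.CF Pool.Agent.W4.VC Pool.Agent.TH498.KB

theorem ev_large (K s : ℝ) (hK : 1 ≤ K) (hs : 0 < s) : ∃ B0 : ℝ, 1 ≤ B0 ∧ ∀ B : ℝ, B0 ≤ B →
    (4 + 2 * Real.log B) * K ≤ B ^ s := by
  have hK0 : 0 < K := by linarith
  have e1 := (isLittleO_log_rpow_atTop hs).bound (show (0 : ℝ) < 1 / (4 * K) by positivity)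
  have e2 := (tendsto_rpow_atTop hs).eventually (eventually_ge_atTop (8 * K))
  obtain ⟨B0, hB0⟩ := eventually_atTop.mp (e1.and (e2.and (eventually_ge_atTop (1 : ℝ))))
  refine ⟨max B0 1, le_max_right _ _, fun B hB => ?_⟩
  obtain ⟨h1, h2, h3⟩ := hB0 B ((le_max_left _ _).trans hB)
  rw [Real.norm_eq_abs, Real.norm_eq_abs, abs_of_nonneg (Real.log_nonneg h3),
    abs_of_nonneg (by positivity)] at h1
  have h4 : Real.log B * (4 * K) ≤ B ^ s := by
    calc Real.log B * (4 * K) ≤ 1 / (4 * K) * B ^ s * (4 * K) := by gcongr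
      _ = B ^ s := by field_simp
  nlinarith

theorem cj_low (f : ℤ[X]) (n : ℕ) (hf : Sqf f n) (hn : 2 ≤ n) (κ c : ℝ) (h0 : 0 ≤ κ)
    (h1 : κ < 1) (hc : 0 < c) :
    ∃ c1 : ℝ, 0 < c1 ∧ ∃ B0 : ℝ, 1 ≤ B0 ∧ ∀ B : ℝ, B0 ≤ B → ∃ S : Finset (ℤ × ℤ),
      (∀ p ∈ S, IsCoprime p.1 p.2 ∧ |(p.1 : ℝ)| ≤ B ∧ |(p.2 : ℝ)| ≤ B ∧
        hom f n p.1 p.2 ≠ 0 ∧ (rd (hom f n p.1 p.2).natAbs : ℝ) ≤
          c * (max |(p.1 : ℝ)| |(p.2 : ℝ)|) ^ ((n : ℝ) - κ)) ∧ c1 * B ^ (2 - κ) ≤ S.card := by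
  classical
  obtain ⟨hsq, hdn, hnd⟩ := hf
  have hf0 : f ≠ 0 := by
    rintro rfl
    simp at hnd
    omega
  obtain ⟨l, r, hl, hl5, hr1, hr2⟩ := simple_root f hsq (by omega)
  obtain ⟨C3, hC3, hsize⟩ := Pool.Agent.W505.VC.t_HOM.2.1 f n
  have hlR : (5 : ℝ) ≤ l := by exact_mod_cast hl5
  have hl0 : (0 : ℝ) < l := by linarith
  set A : ℝ := max 1 (l * C3 / c) with hA
  have hA1 : 1 ≤ A := le_max_left _ _
  have hA0 : 0 < A := by linarith
  have hAc : l * C3 ≤ A * c := by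
    rw [← div_le_iff₀ hc]
    exact le_max_right _ _
  set K : ℝ := 128 * l ^ 2 * A with hK
  have hK1 : 1 ≤ K := by
    rw [hK]
    nlinarith [mul_le_mul hlR hlR (by norm_num) hl0.le]
  have hK0 : 0 < K := by linarith
  obtain ⟨B1, hB1, hev⟩ := ev_large K (1 - κ) hK1 (by linarith)
  refine ⟨1 / (2 * K), by positivity, max B1 (max (24 * l) (2 * K * n + 2)),
    hB1.trans (le_max_left _ _), fun B hB => ?_⟩
  have hBB1 : B1 ≤ B := (le_max_left _ _).trans hB
  have hB24 : 24 * l ≤ B := ((le_max_left _ _).trans (le_max_right _ _)).trans hB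
  have hBn : 2 * K * n + 2 ≤ B := ((le_max_right _ _).trans (le_max_right _ _)).trans hB
  have hBone : 1 ≤ B := hB1.trans hBB1
  have hBpos : 0 < B := by linarith
  have hBκ : 1 ≤ B ^ κ := Real.one_le_rpow hBone h0
  obtain ⟨a, ha1, ha2⟩ := exists_nat_pow_near (x := A * B ^ κ) (y := (l : ℝ)) (by nlinarith)
    (by linarith)
  set q : ℕ := l ^ (a + 1) with hq
  have hqR : ((q : ℕ) : ℝ) = (l : ℝ) ^ (a + 1) := by rw [hq]; push_cast; rfl
  have hq1 : A * B ^ κ < q := by rw [hqR]; exact ha2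
  have hq2 : (q : ℝ) ≤ l * (A * B ^ κ) := by
    rw [hqR, pow_succ]
    nlinarith
  have hq0 : (0 : ℝ) < q := lt_of_le_of_lt (by positivity) hq1
  have hq1' : (1 : ℝ) ≤ q := by nlinarith
  obtain ⟨ρ, hρ, -⟩ := lift_root f l hl r hr1 hr2 a
  have hρ' : (q : ℤ) ∣ f.eval ρ := by rw [hq]; push_cast; exact hρ
  set N : ℕ := ⌊B⌋₊ with hN
  set M : ℕ := ⌊B / (12 * l)⌋₊ with hM
  have hNB : (N : ℝ) ≤ B := Nat.floor_le hBpos.le
  have hNB' : B / 2 ≤ N := by
    have := Nat.lt_floor_add_one B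
    rw [← hN] at this
    linarith
  have hMB : (M : ℝ) ≤ B / (12 * l) := Nat.floor_le (by positivity)
  have hMB' : B / (24 * l) ≤ M := by
    have h2 := Nat.lt_floor_add_one (B / (12 * l))
    rw [← hM] at h2
    have h3 : (1 : ℝ) ≤ B / (24 * l) := by
      rw [le_div_iff₀ (by positivity)]
      linarith
    have h4 : B / (12 * l) = 2 * (B / (24 * l)) := by
      field_simp
      norm_num
    linarith
  have hMle : (M : ℝ) ≤ B := by
    refine hMB.trans ?_
    rw [div_le_iff₀ (by positivity)]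
    nlinarith
  -- the image
  set e : ℕ × ℕ → ℤ × ℤ := fun z => ((z.1 : ℤ), ((6 * l * z.2 + 1 : ℕ) : ℤ)) with he
  have hinj : Function.Injective e := by
    rintro ⟨x, m⟩ ⟨x', m'⟩ h
    simp only [he, Prod.mk.injEq, Nat.cast_inj] at h
    obtain ⟨g1, g2⟩ := h
    have g3 : 6 * l * m = 6 * l * m' := by omega
    have g4 := Nat.eq_of_mul_eq_mul_left (by have := hl.pos; positivity) g3
    rw [g1, g4]
  set G := (good l q N M ρ).image e with hG
  have hGc : G.card = (good l q N M ρ).card := card_image_of_injective _ hinj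
  have hGm : ∀ p ∈ G, IsCoprime p.1 p.2 ∧ 0 < p.2 ∧ |(p.1 : ℝ)| ≤ B ∧ |(p.2 : ℝ)| ≤ B ∧
      (q : ℤ) ∣ hom f n p.1 p.2 := by
    intro p hp
    obtain ⟨⟨x, m⟩, hz, rfl⟩ := mem_image.mp hp
    unfold good at hz
    obtain ⟨g1, g2, g3⟩ := mem_filter.mp hz
    obtain ⟨g4, g5⟩ := mem_product.mp g1
    simp only at g2 g3 g4 g5
    have g6 := mem_Icc.mp g4
    have g7 := mem_Icc.mp g5
    refine ⟨Nat.isCoprime_iff_coprime.mpr g3, ?_, ?_, ?_, ?_⟩
    · simp only [he]
      exact_mod_cast Nat.succ_pos _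
    · simp only [he]
      push_cast
      rw [abs_of_nonneg (by positivity)]
      have : (x : ℝ) ≤ N := by exact_mod_cast g6.2
      linarith
    · simp only [he]
      push_cast
      rw [abs_of_nonneg (by positivity)]
      have g8 : (m : ℝ) ≤ M := by exact_mod_cast g7.2
      have g9 : (m : ℝ) * (12 * l) ≤ B := by
        rw [← le_div_iff₀ (by positivity)]
        exact g8.trans hMB
      nlinarith
    · exact hom_dvd f n hdn q ρ _ _ hρ' g2
  refine ⟨G.filter (fun p => hom f n p.1 p.2 ≠ 0), ?_, ?_⟩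
  · intro p hp
    obtain ⟨hpG, hp0⟩ := mem_filter.mp hp
    obtain ⟨g1, g2, g3, g4, g5⟩ := hGm p hpG
    refine ⟨g1, g3, g4, hp0, ?_⟩
    have hm := max_ge_one g1
    have hs := hsize p.1 p.2
    have hxB : max |(p.1 : ℝ)| |(p.2 : ℝ)| ≤ B := max_le g3 g4
    set x := max |(p.1 : ℝ)| |(p.2 : ℝ)| with hx
    have hx0 : 0 < x := by linarith
    set v := (hom f n p.1 p.2).natAbs with hv
    have hv0 : v ≠ 0 := Int.natAbs_ne_zero.mpr hp0
    have hvR : (v : ℝ) = |((hom f n p.1 p.2 : ℤ) : ℝ)| := by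
      rw [hv, Nat.cast_natAbs]
      push_cast
      rfl
    obtain ⟨m, hm'⟩ : q ∣ v := Int.natCast_dvd.mp g5
    have hm0 : m ≠ 0 := by
      rintro rfl
      exact hv0 (by rw [hm', mul_zero])
    have h2 : rd v ≤ l * m := by
      rw [hm', hq]
      exact rd_pow_mul hl hm0
    have h3 : (rd v : ℝ) * q ≤ l * v := by
      have : (rd v : ℝ) ≤ l * m := by exact_mod_cast h2
      have h4 : (v : ℝ) = q * m := by exact_mod_cast hm'
      rw [h4]
      nlinarith
    have h4 : (l : ℝ) * v ≤ (A * B ^ κ) * (c * x ^ ((n : ℝ) - κ)) := by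
      rw [hvR]
      have h5 : x ^ ((n : ℝ) - κ) * x ^ κ = x ^ n := by
        rw [← Real.rpow_add hx0, sub_add_cancel, Real.rpow_natCast]
      have h6 : x ^ κ ≤ B ^ κ := Real.rpow_le_rpow hx0.le hxB h0
      have h7 : 0 < x ^ ((n : ℝ) - κ) := by positivity
      calc (l : ℝ) * |((hom f n p.1 p.2 : ℤ) : ℝ)| ≤ l * (C3 * x ^ n) := by gcongr
        _ = l * C3 * (x ^ ((n : ℝ) - κ) * x ^ κ) := by rw [h5]; ring
        _ ≤ A * c * (x ^ ((n : ℝ) - κ) * B ^ κ) := by gcongr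
        _ = (A * B ^ κ) * (c * x ^ ((n : ℝ) - κ)) := by ring
    have h5 : 0 < c * x ^ ((n : ℝ) - κ) := by positivity
    have h6 : (rd v : ℝ) * q ≤ (c * x ^ ((n : ℝ) - κ)) * q := by
      refine (h3.trans h4).trans ?_
      rw [mul_comm]
      gcongr
    exact le_of_mul_le_mul_right h6 hq0
  · have hsplit := Finset.card_filter_add_card_filter_not (s := G)
      (fun p => hom f n p.1 p.2 ≠ 0)
    have hz : (G.filter (fun p => ¬ hom f n p.1 p.2 ≠ 0)).card ≤ n := by
      refine zeros_card f n hdn hf0 _ fun p hp => ?_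
      obtain ⟨g1, g2⟩ := mem_filter.mp hp
      obtain ⟨g3, g4, -⟩ := hGm p g1
      exact ⟨g3, g4, not_not.mp g2⟩
    have h2 : (G.card : ℝ) ≤ (G.filter (fun p => hom f n p.1 p.2 ≠ 0)).card + n := by
      have : G.card ≤ (G.filter (fun p => hom f n p.1 p.2 ≠ 0)).card + n := by omega
      exact_mod_cast this
    have h3 := good_many l q N M a ρ hl hq
    have h4 : B ^ 2 / (64 * l * q) ≤ 3 / 4 * ((M : ℝ) * ((N : ℝ) / q)) := by
      calc B ^ 2 / (64 * l * q) = 3 / 4 * (B / (24 * l) * (B / 2 / q)) := by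
            field_simp
            norm_num
        _ ≤ _ := by gcongr
    have hNq : (N : ℝ) / q ≤ B := by
      rw [div_le_iff₀ hq0]
      nlinarith
    have hN1 : (1 : ℝ) ≤ N := by linarith
    have hlog : Real.log N ≤ Real.log B := Real.log_le_log (by linarith) hNB
    have hlog0 : 0 ≤ Real.log N := Real.log_nonneg hN1
    have h5 : (M : ℝ) + ((M : ℝ) + N / q) * (1 + Real.log N) + N ≤ B * (4 + 2 * Real.log B) := by
      have h6 : ((M : ℝ) + N / q) * (1 + Real.log N) ≤ (B + B) * (1 + Real.log B) := by gcongr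
      nlinarith
    have h6 := hev B hBB1
    have h7 : B ^ (1 - κ) * B ^ κ = B := by
      rw [← Real.rpow_add hBpos, sub_add_cancel, Real.rpow_one]
    have h8 : B * (4 + 2 * Real.log B) ≤ B ^ 2 / (128 * l * q) := by
      rw [le_div_iff₀ (by positivity)]
      have hlg : 0 ≤ 4 + 2 * Real.log B := by
        have := Real.log_nonneg hBone
        linarith
      calc B * (4 + 2 * Real.log B) * (128 * l * q)
          ≤ B * (4 + 2 * Real.log B) * (128 * l * (l * (A * B ^ κ))) := by gcongr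
        _ = B * (((4 + 2 * Real.log B) * K) * B ^ κ) := by rw [hK]; ring
        _ ≤ B * (B ^ (1 - κ) * B ^ κ) := by gcongr
        _ = B ^ 2 := by rw [h7]; ring
    have h9 : 1 / K * B ^ (2 - κ) ≤ B ^ 2 / (128 * l * q) := by
      have h10 : B ^ (2 - κ) * B ^ κ = B ^ 2 := by
        rw [← Real.rpow_add hBpos, sub_add_cancel]
        exact Real.rpow_natCast B 2 |>.symm ▸ by norm_num
      rw [le_div_iff₀ (by positivity)]
      calc 1 / K * B ^ (2 - κ) * (128 * l * q)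
          ≤ 1 / K * B ^ (2 - κ) * (128 * l * (l * (A * B ^ κ))) := by gcongr
        _ = (1 / K * K) * (B ^ (2 - κ) * B ^ κ) := by rw [hK]; ring
        _ = B ^ 2 := by rw [h10, one_div, inv_mul_cancel₀ hK0.ne', one_mul]
    have h11 : B ^ 2 / (64 * l * q) = 2 * (B ^ 2 / (128 * l * q)) := by
      field_simp
      norm_num
    have h12 : (n : ℝ) ≤ 1 / (2 * K) * B ^ (2 - κ) := by
      have e1 : B ≤ B ^ (2 - κ) := by
        calc B = B ^ (1 : ℝ) := (Real.rpow_one B).symm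
          _ ≤ _ := Real.rpow_le_rpow_of_exponent_le hBone (by linarith)
      have e2 : (n : ℝ) * (2 * K) ≤ B := by linarith
      rw [one_div, inv_mul_eq_div, le_div_iff₀ (by positivity)]
      linarith
    have h13 : 1 / K * B ^ (2 - κ) = 2 * (1 / (2 * K) * B ^ (2 - κ)) := by
      field_simp
    rw [hGc] at h2
    linarith

end Pool.Agent.H775.SZ
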