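import Pool.Agent.H775.SZ.Up2

/-!
# Products of forms of degree at most two
-/

set_option autoImplicit false

namespace Pool.Agent.H775.SZ

open Finset Polynomial Pool.Agent.W4.CF Pool.Agent.W4.VC Pool.Agent.TH498.KB

theorem lpr_prod (r : ℕ) : ∀ (f : Fin r → ℤ[X]) (d : Fin r → ℕ),
    (∀ i, (f i).natDegree ≤ d i ∧ d i ≤ 2) → Sqf (∏ i, f i) (∑ i, d i) →
    LPr (∏ i, f i) (∑ i, d i) := by
  induction r with
  | zero =>
    intro f d hd hs
    exact lpr_small _ _ (by simp)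
  | succ r ih =>
    intro f d hd hs
    have hdeg : (∏ i : Fin r, f i.succ).natDegree ≤ ∑ i : Fin r, d i.succ := by
      refine (natDegree_prod_le _ _).trans (sum_le_sum fun i _ => ?_)
      exact (hd i.succ).1
    rw [Fin.prod_univ_succ, Fin.sum_univ_succ] at hs ⊢
    obtain ⟨h1, h2, -⟩ := Pool.Agent.W290.VC.t_RES _ _ _ _ (hd 0).1 hdeg hs
    exact lpr_mul _ _ _ _ (hd 0).1 hdeg hs (lpr_small _ _ (hd 0).2)
      (ih (fun i => f i.succ) (fun i => d i.succ) (fun i => hd i.succ) h2)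

end Pool.Agent.H775.SZ
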