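import Pool.Agent.H775.SZ.Curve

/-!
# The conductor of a member of a family
-/

set_option autoImplicit false

namespace Pool.Agent.H775.SZ

open Finset Polynomial Pool.Agent.W4.CF Pool.Agent.W4.VC Pool.Agent.TH498.KB

/-- the primes of the discriminant -/
theorem prime_disc (D E : ℤ[X]) (k n : ℕ) (t0 c0 : ℤ) (hD : D.natDegree ≤ 12 * k)
    (hE : E.natDegree ≤ 2 * k) (hdvd : D ∣ C c0 * ((X - C t0) * E) ^ n) (a b : ℤ) (hb : b ≠ 0)
    (l : ℕ) (hl : l.Prime) (h : (l : ℤ) ∣ hom D (12 * k) a b) :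
    (l : ℤ) ∣ c0 ∨ (l : ℤ) ∣ a - t0 * b ∨ (l : ℤ) ∣ b ∨ (l : ℤ) ∣ hom E (2 * k) a b := by
  obtain ⟨G, hG⟩ := hdvd
  have hbQ : (b : ℚ) ≠ 0 := by exact_mod_cast hb
  set x : ℚ := (a : ℚ) / b with hx
  have e1 := hom_eval D (12 * k) hD a b hbQ
  have e2 := hom_eval E (2 * k) hE a b hbQ
  have e3 := hom_eval G G.natDegree le_rfl a b hbQ
  have hmap := congrArg (fun f : ℤ[X] => (f.map (Int.castRingHom ℚ)).eval x) hG
  simp only [Polynomial.map_mul, Polynomial.map_sub, Polynomial.map_pow, eval_mul, eval_sub,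
    eval_pow, map_X, eval_X, eq_intCast, Polynomial.map_intCast, eval_intCast] at hmap
  have hax : (a : ℚ) = x * b := by rw [hx]; field_simp
  have key : (((hom D (12 * k) a b * hom G G.natDegree a b * b ^ (n * (2 * k + 1)) : ℤ)) : ℚ) =
      ((b ^ (12 * k + G.natDegree) * c0 * ((a - t0 * b) * hom E (2 * k) a b) ^ n : ℤ) : ℚ) := by
    push_cast
    rw [e1, e2, e3]
    rw [← hx]
    calc (b : ℚ) ^ (12 * k) * eval x (D.map (Int.castRingHom ℚ)) *
          ((b : ℚ) ^ G.natDegree * eval x (G.map (Int.castRingHom ℚ))) * (b : ℚ) ^ (n * (2 * k + 1))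
          = (b : ℚ) ^ (12 * k) * (b : ℚ) ^ G.natDegree * (b : ℚ) ^ (n * (2 * k + 1)) *
            (eval x (D.map (Int.castRingHom ℚ)) * eval x (G.map (Int.castRingHom ℚ))) := by ring
      _ = (b : ℚ) ^ (12 * k) * (b : ℚ) ^ G.natDegree * (b : ℚ) ^ (n * (2 * k + 1)) *
            ((c0 : ℚ) * ((x - t0) * eval x (E.map (Int.castRingHom ℚ))) ^ n) := by rw [← hmap]
      _ = (b : ℚ) ^ (12 * k + G.natDegree) * c0 * (((b : ℚ) ^ (2 * k + 1)) ^ n *
            ((x - t0) * eval x (E.map (Int.castRingHom ℚ))) ^ n) := by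
          rw [pow_add, ← pow_mul, mul_comm (2 * k + 1) n]; ring
      _ = (b : ℚ) ^ (12 * k + G.natDegree) * c0 *
            (((a : ℚ) - t0 * b) * ((b : ℚ) ^ (2 * k) * eval x (E.map (Int.castRingHom ℚ)))) ^ n := by
          rw [← mul_pow, hax]; congr 2; ring
  have keyZ : hom D (12 * k) a b * hom G G.natDegree a b * b ^ (n * (2 * k + 1)) =
      b ^ (12 * k + G.natDegree) * c0 * ((a - t0 * b) * hom E (2 * k) a b) ^ n := by
    exact_mod_cast key
  have hlZ : Prime (l : ℤ) := Nat.prime_iff_prime_int.mp hl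
  have h1 : (l : ℤ) ∣ b ^ (12 * k + G.natDegree) * c0 * ((a - t0 * b) * hom E (2 * k) a b) ^ n := by
    rw [← keyZ]
    exact Dvd.dvd.mul_right (Dvd.dvd.mul_right h _) _
  rcases hlZ.dvd_or_dvd h1 with h2 | h2
  · rcases hlZ.dvd_or_dvd h2 with h3 | h3
    · exact Or.inr (Or.inr (Or.inl (hlZ.dvd_of_dvd_pow h3)))
    · exact Or.inl h3
  · rcases hlZ.dvd_or_dvd (hlZ.dvd_of_dvd_pow h2) with h3 | h3
    · exact Or.inr (Or.inl h3)
    · exact Or.inr (Or.inr (Or.inr h3))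

theorem cond_le (D E : ℤ[X]) (k n : ℕ) (t0 c0 : ℤ) (hc0 : c0 ≠ 0) (hD : D.natDegree ≤ 12 * k)
    (hE : E.natDegree ≤ 2 * k) (hdvd : D ∣ C c0 * ((X - C t0) * E) ^ n) (p q : ℕ) (hp : 0 < p)
    (hq : 0 < q) (hEh : hom E (2 * k) ((p : ℤ) + t0 * q) q ≠ 0)
    (M : ℕ) (hM : 1 ≤ M) (A B : ℤ) (hAB : ∀ d : ℤ, d ∣ A → d ∣ B → d ∣ M)
    (W : WeierstrassCurve ℤ) (r s : ℤ) (hr0 : r ≠ 0) (hr : |r| ≤ 6)
    (h4 : 27 * W.c₄ * s ^ 4 = r ^ 4 * A) (h6 : 54 * W.c₆ * s ^ 6 = r ^ 6 * B)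
    (hΔ : W.Δ * s ^ 12 = r ^ 12 * hom D (12 * k) ((p : ℤ) + t0 * q) q) :
    Pool.Agent.H39R3.condW W ≤ 25 * M ^ 2 * c0.natAbs * (rd p * rd q) *
      (hom E (2 * k) ((p : ℤ) + t0 * q) q).natAbs := by
  classical
  set e : ℕ := (hom E (2 * k) ((p : ℤ) + t0 * q) q).natAbs with he
  have he0 : e ≠ 0 := Int.natAbs_ne_zero.mpr hEh
  have hc0' : c0.natAbs ≠ 0 := Int.natAbs_ne_zero.mpr hc0
  set Q : ℕ := 5 * M * (c0.natAbs * (p * (q * e))) with hQ
  have hM0 : 5 * M ≠ 0 := by omega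
  have hQ0 : Q ≠ 0 := by
    rw [hQ]
    exact mul_ne_zero hM0 (mul_ne_zero hc0' (mul_ne_zero hp.ne' (mul_ne_zero hq.ne' he0)))
  set P := W.Δ.natAbs.primeFactors.filter (fun l => 5 ≤ l) with hP
  have five : ∀ l : ℕ, l.Prime → 5 ≤ l → (l : ℤ) ∣ r → l ∣ 5 * M := by
    intro l hl h5 hlr
    have h1 : (l : ℤ) ≤ |r| := Int.le_of_dvd (abs_pos.mpr hr0) ((dvd_abs _ _).mpr hlr)
    have h2 : l ≤ 6 := by
      have := h1.trans hr
      exact_mod_cast this
    interval_cases l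
    · exact Dvd.intro _ rfl
    · norm_num at hl
  have hmem : ∀ l ∈ P, l.Prime ∧ 5 ≤ l ∧ (l : ℤ) ∣ W.Δ := by
    intro l hl
    obtain ⟨h1, h2⟩ := mem_filter.mp hl
    exact ⟨Nat.prime_of_mem_primeFactors h1, h2, Int.natCast_dvd.mpr (Nat.dvd_of_mem_primeFactors h1)⟩
  have hsub : P ⊆ Q.primeFactors := by
    intro l hl
    obtain ⟨hlp, h5, hlΔ⟩ := hmem l hl
    have hlZ : Prime (l : ℤ) := Nat.prime_iff_prime_int.mp hlp
    refine Nat.mem_primeFactors.mpr ⟨hlp, ?_, hQ0⟩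
    have h1 : (l : ℤ) ∣ r ^ 12 * hom D (12 * k) ((p : ℤ) + t0 * q) q := by
      rw [← hΔ]
      exact Dvd.dvd.mul_right hlΔ _
    rcases hlZ.dvd_or_dvd h1 with h2 | h2
    · exact Dvd.dvd.mul_right (five l hlp h5 (hlZ.dvd_of_dvd_pow h2)) _
    · refine Dvd.dvd.mul_left ?_ _
      rcases prime_disc D E k n t0 c0 hD hE hdvd _ _ (by exact_mod_cast hq.ne') l hlp h2 with
        h3 | h3 | h3 | h3
      · exact Dvd.dvd.mul_right (Int.natCast_dvd.mp h3) _
      · refine Dvd.dvd.mul_left (Dvd.dvd.mul_right ?_ _) _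
        have e1 : (p : ℤ) + t0 * q - t0 * q = p := by ring
        rw [e1] at h3
        exact_mod_cast h3
      · refine Dvd.dvd.mul_left (Dvd.dvd.mul_left (Dvd.dvd.mul_right ?_ _) _) _
        exact_mod_cast h3
      · exact Dvd.dvd.mul_left (Dvd.dvd.mul_left (Dvd.dvd.mul_left (Int.natCast_dvd.mp h3) _) _) _
  have hterm : ∀ l ∈ P, (if (l : ℤ) ∣ W.c₄ then l ^ 2 else l) ≤ (if l ∣ 5 * M then l else 1) * l := by
    intro l hl
    obtain ⟨hlp, h5, hlΔ⟩ := hmem l hl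
    have hlZ : Prime (l : ℤ) := Nat.prime_iff_prime_int.mp hlp
    by_cases hc : (l : ℤ) ∣ W.c₄
    · have hc6 : (l : ℤ) ∣ W.c₆ := by
        have h1 : W.c₆ ^ 2 = W.c₄ ^ 3 - 1728 * W.Δ := by
          have := W.c_relation
          linarith
        refine hlZ.dvd_of_dvd_pow (n := 2) ?_
        rw [h1]
        exact dvd_sub (Dvd.dvd.pow hc (by norm_num)) (Dvd.dvd.mul_left hlΔ _)
      have hdiv : l ∣ 5 * M := by
        by_cases hlr : (l : ℤ) ∣ r
        · exact five l hlp h5 hlr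
        · have k1 : (l : ℤ) ∣ A := by
            have : (l : ℤ) ∣ r ^ 4 * A := by
              rw [← h4]
              exact Dvd.dvd.mul_right (Dvd.dvd.mul_left hc _) _
            rcases hlZ.dvd_or_dvd this with h | h
            · exact absurd (hlZ.dvd_of_dvd_pow h) hlr
            · exact h
          have k2 : (l : ℤ) ∣ B := by
            have : (l : ℤ) ∣ r ^ 6 * B := by
              rw [← h6]
              exact Dvd.dvd.mul_right (Dvd.dvd.mul_left hc6 _) _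
            rcases hlZ.dvd_or_dvd this with h | h
            · exact absurd (hlZ.dvd_of_dvd_pow h) hlr
            · exact h
          have k3 := hAB _ k1 k2
          exact Dvd.dvd.mul_left (by exact_mod_cast k3) 5
      rw [if_pos hc, if_pos hdiv, pow_two]
    · rw [if_neg hc]
      split_ifs
      · exact Nat.le_mul_of_pos_left _ hlp.pos
      · omega
  have hone : ∀ l ∈ (5 * M).primeFactors, 1 ≤ l := fun l hl =>
    (Nat.prime_of_mem_primeFactors hl).one_le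
  have hprod1 : ∏ l ∈ P, (if l ∣ 5 * M then l else 1) ≤ 5 * M := by
    rw [← Finset.prod_filter]
    refine le_trans ?_ (rd_le hM0)
    unfold rd
    refine Finset.prod_le_prod_of_subset_of_one_le' ?_ (fun i hi _ => hone i hi)
    intro l hl
    obtain ⟨h1, h2⟩ := mem_filter.mp hl
    exact Nat.mem_primeFactors.mpr ⟨(hmem l h1).1, h2, hM0⟩
  have hprod2 : ∏ l ∈ P, l ≤ 5 * M * (c0.natAbs * (rd p * (rd q * e))) := by
    have s1 : ∏ l ∈ P, l ≤ rd Q := Finset.prod_le_prod_of_subset_of_one_le' hsub fun i hi _ =>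
      (Nat.prime_of_mem_primeFactors hi).one_le
    refine s1.trans ?_
    rw [hQ]
    have n1 : q * e ≠ 0 := mul_ne_zero hq.ne' he0
    have n2 : p * (q * e) ≠ 0 := mul_ne_zero hp.ne' n1
    have n3 : c0.natAbs * (p * (q * e)) ≠ 0 := mul_ne_zero hc0' n2
    calc rd (5 * M * (c0.natAbs * (p * (q * e)))) ≤
          rd (5 * M) * rd (c0.natAbs * (p * (q * e))) := rd_mul_le hM0 n3
      _ ≤ (5 * M) * (rd c0.natAbs * rd (p * (q * e))) :=
          Nat.mul_le_mul (rd_le hM0) (rd_mul_le hc0' n2)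
      _ ≤ (5 * M) * (c0.natAbs * (rd p * rd (q * e))) :=
          Nat.mul_le_mul_left _ (Nat.mul_le_mul (rd_le hc0') (rd_mul_le hp.ne' n1))
      _ ≤ (5 * M) * (c0.natAbs * (rd p * (rd q * rd e))) :=
          Nat.mul_le_mul_left _ (Nat.mul_le_mul_left _ (Nat.mul_le_mul_left _
            (rd_mul_le hq.ne' he0)))
      _ ≤ (5 * M) * (c0.natAbs * (rd p * (rd q * e))) :=
          Nat.mul_le_mul_left _ (Nat.mul_le_mul_left _ (Nat.mul_le_mul_left _
            (Nat.mul_le_mul_left _ (rd_le he0))))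
  calc Pool.Agent.H39R3.condW W = ∏ l ∈ P, (if (l : ℤ) ∣ W.c₄ then l ^ 2 else l) := rfl
    _ ≤ ∏ l ∈ P, ((if l ∣ 5 * M then l else 1) * l) := Finset.prod_le_prod' hterm
    _ = (∏ l ∈ P, (if l ∣ 5 * M then l else 1)) * ∏ l ∈ P, l := Finset.prod_mul_distrib
    _ ≤ (5 * M) * (5 * M * (c0.natAbs * (rd p * (rd q * e)))) := Nat.mul_le_mul hprod1 hprod2
    _ = _ := by ring

end Pool.Agent.H775.SZ
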