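import Pool.Agent.H775.SZ.Forms

/-!
# Global minimal equations of the members of a family
-/

set_option autoImplicit false

namespace Pool.Agent.H775.SZ

open Finset Polynomial Pool.Agent.W4.CF Pool.Agent.W4.VC Pool.Agent.TH498.KB

/-- a global minimal equation exists -/
theorem exists_min (V : WeierstrassCurve ℚ) (hV : V.Δ ≠ 0) (W0 : WeierstrassCurve ℤ)
    (h0 : ∃ C : WeierstrassCurve.VariableChange ℚ, C • V = W0.map (Int.castRingHom ℚ)) :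
    ∃ W : WeierstrassCurve ℤ, Pool.Agent.H39R3.GMin W ∧
      ∃ C : WeierstrassCurve.VariableChange ℚ, C • V = W.map (Int.castRingHom ℚ) := by
  classical
  have hex : ∃ n : ℕ, ∃ W : WeierstrassCurve ℤ, (∃ C : WeierstrassCurve.VariableChange ℚ,
      C • V = W.map (Int.castRingHom ℚ)) ∧ W.Δ.natAbs = n := ⟨_, W0, h0, rfl⟩
  obtain ⟨W, ⟨C, hC⟩, hn⟩ := Nat.find_spec hex
  refine ⟨W, ⟨?_, ?_⟩, C, hC⟩
  · intro h
    have h1 := congrArg WeierstrassCurve.Δ hC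
    rw [WeierstrassCurve.variableChange_Δ, WeierstrassCurve.map_Δ, h, map_zero] at h1
    rcases mul_eq_zero.mp h1 with h2 | h2
    · exact pow_ne_zero _ (Units.ne_zero _) h2
    · exact hV h2
  · rintro W' ⟨C', hC'⟩
    have h2 := Nat.find_min' hex (m := W'.Δ.natAbs) ⟨W', ⟨C' * C, by rw [mul_smul, hC, hC']⟩, rfl⟩
    rw [← hn] at h2
    rw [Int.abs_eq_natAbs, Int.abs_eq_natAbs]
    exact_mod_cast h2

/-- the integral model of a member -/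
theorem model (a1 a2 a3 : ℤ[X]) (k : ℕ) (h1 : a1.natDegree ≤ k) (h2 : a2.natDegree ≤ 2 * k)
    (h3 : a3.natDegree ≤ 3 * k) (a b : ℤ) (hb : (b : ℚ) ≠ 0) :
    ∃ C : WeierstrassCurve.VariableChange ℚ, C • crv a1 a2 a3 ((a : ℚ) / b) =
      (⟨hom a1 k a b, hom a2 (2 * k) a b, hom a3 (3 * k) a b, 0, 0⟩ : WeierstrassCurve ℤ).map
        (Int.castRingHom ℚ) := by
  have e1 := hom_eval a1 k h1 a b hb
  have e2 := hom_eval a2 (2 * k) h2 a b hb
  have e3 := hom_eval a3 (3 * k) h3 a b hb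
  have hbk : ((b : ℚ) ^ k)⁻¹ ≠ 0 := inv_ne_zero (pow_ne_zero _ hb)
  refine ⟨⟨Units.mk0 (((b : ℚ) ^ k)⁻¹) hbk, 0, 0, 0⟩, ?_⟩
  ext
  · rw [WeierstrassCurve.variableChange_a₁, WeierstrassCurve.map_a₁]
    simp only [crv, eq_intCast, e1, mul_zero, add_zero, Units.val_inv_eq_inv_val,
      Units.val_mk0, inv_inv]
  · rw [WeierstrassCurve.variableChange_a₂, WeierstrassCurve.map_a₂]
    simp only [crv, eq_intCast, e2, mul_zero, zero_mul, add_zero, sub_zero, Units.val_inv_eq_inv_val,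
      Units.val_mk0, inv_inv]
    ring
  · rw [WeierstrassCurve.variableChange_a₃, WeierstrassCurve.map_a₃]
    simp only [crv, eq_intCast, e3, mul_zero, zero_mul, add_zero, Units.val_inv_eq_inv_val,
      Units.val_mk0, inv_inv]
    ring
  · rw [WeierstrassCurve.variableChange_a₄, WeierstrassCurve.map_a₄]
    simp [crv]
  · rw [WeierstrassCurve.variableChange_a₆, WeierstrassCurve.map_a₆]
    simp [crv]

theorem natDegree_nat_mul (m : ℕ) (p : ℤ[X]) (hm : m ≠ 0) :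
    ((m : ℤ[X]) * p).natDegree = p.natDegree := by
  rw [← Polynomial.C_eq_natCast]
  exact natDegree_C_mul (by exact_mod_cast hm)

theorem eval27 (p : ℤ[X]) (t : ℚ) : ((27 * p).map (Int.castRingHom ℚ)).eval t =
    27 * (p.map (Int.castRingHom ℚ)).eval t := by
  simp only [Polynomial.map_mul, Polynomial.map_ofNat, eval_mul, eval_ofNat]

theorem eval54 (p : ℤ[X]) (t : ℚ) : ((54 * p).map (Int.castRingHom ℚ)).eval t =
    54 * (p.map (Int.castRingHom ℚ)).eval t := by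
  simp only [Polynomial.map_mul, Polynomial.map_ofNat, eval_mul, eval_ofNat]

/-- the invariants of a model of a member -/
theorem rel (a1 a2 a3 : ℤ[X]) (k : ℕ) (hA : (27 * c4p a1 a2 a3).natDegree ≤ 4 * k)
    (hB : (54 * c6p a1 a2 a3).natDegree ≤ 6 * k) (a b : ℤ) (hb : (b : ℚ) ≠ 0)
    (W : WeierstrassCurve ℤ) (C : WeierstrassCurve.VariableChange ℚ)
    (h : C • crv a1 a2 a3 ((a : ℚ) / b) = W.map (Int.castRingHom ℚ)) :
    ∃ v : ℚ, v ≠ 0 ∧ ((27 * W.c₄ : ℤ) : ℚ) = v ^ 4 * ((hom (27 * c4p a1 a2 a3) (4 * k) a b : ℤ) : ℚ)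
      ∧ ((54 * W.c₆ : ℤ) : ℚ) = v ^ 6 * ((hom (54 * c6p a1 a2 a3) (6 * k) a b : ℤ) : ℚ) := by
  have h4 := congrArg WeierstrassCurve.c₄ h
  have h6 := congrArg WeierstrassCurve.c₆ h
  rw [WeierstrassCurve.variableChange_c₄, WeierstrassCurve.map_c₄, crv_c4, eq_intCast] at h4
  rw [WeierstrassCurve.variableChange_c₆, WeierstrassCurve.map_c₆, crv_c6, eq_intCast] at h6
  have hA' := hom_eval _ (4 * k) hA a b hb
  have hB' := hom_eval _ (6 * k) hB a b hb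
  rw [eval27] at hA'
  rw [eval54] at hB'
  have hbk : (b : ℚ) ^ k ≠ 0 := pow_ne_zero _ hb
  have hu : ((C.u⁻¹ : ℚˣ) : ℚ) ≠ 0 := Units.ne_zero _
  generalize ((C.u⁻¹ : ℚˣ) : ℚ) = z at h4 h6 hu
  refine ⟨z / (b : ℚ) ^ k, div_ne_zero hu hbk, ?_, ?_⟩
  · rw [hA']
    push_cast
    rw [← h4, div_pow, ← pow_mul, mul_comm k 4]
    have : (b : ℚ) ^ (4 * k) ≠ 0 := pow_ne_zero _ hb
    field_simp
  · rw [hB']
    push_cast
    rw [← h6, div_pow, ← pow_mul, mul_comm k 6]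
    have : (b : ℚ) ^ (6 * k) ≠ 0 := pow_ne_zero _ hb
    field_simp

theorem numden (x y P Q : ℤ) (v : ℚ) (hx : (x : ℚ) = v ^ 4 * (P : ℚ))
    (hy : (y : ℚ) = v ^ 6 * (Q : ℚ)) :
    x * (v.den : ℤ) ^ 4 = v.num ^ 4 * P ∧ y * (v.den : ℤ) ^ 6 = v.num ^ 6 * Q ∧
      (v.den : ℤ) ^ 4 ∣ P ∧ (v.den : ℤ) ^ 6 ∣ Q ∧ v.num ^ 4 ∣ x ∧ v.num ^ 6 ∣ y := by
  have hvd : (v.den : ℚ) ≠ 0 := by exact_mod_cast v.den_nz
  have ha3 : x * (v.den : ℤ) ^ 4 = v.num ^ 4 * P := by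
    have : ((x * (v.den : ℤ) ^ 4 : ℤ) : ℚ) = ((v.num ^ 4 * P : ℤ) : ℚ) := by
      push_cast
      rw [hx]
      nth_rewrite 1 [← Rat.num_div_den v]
      field_simp
    exact_mod_cast this
  have hb3 : y * (v.den : ℤ) ^ 6 = v.num ^ 6 * Q := by
    have : ((y * (v.den : ℤ) ^ 6 : ℤ) : ℚ) = ((v.num ^ 6 * Q : ℤ) : ℚ) := by
      push_cast
      rw [hy]
      nth_rewrite 1 [← Rat.num_div_den v]
      field_simp
    exact_mod_cast this
  have hcv : IsCoprime v.num (v.den : ℤ) := by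
    rw [Int.isCoprime_iff_gcd_eq_one]
    exact v.reduced
  refine ⟨ha3, hb3, ?_, ?_, ?_, ?_⟩
  · exact (IsCoprime.pow hcv.symm).dvd_of_dvd_mul_left (ha3 ▸ Dvd.intro_left _ rfl)
  · exact (IsCoprime.pow hcv.symm).dvd_of_dvd_mul_left (hb3 ▸ Dvd.intro_left _ rfl)
  · exact (IsCoprime.pow hcv).dvd_of_dvd_mul_right (by rw [ha3]; exact Dvd.intro _ rfl)
  · exact (IsCoprime.pow hcv).dvd_of_dvd_mul_right (by rw [hb3]; exact Dvd.intro _ rfl)

theorem Dp_deg (a1 a2 a3 : ℤ[X]) (k : ℕ) (hA : (27 * c4p a1 a2 a3).natDegree ≤ 4 * k)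
    (hB : (54 * c6p a1 a2 a3).natDegree ≤ 6 * k) : (Dp a1 a2 a3).natDegree ≤ 12 * k := by
  have h1 := natDegree_nat_mul 136048896 (Dp a1 a2 a3) (by norm_num)
  push_cast at h1
  rw [← h1, ← disc_id]
  have h4 := natDegree_nat_mul 4 ((27 * c4p a1 a2 a3) ^ 3) (by norm_num)
  have h27 := natDegree_nat_mul 27 ((54 * c6p a1 a2 a3) ^ 2) (by norm_num)
  push_cast at h4 h27
  refine (natDegree_sub_le _ _).trans (max_le ?_ ?_)
  · rw [h4]
    exact natDegree_pow_le.trans (by omega)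
  · rw [h27]
    exact natDegree_pow_le.trans (by omega)

theorem disc_hom (a1 a2 a3 : ℤ[X]) (k : ℕ) (hA : (27 * c4p a1 a2 a3).natDegree ≤ 4 * k)
    (hB : (54 * c6p a1 a2 a3).natDegree ≤ 6 * k) (a b : ℤ) (hb : (b : ℚ) ≠ 0) :
    4 * hom (27 * c4p a1 a2 a3) (4 * k) a b ^ 3 - 27 * hom (54 * c6p a1 a2 a3) (6 * k) a b ^ 2 =
      136048896 * hom (Dp a1 a2 a3) (12 * k) a b := by
  have hD := Dp_deg a1 a2 a3 k hA hB
  have e1 := hom_eval _ (4 * k) hA a b hb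
  have e2 := hom_eval _ (6 * k) hB a b hb
  have e3 := hom_eval _ (12 * k) hD a b hb
  have hmap := congrArg (fun f : ℤ[X] => (f.map (Int.castRingHom ℚ)).eval ((a : ℚ) / b))
    (disc_id a1 a2 a3)
  simp only [Polynomial.map_mul, Polynomial.map_sub, Polynomial.map_pow, eval_mul, eval_sub,
    eval_pow, Polynomial.map_ofNat, eval_ofNat] at hmap
  rw [eval27] at e1
  rw [eval54] at e2
  have : ((4 * hom (27 * c4p a1 a2 a3) (4 * k) a b ^ 3 -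
      27 * hom (54 * c6p a1 a2 a3) (6 * k) a b ^ 2 : ℤ) : ℚ) =
      ((136048896 * hom (Dp a1 a2 a3) (12 * k) a b : ℤ) : ℚ) := by
    push_cast
    rw [e1, e2, e3]
    set x := (a : ℚ) / b
    have e6 : (b : ℚ) ^ (12 * k) = ((b : ℚ) ^ (4 * k)) ^ 3 := by
      rw [← pow_mul]; congr 1; ring
    have e7 : (b : ℚ) ^ (12 * k) = ((b : ℚ) ^ (6 * k)) ^ 2 := by
      rw [← pow_mul]; congr 1; ring
    calc 4 * ((b : ℚ) ^ (4 * k) * (27 * eval x ((c4p a1 a2 a3).map (Int.castRingHom ℚ)))) ^ 3 -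
          27 * ((b : ℚ) ^ (6 * k) * (54 * eval x ((c6p a1 a2 a3).map (Int.castRingHom ℚ)))) ^ 2 =
          ((b : ℚ) ^ (4 * k)) ^ 3 * (4 * (27 * eval x ((c4p a1 a2 a3).map
            (Int.castRingHom ℚ))) ^ 3) - ((b : ℚ) ^ (6 * k)) ^ 2 * (27 * (54 * eval x
            ((c6p a1 a2 a3).map (Int.castRingHom ℚ))) ^ 2) := by ring
      _ = (b : ℚ) ^ (12 * k) * (4 * (27 * eval x ((c4p a1 a2 a3).map (Int.castRingHom ℚ))) ^ 3 -
          27 * (54 * eval x ((c6p a1 a2 a3).map (Int.castRingHom ℚ))) ^ 2) := by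
          rw [← e6, ← e7]; ring
      _ = _ := by rw [hmap]; ring
  exact_mod_cast this

/-- **Members.** -/
theorem curve_ex (a1 a2 a3 : ℤ[X]) (k w L : ℕ)
    (hF : Fam (27 * c4p a1 a2 a3) (54 * c6p a1 a2 a3) k w L) (h1 : a1.natDegree ≤ k)
    (h2 : a2.natDegree ≤ 2 * k) (h3 : a3.natDegree ≤ 3 * k) :
    ∃ M : ℕ, 1 ≤ M ∧ ∀ a b : ℤ, IsCoprime a b → b ≠ 0 → hom (Dp a1 a2 a3) (12 * k) a b ≠ 0 →
      (∀ d : ℤ, d ∣ hom (27 * c4p a1 a2 a3) (4 * k) a b →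
        d ∣ hom (54 * c6p a1 a2 a3) (6 * k) a b → d ∣ M) ∧
      ∃ W : WeierstrassCurve ℤ, Pool.Agent.H39R3.GMin W ∧
      (∃ C : WeierstrassCurve.VariableChange ℚ,
        C • crv a1 a2 a3 ((a : ℚ) / b) = W.map (Int.castRingHom ℚ)) ∧
      ∃ r s : ℤ, r ≠ 0 ∧ |r| ≤ 6 ∧ 1 ≤ s ∧ s ≤ M ∧
        27 * W.c₄ * s ^ 4 = r ^ 4 * hom (27 * c4p a1 a2 a3) (4 * k) a b ∧
        54 * W.c₆ * s ^ 6 = r ^ 6 * hom (54 * c6p a1 a2 a3) (6 * k) a b ∧
        W.Δ * s ^ 12 = r ^ 12 * hom (Dp a1 a2 a3) (12 * k) a b := by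
  obtain ⟨hk, hA, hB, hlead, hcop, -, -, -⟩ := hF
  obtain ⟨M, Kb, hM, hKb, hbez⟩ := bez2 _ _ k hk hA hB hlead hcop
  refine ⟨M, hM, fun a b hab hb hD => ?_⟩
  have hbQ : (b : ℚ) ≠ 0 := by exact_mod_cast hb
  obtain ⟨hb1, -⟩ := hbez a b hab
  refine ⟨hb1, ?_⟩
  set W0 : WeierstrassCurve ℤ := ⟨hom a1 k a b, hom a2 (2 * k) a b, hom a3 (3 * k) a b, 0, 0⟩
    with hW0
  obtain ⟨C0, hC0⟩ := model a1 a2 a3 k h1 h2 h3 a b hbQ
  rw [← hW0] at hC0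
  -- the discriminant of the member does not vanish
  have hDQ : (crv a1 a2 a3 ((a : ℚ) / b)).Δ ≠ 0 := by
    intro h0
    have e1 := (crv a1 a2 a3 ((a : ℚ) / b)).c_relation
    rw [h0, crv_c4, crv_c6] at e1
    have hmap := congrArg (fun f : ℤ[X] => (f.map (Int.castRingHom ℚ)).eval ((a : ℚ) / b))
      (c_id a1 a2 a3)
    simp only [Polynomial.map_mul, Polynomial.map_sub, Polynomial.map_pow, eval_mul, eval_sub,
      eval_pow, Polynomial.map_ofNat, eval_ofNat] at hmap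
    rw [← e1, mul_zero] at hmap
    have e2 : eval ((a : ℚ) / b) ((Dp a1 a2 a3).map (Int.castRingHom ℚ)) = 0 := by linarith
    have e3 := hom_eval _ (12 * k) (Dp_deg a1 a2 a3 k hA hB) a b hbQ
    rw [e2, mul_zero] at e3
    exact hD (by exact_mod_cast e3)
  obtain ⟨W, hW, C, hC⟩ := exists_min _ hDQ W0 ⟨C0, hC0⟩
  refine ⟨W, hW, ⟨C, hC⟩, ?_⟩
  obtain ⟨v, hv, hv4, hv6⟩ := rel a1 a2 a3 k hA hB a b hbQ W C hC
  obtain ⟨n1, n2, n3, n4, n5, n6⟩ := numden _ _ _ _ v hv4 hv6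
  have hden : (v.den : ℤ) ∣ M := by
    refine hb1 _ ?_ ?_
    · exact (dvd_pow_self _ (by norm_num)).trans n3
    · exact (dvd_pow_self _ (by norm_num)).trans n4
  have hs1 : (1 : ℤ) ≤ (v.den : ℤ) := by
    have := v.den_pos
    exact_mod_cast this
  refine ⟨v.num, v.den, Rat.num_ne_zero.mpr hv, ?_, hs1, ?_, n1, n2, ?_⟩
  · exact_mod_cast prim_of_gmin W hW v.num n5 n6
  · exact Int.le_of_dvd (by exact_mod_cast hM) hden
  · have e1 := disc_hom a1 a2 a3 k hA hB a b hbQ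
    have e2 : (4 * (27 * W.c₄) ^ 3 - 27 * (54 * W.c₆) ^ 2 : ℤ) = 136048896 * W.Δ := by
      have := W.c_relation
      linear_combination (-78732) * this
    have e3 : (136048896 : ℤ) * (W.Δ * (v.den : ℤ) ^ 12) =
        136048896 * (v.num ^ 12 * hom (Dp a1 a2 a3) (12 * k) a b) := by
      calc (136048896 : ℤ) * (W.Δ * (v.den : ℤ) ^ 12) =
            (136048896 * W.Δ) * (v.den : ℤ) ^ 12 := by ring
        _ = 4 * (27 * W.c₄ * (v.den : ℤ) ^ 4) ^ 3 - 27 * (54 * W.c₆ * (v.den : ℤ) ^ 6) ^ 2 := by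
            rw [← e2]; ring
        _ = 4 * (v.num ^ 4 * hom (27 * c4p a1 a2 a3) (4 * k) a b) ^ 3 -
            27 * (v.num ^ 6 * hom (54 * c6p a1 a2 a3) (6 * k) a b) ^ 2 := by rw [n1, n2]
        _ = v.num ^ 12 * (136048896 * hom (Dp a1 a2 a3) (12 * k) a b) := by rw [← e1]; ring
        _ = _ := by ring
    exact mul_left_cancel₀ (by norm_num) e3

end Pool.Agent.H775.SZ
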