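import Pool.Agent.H775.SZ.Cond

/-!
# Many members of a family violate Szpiro's inequality with an exponent below six
-/

set_option autoImplicit false

namespace Pool.Agent.H775.SZ

open Finset Polynomial Pool.Agent.W4.CF Pool.Agent.W4.VC Pool.Agent.TH498.KB

theorem phi_ne (A B : ℚ[X]) (hcop : IsCoprime A B) (hdeg : A.natDegree ≠ 0 ∨ B.natDegree ≠ 0)
    (α β : ℚ) (hαβ : α ≠ 0 ∨ β ≠ 0) : C α * A ^ 3 - C β * B ^ 2 ≠ 0 := by
  intro h0
  have h1 : C α * A ^ 3 = C β * B ^ 2 := sub_eq_zero.mp h0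
  have hc : IsCoprime (A ^ 3) (B ^ 2) := IsCoprime.pow hcop
  have dA : A ^ 3 ∣ C β := hc.dvd_of_dvd_mul_right ⟨C α, by rw [← h1]; ring⟩
  have dB : B ^ 2 ∣ C α := hc.symm.dvd_of_dvd_mul_right ⟨C β, by rw [h1]; ring⟩
  have unitA : β ≠ 0 → A.natDegree = 0 := by
    intro hβ
    have h2 := Polynomial.natDegree_le_of_dvd dA (C_ne_zero.mpr hβ)
    rw [natDegree_C, natDegree_pow] at h2
    omega
  have unitB : α ≠ 0 → B.natDegree = 0 := by
    intro hα
    have h2 := Polynomial.natDegree_le_of_dvd dB (C_ne_zero.mpr hα)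
    rw [natDegree_C, natDegree_pow] at h2
    omega
  by_cases hα : α = 0
  · have hβ : β ≠ 0 := hαβ.resolve_left (fun h => h hα)
    rw [hα, C_0, zero_mul] at h1
    have h3 : B = 0 := by
      have h4 : B ^ 2 = 0 := (mul_eq_zero.mp h1.symm).resolve_left (C_ne_zero.mpr hβ)
      exact pow_eq_zero_iff (two_ne_zero) |>.mp h4
    rcases hdeg with h | h
    · exact h (unitA hβ)
    · exact h (by rw [h3, natDegree_zero])
  · by_cases hβ : β = 0
    · rw [hβ, C_0, zero_mul] at h1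
      have h3 : A = 0 := by
        have h4 : A ^ 3 = 0 := (mul_eq_zero.mp h1).resolve_left (C_ne_zero.mpr hα)
        exact pow_eq_zero_iff (three_ne_zero) |>.mp h4
      rcases hdeg with h | h
      · exact h (by rw [h3, natDegree_zero])
      · exact h (unitB hα)
    · rcases hdeg with h | h
      · exact h (unitA hβ)
      · exact h (unitB hα)

theorem main_low (a1 a2 a3 E : ℤ[X]) (k w L n : ℕ) (t0 c0 : ℤ) (hc0 : c0 ≠ 0)
    (hF : Fam (27 * c4p a1 a2 a3) (54 * c6p a1 a2 a3) k w L) (h1 : a1.natDegree ≤ k)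
    (h2 : a2.natDegree ≤ 2 * k) (h3 : a3.natDegree ≤ 3 * k) (hE : E.natDegree ≤ 2 * k)
    (hE0 : E ≠ 0) (hdvd : Dp a1 a2 a3 ∣ C c0 * ((X - C t0) * E) ^ n) (κ K : ℝ)
    (hκ1 : 6 * (k : ℝ) / (k + 1) < κ) (hκ2 : κ < 6) (hK : 0 < K) :
    ∃ c C : ℝ, 0 < c ∧ 0 < C ∧ ∃ X0 : ℝ, ∀ X : ℝ, X0 ≤ X → ∃ S : Finset (ℤ × ℤ),
      (∀ x ∈ S, ∃ W : WeierstrassCurve ℤ, Pool.Agent.H39R3.GMin W ∧
        (∃ (t : ℚ) (D : WeierstrassCurve.VariableChange ℚ),
          D • crv a1 a2 a3 t = W.map (Int.castRingHom ℚ)) ∧ x = (W.c₄, W.c₆) ∧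
        |(W.c₄ : ℝ)| ^ 3 ≤ X ^ 6 ∧ (W.c₆ : ℝ) ^ 2 ≤ X ^ 6 ∧
        (Pool.Agent.H39R3.condW W : ℝ) ≤ C * X ^ (6 / κ) ∧
        K * (Pool.Agent.H39R3.condW W : ℝ) ^ κ < |(W.Δ : ℝ)|) ∧
      c * X ^ (6 / κ - 1) ≤ S.card := by
  classical
  have hk : 1 ≤ k := hF.hk
  have hA := hF.hA
  have hB := hF.hB
  have hkR : (1 : ℝ) ≤ k := by exact_mod_cast hk
  have hκ0 : 0 < κ := lt_trans (by positivity) hκ1
  set θ : ℝ := 12 * k / κ - 2 * k with hθ
  have hθ0 : 0 < θ := by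
    have : 2 * (k : ℝ) < 12 * k / κ := by
      rw [lt_div_iff₀ hκ0]
      nlinarith
    rw [hθ]
    linarith
  have hθ2 : θ < 2 := by
    have h5 : 6 * (k : ℝ) < κ * (k + 1) := by
      rwa [div_lt_iff₀ (by positivity)] at hκ1
    have : 12 * (k : ℝ) / κ < 2 * k + 2 := by
      rw [div_lt_iff₀ hκ0]
      nlinarith
    rw [hθ]
    linarith
  have hD0 : Dp a1 a2 a3 ≠ 0 := by
    intro h0
    rw [h0] at hdvd
    have h5 := zero_dvd_iff.mp hdvd
    rcases mul_eq_zero.mp h5 with h6 | h6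
    · exact hc0 (C_eq_zero.mp h6)
    · have hn0 : n ≠ 0 := by
        rintro rfl
        simp at h6
      rcases mul_eq_zero.mp ((pow_eq_zero_iff hn0).mp h6) with h7 | h7
      · exact X_sub_C_ne_zero t0 h7
      · exact hE0 h7
  have hDdeg := Dp_deg a1 a2 a3 k hA hB
  obtain ⟨δ, hδ, hδ1, hnz⟩ := no_zero (Dp a1 a2 a3 * E) (mul_ne_zero hD0 hE0) t0
  have hnzD : ∀ x : ℝ, 0 < x → x ≤ δ →
      ((Dp a1 a2 a3).map (Int.castRingHom ℝ)).eval ((t0 : ℝ) + x) ≠ 0 := by
    intro x hx hx' h0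
    apply hnz x hx hx'
    rw [Polynomial.map_mul, eval_mul, h0, zero_mul]
  have hnzE : ∀ x : ℝ, 0 < x → x ≤ δ →
      (E.map (Int.castRingHom ℝ)).eval ((t0 : ℝ) + x) ≠ 0 := by
    intro x hx hx' h0
    apply hnz x hx hx'
    rw [Polynomial.map_mul, eval_mul, h0, mul_zero]
  obtain ⟨cD, hcD, hlowD⟩ := low _ (12 * k) hDdeg t0 δ hδ hnzD
  obtain ⟨cE, hcE, hlowE⟩ := low E (2 * k) hE t0 δ hδ hnzE
  obtain ⟨CA, hCA, huA⟩ := upp (27 * c4p a1 a2 a3) (4 * k) t0
  obtain ⟨CB, hCB, huB⟩ := upp (54 * c6p a1 a2 a3) (6 * k) t0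
  obtain ⟨CE, hCE, huE⟩ := upp E (2 * k) t0
  obtain ⟨M, hM, hcurve⟩ := curve_ex a1 a2 a3 k w L hF h1 h2 h3
  have hMR : (1 : ℝ) ≤ M := by exact_mod_cast hM
  -- constants
  have hc0R : (1 : ℝ) ≤ (c0.natAbs : ℝ) := by
    exact_mod_cast Nat.one_le_iff_ne_zero.mpr (Int.natAbs_ne_zero.mpr hc0)
  set K1 : ℝ := 25 * (M : ℝ) ^ 2 * c0.natAbs * CE with hK1
  have hK10 : 0 < K1 := by positivity
  set B0 : ℝ := cD / (2 * K * (M : ℝ) ^ 12 * 3 ^ (12 * k)) with hB0
  have hB00 : 0 < B0 := by positivity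
  set c' : ℝ := B0 ^ (1 / κ) / K1 with hc'
  have hc'0 : 0 < c' := by positivity
  obtain ⟨c1, hc1, Y0, hY01, hpairs⟩ := pairs θ δ c' hθ0 hθ2 hδ hδ1 hc'0
  set ρ : ℝ := 1 / (864 * (CA + CB)) with hρ
  have hρ0 : 0 < ρ := by positivity
  have hρ1 : ρ ≤ 1 := by
    rw [hρ, div_le_one (by positivity)]
    linarith
  have hρA : 48 * CA * ρ ≤ 1 := by
    rw [hρ, mul_one_div, div_le_one (by positivity)]
    linarith
  have hρB : 864 * CB * ρ ≤ 1 := by
    rw [hρ, mul_one_div, div_le_one (by positivity)]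
    linarith
  have h2k : (0 : ℝ) < 2 * k := by positivity
  refine ⟨c1 * ρ ^ θ / (12 * k), B0 ^ (1 / κ), by positivity, by positivity,
    max 1 ((Y0 / ρ) ^ (2 * k)), fun X hX => ?_⟩
  have hX1 : (1 : ℝ) ≤ X := le_trans (le_max_left _ _) hX
  have hX0 : (0 : ℝ) < X := by linarith
  set Y : ℝ := ρ * X ^ (1 / (2 * (k : ℝ))) with hY
  have hYpos : 0 < Y := by positivity
  have hY0Y : Y0 ≤ Y := by
    have h5 : (Y0 / ρ) ^ (2 * k) ≤ X := le_trans (le_max_right _ _) hX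
    have h6 : Y0 / ρ ≤ X ^ (1 / (2 * (k : ℝ))) := by
      have h7 : Y0 / ρ = ((Y0 / ρ) ^ (2 * k)) ^ (1 / (2 * (k : ℝ))) := by
        rw [← Real.rpow_natCast, ← Real.rpow_mul (by positivity)]
        push_cast
        rw [mul_one_div_cancel h2k.ne', Real.rpow_one]
      rw [h7]
      exact Real.rpow_le_rpow (by positivity) h5 (by positivity)
    rw [hY]
    rw [div_le_iff₀ hρ0] at h6
    linarith
  have hY2k : Y ^ (2 * k) = ρ ^ (2 * k) * X := by
    rw [hY, mul_pow]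
    congr 1
    rw [← Real.rpow_natCast, ← Real.rpow_mul hX0.le]
    push_cast
    rw [one_div_mul_cancel h2k.ne', Real.rpow_one]
  obtain ⟨S, hS, hScard⟩ := hpairs Y hY0Y
  -- the curves
  have hex : ∀ x ∈ S, ∃ W : WeierstrassCurve ℤ, Pool.Agent.H39R3.GMin W ∧
      (∃ (D : WeierstrassCurve.VariableChange ℚ),
        D • crv a1 a2 a3 (((((x.1 : ℤ) + t0 * x.2 : ℤ)) : ℚ) / ((x.2 : ℤ) : ℚ)) =
          W.map (Int.castRingHom ℚ)) ∧
      |(W.c₄ : ℝ)| ^ 3 ≤ X ^ 6 ∧ (W.c₆ : ℝ) ^ 2 ≤ X ^ 6 ∧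
      (Pool.Agent.H39R3.condW W : ℝ) ≤ B0 ^ (1 / κ) * X ^ (6 / κ) ∧
      K * (Pool.Agent.H39R3.condW W : ℝ) ^ κ < |(W.Δ : ℝ)| := by
    intro x hx
    obtain ⟨hp, hq, hcop, s1, s2, s3, s4, s5⟩ := hS x hx
    set p := x.1 with hpdef
    set q := x.2 with hqdef
    have hqR : (0 : ℝ) < q := by exact_mod_cast hq
    have hpq : p ≤ q := by
      have : (p : ℝ) ≤ q := by nlinarith
      exact_mod_cast this
    have hco : IsCoprime ((p : ℤ) + t0 * q) (q : ℤ) := by
      have : IsCoprime (p : ℤ) (q : ℤ) := Nat.isCoprime_iff_coprime.mpr hcop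
      exact IsCoprime.add_mul_right_left this t0
    have hq0 : (q : ℤ) ≠ 0 := by exact_mod_cast hq.ne'
    have hDr := hlowD p q hq s1 s2
    have hEr := hlowE p q hq s1 s2
    have hDne : hom (Dp a1 a2 a3) (12 * k) ((p : ℤ) + t0 * q) q ≠ 0 := by
      intro h0
      rw [h0, Int.cast_zero, abs_zero] at hDr
      have : 0 < cD * (q : ℝ) ^ (12 * k) := by positivity
      linarith
    have hEne : hom E (2 * k) ((p : ℤ) + t0 * q) q ≠ 0 := by
      intro h0
      rw [h0, Int.cast_zero, abs_zero] at hEr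
      have : 0 < cE * (q : ℝ) ^ (2 * k) := by positivity
      linarith
    obtain ⟨hAB, W, hW, hD, r, s, hr0, hr6, hs1, hsM, e4, e6, e12⟩ :=
      hcurve _ _ hco hq0 hDne
    refine ⟨W, hW, hD, ?_, ?_, ?_⟩
    · -- `c₄`
      have hA' := huA p q hpq
      have f1 : 27 * |(W.c₄ : ℝ)| * |(s : ℝ)| ^ 4 =
          |(r : ℝ)| ^ 4 * |((hom (27 * c4p a1 a2 a3) (4 * k) ((p : ℤ) + t0 * q) q : ℤ) : ℝ)| := by
        have := congrArg (fun z : ℤ => |(z : ℝ)|) e4
        simp only [Int.cast_mul, Int.cast_pow, abs_mul, abs_pow, Int.cast_ofNat] at this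
        rw [abs_of_pos (by norm_num : (0 : ℝ) < 27)] at this
        exact this
      have fs : (1 : ℝ) ≤ |(s : ℝ)| := by
        rw [abs_of_pos (by exact_mod_cast (by omega : (0 : ℤ) < s))]
        exact_mod_cast hs1
      have fr : |(r : ℝ)| ≤ 6 := by exact_mod_cast hr6
      have f2 : 27 * |(W.c₄ : ℝ)| ≤ 6 ^ 4 * (CA * (q : ℝ) ^ (4 * k)) := by
        calc 27 * |(W.c₄ : ℝ)| ≤ 27 * |(W.c₄ : ℝ)| * |(s : ℝ)| ^ 4 :=
              le_mul_of_one_le_right (by positivity) (one_le_pow₀ fs)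
          _ = _ := f1
          _ ≤ _ := by gcongr
      have f3 : (q : ℝ) ^ (4 * k) ≤ ρ * X ^ 2 := by
        calc (q : ℝ) ^ (4 * k) ≤ Y ^ (4 * k) := by gcongr
          _ = (Y ^ (2 * k)) ^ 2 := by rw [← pow_mul]; congr 1; ring
          _ = (ρ ^ (2 * k)) ^ 2 * X ^ 2 := by rw [hY2k, mul_pow]
          _ ≤ ρ * X ^ 2 := by
              gcongr
              rw [← pow_mul]
              exact pow_le_of_le_one hρ0.le hρ1 (by omega)
      have f4 : |(W.c₄ : ℝ)| ≤ X ^ 2 := by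
        have f5 : CA * (q : ℝ) ^ (4 * k) ≤ CA * (ρ * X ^ 2) := by gcongr
        have f6 : (48 * CA * ρ) * X ^ 2 ≤ 1 * X ^ 2 := by gcongr
        nlinarith
      have f7 : |(W.c₄ : ℝ)| ^ 3 ≤ X ^ 6 := by
        calc |(W.c₄ : ℝ)| ^ 3 ≤ (X ^ 2) ^ 3 := by gcongr
          _ = X ^ 6 := by ring
      exact f7
    · -- `c₆`
      have hB' := huB p q hpq
      have f1 : 54 * |(W.c₆ : ℝ)| * |(s : ℝ)| ^ 6 =
          |(r : ℝ)| ^ 6 * |((hom (54 * c6p a1 a2 a3) (6 * k) ((p : ℤ) + t0 * q) q : ℤ) : ℝ)| := by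
        have := congrArg (fun z : ℤ => |(z : ℝ)|) e6
        simp only [Int.cast_mul, Int.cast_pow, abs_mul, abs_pow, Int.cast_ofNat] at this
        rw [abs_of_pos (by norm_num : (0 : ℝ) < 54)] at this
        exact this
      have fs : (1 : ℝ) ≤ |(s : ℝ)| := by
        rw [abs_of_pos (by exact_mod_cast (by omega : (0 : ℤ) < s))]
        exact_mod_cast hs1
      have fr : |(r : ℝ)| ≤ 6 := by exact_mod_cast hr6
      have f2 : 54 * |(W.c₆ : ℝ)| ≤ 6 ^ 6 * (CB * (q : ℝ) ^ (6 * k)) := by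
        calc 54 * |(W.c₆ : ℝ)| ≤ 54 * |(W.c₆ : ℝ)| * |(s : ℝ)| ^ 6 :=
              le_mul_of_one_le_right (by positivity) (one_le_pow₀ fs)
          _ = _ := f1
          _ ≤ _ := by gcongr
      have f3 : (q : ℝ) ^ (6 * k) ≤ ρ * X ^ 3 := by
        calc (q : ℝ) ^ (6 * k) ≤ Y ^ (6 * k) := by gcongr
          _ = (Y ^ (2 * k)) ^ 3 := by rw [← pow_mul]; congr 1; ring
          _ = (ρ ^ (2 * k)) ^ 3 * X ^ 3 := by rw [hY2k, mul_pow]
          _ ≤ ρ * X ^ 3 := by
              gcongr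
              rw [← pow_mul]
              exact pow_le_of_le_one hρ0.le hρ1 (by omega)
      have f4 : |(W.c₆ : ℝ)| ≤ X ^ 3 := by
        have f5 : CB * (q : ℝ) ^ (6 * k) ≤ CB * (ρ * X ^ 3) := by gcongr
        have f6 : (864 * CB * ρ) * X ^ 3 ≤ 1 * X ^ 3 := by gcongr
        nlinarith
      have f7 : (W.c₆ : ℝ) ^ 2 ≤ X ^ 6 := by
        calc (W.c₆ : ℝ) ^ 2 = |(W.c₆ : ℝ)| ^ 2 := (sq_abs _).symm
          _ ≤ (X ^ 3) ^ 2 := by gcongr
          _ = X ^ 6 := by ring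
      exact f7
    · -- the inequality
      have hcond := cond_le (Dp a1 a2 a3) E k n t0 c0 hc0 hDdeg hE hdvd p q hp hq hEne M hM _ _ hAB
        W r s hr0 hr6 e4 e6 e12
      have hE' := huE p q hpq
      set N := Pool.Agent.H39R3.condW W with hN
      have g1 : (N : ℝ) ≤ K1 * (c' * Y ^ (θ + 2 * k)) := by
        have g2 : (N : ℝ) ≤ ((25 * M ^ 2 * c0.natAbs * (rd p * rd q) *
            (hom E (2 * k) ((p : ℤ) + t0 * q) q).natAbs : ℕ) : ℝ) := by exact_mod_cast hcond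
        push_cast at g2
        have g4 : (q : ℝ) ^ (2 * k) ≤ Y ^ (2 * k) := by gcongr
        have g5 : Y ^ (θ + 2 * (k : ℝ)) = Y ^ θ * Y ^ (2 * k) := by
          rw [Real.rpow_add hYpos]
          congr 1
          rw [← Real.rpow_natCast]
          push_cast
          rfl
        calc (N : ℝ) ≤ 25 * (M : ℝ) ^ 2 * (c0.natAbs : ℝ) * ((rd p : ℝ) * rd q) *
              |((hom E (2 * k) ((p : ℤ) + t0 * q) q : ℤ) : ℝ)| := by
              refine g2.trans (le_of_eq ?_)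
              simp [Nat.cast_natAbs]
          _ ≤ 25 * (M : ℝ) ^ 2 * (c0.natAbs : ℝ) * (c' * Y ^ θ) * (CE * Y ^ (2 * k)) := by
              gcongr
              exact hE'.trans (by gcongr)
          _ = K1 * (c' * Y ^ (θ + 2 * (k : ℝ))) := by rw [g5, hK1]; ring
      have g6 : (N : ℝ) ^ κ ≤ B0 * Y ^ (12 * k) := by
        have g7 : K1 * (c' * Y ^ (θ + 2 * (k : ℝ))) = B0 ^ (1 / κ) * Y ^ (θ + 2 * (k : ℝ)) := by
          rw [hc']
          field_simp
        rw [g7] at g1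
        calc (N : ℝ) ^ κ ≤ (B0 ^ (1 / κ) * Y ^ (θ + 2 * (k : ℝ))) ^ κ :=
              Real.rpow_le_rpow (Nat.cast_nonneg _) g1 hκ0.le
          _ = B0 * Y ^ (12 * k) := by
              rw [Real.mul_rpow (by positivity) (by positivity), ← Real.rpow_mul hB00.le,
                ← Real.rpow_mul hYpos.le, one_div_mul_cancel hκ0.ne', Real.rpow_one]
              congr 1
              rw [← Real.rpow_natCast]
              congr 1
              rw [hθ]
              push_cast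
              field_simp
              ring
      have g8 : cD * (Y / 3) ^ (12 * k) ≤ |(W.Δ : ℝ)| * (M : ℝ) ^ 12 := by
        have f1 : |(W.Δ : ℝ)| * |(s : ℝ)| ^ 12 = |(r : ℝ)| ^ 12 *
            |((hom (Dp a1 a2 a3) (12 * k) ((p : ℤ) + t0 * q) q : ℤ) : ℝ)| := by
          have := congrArg (fun z : ℤ => |(z : ℝ)|) e12
          simp only [Int.cast_mul, Int.cast_pow, abs_mul, abs_pow] at this
          exact this
        have fr : (1 : ℝ) ≤ |(r : ℝ)| := by exact_mod_cast Int.one_le_abs hr0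
        have fs : |(s : ℝ)| ≤ M := by
          rw [abs_of_pos (by exact_mod_cast (by omega : (0 : ℤ) < s))]
          exact_mod_cast hsM
        calc cD * (Y / 3) ^ (12 * k) ≤ cD * (q : ℝ) ^ (12 * k) := by gcongr
          _ ≤ |((hom (Dp a1 a2 a3) (12 * k) ((p : ℤ) + t0 * q) q : ℤ) : ℝ)| := hDr
          _ ≤ |(r : ℝ)| ^ 12 *
              |((hom (Dp a1 a2 a3) (12 * k) ((p : ℤ) + t0 * q) q : ℤ) : ℝ)| :=
              le_mul_of_one_le_left (abs_nonneg _) (one_le_pow₀ fr)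
          _ = |(W.Δ : ℝ)| * |(s : ℝ)| ^ 12 := f1.symm
          _ ≤ |(W.Δ : ℝ)| * (M : ℝ) ^ 12 := by gcongr
      have hM12 : (0 : ℝ) < (M : ℝ) ^ 12 := by positivity
      have g9 : K * (B0 * Y ^ (12 * k)) * (M : ℝ) ^ 12 < cD * (Y / 3) ^ (12 * k) := by
        have g10 : K * (B0 * Y ^ (12 * k)) * (M : ℝ) ^ 12 = (cD * (Y / 3) ^ (12 * k)) / 2 := by
          rw [hB0, div_pow]
          field_simp
        rw [g10]
        have : 0 < cD * (Y / 3) ^ (12 * k) := by positivity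
        linarith
      have g11 : K * (N : ℝ) ^ κ * (M : ℝ) ^ 12 < |(W.Δ : ℝ)| * (M : ℝ) ^ 12 := by
        calc K * (N : ℝ) ^ κ * (M : ℝ) ^ 12 ≤ K * (B0 * Y ^ (12 * k)) * (M : ℝ) ^ 12 := by gcongr
          _ < _ := g9
          _ ≤ _ := g8
      refine ⟨?_, lt_of_mul_lt_mul_right g11 hM12.le⟩
      have k1 : Y ^ (12 * k) ≤ X ^ 6 := by
        calc Y ^ (12 * k) = (Y ^ (2 * k)) ^ 6 := by rw [← pow_mul]; congr 1; ring
          _ = (ρ ^ (2 * k)) ^ 6 * X ^ 6 := by rw [hY2k, mul_pow]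
          _ ≤ 1 * X ^ 6 := by
              gcongr
              exact pow_le_one₀ (by positivity) (pow_le_one₀ hρ0.le hρ1)
          _ = X ^ 6 := one_mul _
      have k2 : (N : ℝ) ^ κ ≤ B0 * X ^ 6 := g6.trans (by gcongr)
      have k3 : (N : ℝ) = ((N : ℝ) ^ κ) ^ (1 / κ) := by
        rw [← Real.rpow_mul (Nat.cast_nonneg _), mul_one_div_cancel hκ0.ne', Real.rpow_one]
      rw [k3]
      calc ((N : ℝ) ^ κ) ^ (1 / κ) ≤ (B0 * X ^ 6) ^ (1 / κ) :=
            Real.rpow_le_rpow (by positivity) k2 (by positivity)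
        _ = B0 ^ (1 / κ) * X ^ (6 / κ) := by
            rw [Real.mul_rpow hB00.le (by positivity), ← Real.rpow_natCast X 6,
              ← Real.rpow_mul hX0.le]
            congr 2
            push_cast
            ring
  choose! f hf using hex
  refine ⟨S.image (fun x => ((f x).c₄, (f x).c₆)), ?_, ?_⟩
  · intro z hz
    obtain ⟨x, hx, rfl⟩ := mem_image.mp hz
    obtain ⟨g1, ⟨D, hD⟩, g3, g4, g5, g6⟩ := hf x hx
    exact ⟨f x, g1, ⟨_, D, hD⟩, rfl, g3, g4, g5, g6⟩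
  · -- the fibres
    have hfib : ∀ z ∈ S.image (fun x => ((f x).c₄, (f x).c₆)),
        (S.filter (fun x => ((f x).c₄, (f x).c₆) = z)).card ≤ 12 * k := by
      intro z hz
      obtain ⟨x0, hx0, hz0⟩ := mem_image.mp hz
      set A' := (27 * c4p a1 a2 a3).map (Int.castRingHom ℚ) with hA'
      set B' := (54 * c6p a1 a2 a3).map (Int.castRingHom ℚ) with hB'
      set α : ℚ := ((54 * z.2 : ℤ) : ℚ) ^ 2 with hα
      set β : ℚ := ((27 * z.1 : ℤ) : ℚ) ^ 3 with hβ
      have hαβ : α ≠ 0 ∨ β ≠ 0 := by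
        by_contra hcon
        push Not at hcon
        obtain ⟨k1, k2⟩ := hcon
        have k3 : z.2 = 0 := by
          have := pow_eq_zero_iff (two_ne_zero) |>.mp k1
          have : (54 * z.2 : ℤ) = 0 := by exact_mod_cast this
          omega
        have k4 : z.1 = 0 := by
          have := pow_eq_zero_iff (three_ne_zero) |>.mp k2
          have : (27 * z.1 : ℤ) = 0 := by exact_mod_cast this
          omega
        have k5 := (hf x0 hx0).1.1
        apply k5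
        have k6 := (f x0).c_relation
        have k7 : (f x0).c₄ = 0 := by rw [← k4, ← hz0]
        have k8 : (f x0).c₆ = 0 := by rw [← k3, ← hz0]
        rw [k7, k8] at k6
        omega
      have hdegs : A'.natDegree ≠ 0 ∨ B'.natDegree ≠ 0 := by
        rw [hA', hB', natDegree_map_eq_of_injective Int.cast_injective,
          natDegree_map_eq_of_injective Int.cast_injective]
        rcases hF.hlead with h | h
        · left; omega
        · right; omega
      have hΦ := phi_ne A' B' hF.hcop hdegs α β hαβ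
      set Φ : ℚ[X] := C α * A' ^ 3 - C β * B' ^ 2 with hΦdef
      have hΦdeg : Φ.natDegree ≤ 12 * k := by
        refine (natDegree_sub_le _ _).trans (max_le ?_ ?_)
        · refine (natDegree_C_mul_le _ _).trans (natDegree_pow_le.trans ?_)
          have := (natDegree_map_le (f := Int.castRingHom ℚ) (p := 27 * c4p a1 a2 a3)).trans hA
          rw [← hA'] at this
          omega
        · refine (natDegree_C_mul_le _ _).trans (natDegree_pow_le.trans ?_)
          have := (natDegree_map_le (f := Int.castRingHom ℚ) (p := 54 * c6p a1 a2 a3)).trans hB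
          rw [← hB'] at this
          omega
      have hcardle : (S.filter (fun x => ((f x).c₄, (f x).c₆) = z)).card ≤
          Φ.roots.toFinset.card := by
        refine Finset.card_le_card_of_injOn
          (fun x => ((((x.1 : ℤ) + t0 * x.2 : ℤ)) : ℚ) / ((x.2 : ℤ) : ℚ)) ?_ ?_
        · intro x hx
          obtain ⟨hxS, hxz⟩ := mem_filter.mp hx
          obtain ⟨hp, hq, -⟩ := hS x hxS
          obtain ⟨-, ⟨D, hD⟩, -⟩ := hf x hxS
          rw [mem_coe, Multiset.mem_toFinset, mem_roots hΦ, IsRoot.def]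
          have hbQ : ((x.2 : ℤ) : ℚ) ≠ 0 := by exact_mod_cast hq.ne'
          obtain ⟨v, hv, hv4, hv6⟩ := rel a1 a2 a3 k hA hB _ _ hbQ (f x) D hD
          have hA4 := hom_eval _ (4 * k) hA ((x.1 : ℤ) + t0 * x.2) (x.2 : ℤ) hbQ
          have hB6 := hom_eval _ (6 * k) hB ((x.1 : ℤ) + t0 * x.2) (x.2 : ℤ) hbQ
          rw [← hA'] at hA4
          rw [← hB'] at hB6
          set t : ℚ := ((((x.1 : ℤ) + t0 * x.2 : ℤ)) : ℚ) / ((x.2 : ℤ) : ℚ) with ht
          have z4 : (f x).c₄ = z.1 := by rw [← hxz]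
          have z6 : (f x).c₆ = z.2 := by rw [← hxz]
          rw [z4, hA4] at hv4
          rw [z6, hB6] at hv6
          change eval t Φ = 0
          rw [hΦdef, eval_sub, eval_mul, eval_mul, eval_pow, eval_pow, eval_C, eval_C, hα, hβ,
            hv4, hv6]
          ring
        · intro x hx x' hx' hxx
          obtain ⟨hxS, -⟩ := mem_filter.mp hx
          obtain ⟨hxS', -⟩ := mem_filter.mp hx'
          obtain ⟨hp, hq, hc, -⟩ := hS x hxS
          obtain ⟨hp', hq', hc', -⟩ := hS x' hxS'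
          have hbQ : ((x.2 : ℤ) : ℚ) ≠ 0 := by exact_mod_cast hq.ne'
          have hbQ' : ((x'.2 : ℤ) : ℚ) ≠ 0 := by exact_mod_cast hq'.ne'
          simp only at hxx
          rw [div_eq_div_iff hbQ hbQ'] at hxx
          have e1 : (x.1 : ℚ) * x'.2 = (x'.1 : ℚ) * x.2 := by
            push_cast at hxx
            linarith
          have e2 : x.1 * x'.2 = x'.1 * x.2 := by exact_mod_cast e1
          have d1 : x.2 ∣ x'.2 := by
            exact (Nat.Coprime.symm hc).dvd_of_dvd_mul_left ⟨x'.1, by rw [e2]; ring⟩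
          have d2 : x'.2 ∣ x.2 := by
            exact (Nat.Coprime.symm hc').dvd_of_dvd_mul_left ⟨x.1, by rw [← e2]; ring⟩
          have e3 : x.2 = x'.2 := Nat.dvd_antisymm d1 d2
          have e4 : x.1 = x'.1 := by
            rw [e3] at e2
            exact Nat.eq_of_mul_eq_mul_right hq' e2
          exact Prod.ext e4 e3
      exact hcardle.trans ((Multiset.toFinset_card_le _).trans ((card_roots' _).trans hΦdeg))
    have hmul := Finset.card_le_mul_card_image (f := fun x => ((f x).c₄, (f x).c₆)) S (12 * k) hfib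
    have hmulR : (S.card : ℝ) ≤ (12 * k) * ((S.image (fun x => ((f x).c₄, (f x).c₆))).card : ℝ) := by
      exact_mod_cast hmul
    have hYθ : Y ^ θ = ρ ^ θ * X ^ (6 / κ - 1) := by
      rw [hY, Real.mul_rpow hρ0.le (by positivity), ← Real.rpow_mul hX0.le]
      congr 2
      rw [hθ]
      field_simp
      ring
    rw [hYθ] at hScard
    have h12k : (0 : ℝ) < 12 * k := by positivity
    calc c1 * ρ ^ θ / (12 * k) * X ^ (6 / κ - 1) =
          (c1 * (ρ ^ θ * X ^ (6 / κ - 1))) / (12 * k) := by ring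
      _ ≤ (S.card : ℝ) / (12 * k) := by gcongr
      _ ≤ _ := by
          rw [div_le_iff₀ h12k]
          linarith

end Pool.Agent.H775.SZ
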