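import Pool.Agent.H775.SZ.Tors

/-!
# The lower bound in terms of the height
-/

set_option autoImplicit false

namespace Pool.Agent.H775.SZ

open Finset Polynomial Pool.Agent.TH498.KB

theorem low_height (a1 a2 a3 : ℤ[X]) (k w L : ℕ) (hd : Data a1 a2 a3 k)
    (hF : Fam (27 * c4p a1 a2 a3) (54 * c6p a1 a2 a3) k w L) (κ K : ℝ)
    (hκ1 : 6 * (k : ℝ) / (k + 1) < κ) (hκ2 : κ < 6) (hK : 0 < K) :
    ∃ c : ℝ, 0 < c ∧ ∃ X0 : ℝ, 1 ≤ X0 ∧ ∀ X : ℝ, X0 ≤ X → ∃ S : Finset (ℤ × ℤ),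
      (∀ x ∈ S, ∃ W : WeierstrassCurve ℤ, Pool.Agent.H39R3.GMin W ∧
        (∃ (t : ℚ) (D : WeierstrassCurve.VariableChange ℚ),
          D • crv a1 a2 a3 t = W.map (Int.castRingHom ℚ)) ∧ x = (W.c₄, W.c₆) ∧
        |(W.c₄ : ℝ)| ^ 3 ≤ X ∧ (W.c₆ : ℝ) ^ 2 ≤ X ∧
        (Pool.Agent.H39R3.condW W : ℝ) ≤ X ^ (1 / κ) ∧
        K * (Pool.Agent.H39R3.condW W : ℝ) ^ κ < |(W.Δ : ℝ)|) ∧
      c * X ^ (1 / κ - 1 / 6) ≤ S.card := by
  obtain ⟨c, C, hc, hC, X0, h⟩ := low_of_data a1 a2 a3 k w L hd hF κ K hκ1 hκ2 hK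
  have hκ0 : 0 < κ := lt_of_le_of_lt (by positivity) hκ1
  set m : ℝ := max 1 C with hm
  have hm1 : 1 ≤ m := le_max_left _ _
  have hm0 : 0 < m := by linarith
  set lam : ℝ := m ^ (κ / 6) with hlam
  have hlam1 : 1 ≤ lam := Real.one_le_rpow hm1 (by positivity)
  have hlam0 : 0 < lam := by linarith
  refine ⟨c * (1 / lam ^ (6 / κ - 1)), by positivity, max 1 ((lam * max 1 X0) ^ 6),
    le_max_left _ _, fun X hX => ?_⟩
  have hX1 : 1 ≤ X := (le_max_left _ _).trans hX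
  have hX0 : 0 < X := by linarith
  have h6 : (X ^ (1 / 6 : ℝ)) ^ 6 = X := by
    rw [← Real.rpow_natCast, ← Real.rpow_mul hX0.le]
    norm_num
  have hY0 : X0 ≤ X ^ (1 / 6 : ℝ) / lam := by
    have e1 : (lam * max 1 X0) ^ 6 ≤ (X ^ (1 / 6 : ℝ)) ^ 6 := by
      rw [h6]
      exact (le_max_right _ _).trans hX
    have e2 : lam * max 1 X0 ≤ X ^ (1 / 6 : ℝ) :=
      le_of_pow_le_pow_left₀ (by norm_num) (by positivity) e1
    rw [le_div_iff₀ hlam0]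
    calc X0 * lam ≤ max 1 X0 * lam := by gcongr; exact le_max_right _ _
      _ = lam * max 1 X0 := mul_comm _ _
      _ ≤ _ := e2
  obtain ⟨S, hS, hcard⟩ := h _ hY0
  have hY6 : (X ^ (1 / 6 : ℝ) / lam) ^ 6 ≤ X := by
    rw [div_pow, h6]
    exact div_le_self hX0.le (one_le_pow₀ hlam1)
  refine ⟨S, fun x hx => ?_, ?_⟩
  · obtain ⟨W, g1, g2, g3, g4, g5, g6, g7⟩ := hS x hx
    refine ⟨W, g1, g2, g3, g4.trans hY6, g5.trans hY6, g6.trans ?_, g7⟩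
    rw [Real.div_rpow (by positivity) hlam0.le, ← Real.rpow_mul hX0.le, hlam,
      ← Real.rpow_mul hm0.le]
    have e1 : (1 / 6 : ℝ) * (6 / κ) = 1 / κ := by field_simp
    have e2 : κ / 6 * (6 / κ) = 1 := by field_simp
    rw [e1, e2, Real.rpow_one]
    have e3 : 0 ≤ X ^ (1 / κ) := by positivity
    rw [mul_div_assoc', div_le_iff₀ hm0]
    nlinarith [le_max_right 1 C]
  · refine le_trans (le_of_eq ?_) hcard
    rw [Real.div_rpow (by positivity) hlam0.le, ← Real.rpow_mul hX0.le]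
    have e1 : (1 / 6 : ℝ) * (6 / κ - 1) = 1 / κ - 1 / 6 := by field_simp
    rw [e1]
    ring

end Pool.Agent.H775.SZ
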