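import Pool.Agent.H775.SZ.Tors

/-!
# Members of Kubert's families that are semistable
-/

set_option autoImplicit false
set_option maxHeartbeats 4000000

namespace Pool.Agent.H775.SZ

open Finset Polynomial Pool.Agent.W4.CF Pool.Agent.W4.VC Pool.Agent.TH498.KB

theorem pow_zero_imp {F : Type*} [Field F] {x : F} {n : ℕ} (h : x ^ n = 0) : x = 0 := by
  by_contra hx
  exact pow_ne_zero n hx h

/-- `c` and `f` have no common zero in characteristic `p ∤ 210` -/
def Good (c f : ℤ[X]) : Prop :=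
  ∃ (u v : ℤ[X]) (m : ℤ) (j : ℕ), u * c + v * f = C m ∧ m ∣ 210 ^ j

theorem good_of {c f : ℤ[X]} (u v : ℤ[X]) (m : ℕ) (h : u * c + v * f = (m : ℤ[X]))
    (hm : m ∣ 210 ^ 20) : Good c f := by
  refine ⟨u, v, m, 20, ?_, by exact_mod_cast hm⟩
  rw [h]
  simp

theorem Good.mul {c f g : ℤ[X]} (h : Good c f) (h' : Good c g) : Good c (f * g) := by
  obtain ⟨u, v, m, j, e, d⟩ := h
  obtain ⟨u', v', m', j', e', d'⟩ := h'
  refine ⟨u * u' * c + u * v' * g + v * f * u', v * v', m * m', j + j', ?_, ?_⟩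
  · rw [C_mul, ← e, ← e']
    ring
  · rw [pow_add]
    exact mul_dvd_mul d d'

theorem Good.pow {c f : ℤ[X]} (h : Good c f) (n : ℕ) : Good c (f ^ n) := by
  induction n with
  | zero => exact ⟨0, 1, 1, 0, by simp, by simp⟩
  | succ n ih => rw [pow_succ]; exact ih.mul h

theorem hom_field {F : Type*} [Field F] (f : ℤ[X]) (n : ℕ) (hf : f.natDegree ≤ n) (a b : ℤ)
    (hb : (b : F) ≠ 0) :
    ((hom f n a b : ℤ) : F) = (b : F) ^ n * (f.map (Int.castRingHom F)).eval ((a : F) / b) := by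
  rw [eval_eq_sum_range' (n := n + 1) (by
    exact lt_of_le_of_lt (natDegree_map_le.trans hf) (Nat.lt_succ_self n))]
  unfold hom
  push_cast
  rw [mul_sum]
  refine sum_congr rfl fun j hj => ?_
  have hjn : j ≤ n := Nat.lt_succ_iff.mp (mem_range.mp hj)
  rw [coeff_map, div_pow]
  have h1 : (b : F) ^ n = (b : F) ^ (n - j) * (b : F) ^ j := by
    rw [← pow_add, Nat.sub_add_cancel hjn]
  rw [h1, eq_intCast]
  field_simp

theorem hom_zero_left {F : Type*} [Field F] (f : ℤ[X]) (n : ℕ) (a b : ℤ) (ha : (a : F) = 0) :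
    ((hom f n a b : ℤ) : F) = (f.coeff 0 : F) * (b : F) ^ n := by
  unfold hom
  push_cast
  rw [ha, Finset.sum_range_succ']
  simp

theorem hom_zero_right {F : Type*} [Field F] (f : ℤ[X]) (n : ℕ) (a b : ℤ) (hb : (b : F) = 0) :
    ((hom f n a b : ℤ) : F) = (f.coeff n : F) * (a : F) ^ n := by
  unfold hom
  push_cast
  rw [hb, Finset.sum_range_succ]
  have : ∑ j ∈ range n, ((f.coeff j : ℤ) : F) * (a : F) ^ j * (0 : F) ^ (n - j) = 0 := by
    refine Finset.sum_eq_zero fun j hj => ?_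
    have h1 := mem_range.mp hj
    rw [zero_pow (by omega), mul_zero]
  rw [this]
  simp

/-- the values at a pair `(p, q)` with `210 ∣ p` are coprime -/
theorem cop_hom (c D : ℤ[X]) (α β : ℕ) (hc : c.natDegree ≤ α) (hD : D.natDegree ≤ β)
    (h0 : c.coeff 0 = 1) (j : ℕ) (hlead : c.coeff α ∣ 210 ^ j) (hg : Good c D) (p q : ℤ)
    (hpq : IsCoprime p q) (hp : (210 : ℤ) ∣ p) : IsCoprime (hom c α p q) (hom D β p q) := by
  rw [Int.isCoprime_iff_gcd_eq_one]
  by_contra hcon
  obtain ⟨l, hl, hl1⟩ := Nat.exists_prime_and_dvd hcon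
  have hl2 : (l : ℤ) ∣ hom c α p q := (Int.natCast_dvd_natCast.mpr hl1).trans
    (Int.gcd_dvd_left _ _)
  have hl3 : (l : ℤ) ∣ hom D β p q := (Int.natCast_dvd_natCast.mpr hl1).trans
    (Int.gcd_dvd_right _ _)
  have : Fact l.Prime := ⟨hl⟩
  have e2 : ((hom c α p q : ℤ) : ZMod l) = 0 := (ZMod.intCast_zmod_eq_zero_iff_dvd _ l).mpr hl2
  have e3 : ((hom D β p q : ℤ) : ZMod l) = 0 := (ZMod.intCast_zmod_eq_zero_iff_dvd _ l).mpr hl3
  have hcopl : ¬ (((p : ℤ) : ZMod l) = 0 ∧ ((q : ℤ) : ZMod l) = 0) := by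
    rintro ⟨k1, k2⟩
    obtain ⟨x, y, hxy⟩ := hpq
    have := congrArg (fun z : ℤ => (z : ZMod l)) hxy
    simp only [Int.cast_add, Int.cast_mul, k1, k2, mul_zero, add_zero, Int.cast_one] at this
    exact zero_ne_one this
  by_cases hp0 : ((p : ℤ) : ZMod l) = 0
  · rw [hom_zero_left c α p q hp0, h0, Int.cast_one, one_mul] at e2
    have hq0 : ((q : ℤ) : ZMod l) = 0 := pow_zero_imp e2
    exact hcopl ⟨hp0, hq0⟩
  · have h210 : ((210 : ℤ) : ZMod l) ≠ 0 := by
      intro h
      apply hp0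
      obtain ⟨w, rfl⟩ := hp
      rw [Int.cast_mul, h, zero_mul]
    by_cases hq0 : ((q : ℤ) : ZMod l) = 0
    · rw [hom_zero_right c α p q hq0] at e2
      rcases mul_eq_zero.mp e2 with k1 | k1
      · obtain ⟨w, hw⟩ := hlead
        have := congrArg (fun z : ℤ => (z : ZMod l)) hw
        simp only [Int.cast_pow, Int.cast_mul, k1, zero_mul] at this
        exact h210 (pow_zero_imp this)
      · exact hp0 (pow_zero_imp k1)
    · rw [hom_field c α hc p q hq0] at e2
      rw [hom_field D β hD p q hq0] at e3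
      have k2 := (mul_eq_zero.mp e2).resolve_left (pow_ne_zero _ hq0)
      have k3 := (mul_eq_zero.mp e3).resolve_left (pow_ne_zero _ hq0)
      obtain ⟨u, v, m, i, e, ⟨w, hw⟩⟩ := hg
      have k4 := congrArg (fun f : ℤ[X] => (f.map (Int.castRingHom (ZMod l))).eval
        ((p : ZMod l) / q)) e
      simp only [Polynomial.map_add, Polynomial.map_mul, eval_add, eval_mul, k2, k3, mul_zero,
        add_zero, eq_intCast, Polynomial.map_intCast, eval_intCast] at k4
      have := congrArg (fun z : ℤ => (z : ZMod l)) hw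
      simp only [Int.cast_pow, Int.cast_mul, ← k4, zero_mul] at this
      exact h210 (pow_zero_imp this)

end Pool.Agent.H775.SZ
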