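import Pool.Agent.H775.SZ.Semi

/-!
# The data of the families for semistable members
-/

set_option autoImplicit false
set_option maxHeartbeats 4000000

namespace Pool.Agent.H775.SZ

open Finset Polynomial Pool.Agent.W4.CF Pool.Agent.W4.VC Pool.Agent.TH498.KB

/-- the degrees of the coefficients and the factorisation of the discriminant -/
def DataT (a1 a2 a3 : ℤ[X]) (k : ℕ) : Prop :=
  a1.natDegree ≤ k ∧ a2.natDegree ≤ 2 * k ∧ a3.natDegree ≤ 3 * k ∧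
  ∃ (E : ℤ[X]) (n : ℕ), E.natDegree ≤ 2 * k ∧ E ≠ 0 ∧
    Dp a1 a2 a3 ∣ C 1 * ((X - C 0) * E) ^ n

/-- the data used for semistable members -/
def SData (a1 a2 a3 : ℤ[X]) (k : ℕ) : Prop :=
  1 ≤ k ∧ DataT a1 a2 a3 k ∧ (c4p a1 a2 a3).coeff 0 = 1 ∧
  (c4p a1 a2 a3).coeff (4 * k) ∣ 210 ^ 20 ∧ Good (c4p a1 a2 a3) (Dp a1 a2 a3)

theorem dt_z5 : DataT a1_z5 a2_z5 a3_z5 1 := by
  refine ⟨?_, ?_, ?_, X ^ 2 - 11 * X - 1, 5, ?_, ?_, ?_⟩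
  · unfold a1_z5; compute_degree
  · unfold a2_z5; compute_degree <;> norm_num
  · unfold a3_z5; compute_degree <;> norm_num
  · compute_degree
  · intro h
    have := congrArg (eval 0) h
    simp at this
  · rw [D_z5, C_0, sub_zero, C_1, one_mul]
    simpa using dv2 (X : ℤ[X]) (X ^ 2 - 11 * X - 1) 5 1 5 (by norm_num) (by norm_num)

theorem good_z5 : Good (c4p a1_z5 a2_z5 a3_z5) (Dp a1_z5 a2_z5 a3_z5) := by
  have c4e := c4_z5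
  have k0 : Good (c4p a1_z5 a2_z5 a3_z5) (X) :=
    good_of (1) (-X ^ 3 + 12 * X ^ 2 - 14 * X - 12) 1 (by rw [c4e]; push_cast; ring)
      (by norm_num)
  have k1 : Good (c4p a1_z5 a2_z5 a3_z5) (X ^ 2 - 11 * X - 1) :=
    good_of (-11 * X + 122) (11 * X ^ 3 - 133 * X ^ 2 + 166 * X + 117) 5 (by rw [c4e]; push_cast; ring)
      (by norm_num)
  rw [D_z5]
  exact (k0.pow 5).mul k1

theorem sd_z5 : SData a1_z5 a2_z5 a3_z5 1 := by
  refine ⟨by norm_num, dt_z5, ?_, ?_, good_z5⟩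
  · rw [c4_z5, coeff_zero_eq_eval_zero]
    simp
  · rw [c4_z5]
    simp [coeff_X, coeff_X_pow, coeff_one]

theorem dt_z6 : DataT a1_z6 a2_z6 a3_z6 1 := by
  refine ⟨?_, ?_, ?_, (X + 1) * (9 * X + 1), 6, ?_, ?_, ?_⟩
  · unfold a1_z6; compute_degree
  · unfold a2_z6; compute_degree <;> norm_num
  · unfold a3_z6; compute_degree <;> norm_num
  · compute_degree <;> norm_num
  · intro h
    have := congrArg (eval 0) h
    simp at this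
  · rw [D_z6, C_0, sub_zero, C_1, one_mul]
    simpa using dv3 (X : ℤ[X]) (X + 1) (9 * X + 1) 6 3 1 6 (by norm_num) (by norm_num)
      (by norm_num)

theorem good_z6 : Good (c4p a1_z6 a2_z6 a3_z6) (Dp a1_z6 a2_z6 a3_z6) := by
  have c4e := c4_z6
  have k0 : Good (c4p a1_z6 a2_z6 a3_z6) (X) :=
    good_of (1) (-9 * X ^ 3 - 12 * X ^ 2 - 30 * X - 12) 1 (by rw [c4e]; push_cast; ring)
      (by norm_num)
  have k1 : Good (c4p a1_z6 a2_z6 a3_z6) (X + 1) :=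
    good_of (1) (-9 * X ^ 3 - 3 * X ^ 2 - 27 * X + 15) 16 (by rw [c4e]; push_cast; ring)
      (by norm_num)
  have k2 : Good (c4p a1_z6 a2_z6 a3_z6) (9 * X + 1) :=
    good_of (729) (-729 * X ^ 3 - 891 * X ^ 2 - 2331 * X - 713) 16 (by rw [c4e]; push_cast; ring)
      (by norm_num)
  rw [D_z6]
  exact ((k0.pow 6).mul (k1.pow 3)).mul k2

theorem sd_z6 : SData a1_z6 a2_z6 a3_z6 1 := by
  refine ⟨by norm_num, dt_z6, ?_, ?_, good_z6⟩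
  · rw [c4_z6, coeff_zero_eq_eval_zero]
    simp
  · rw [c4_z6]
    simp [coeff_X, coeff_X_pow, coeff_one]

theorem dt_z7 : DataT a1_z7 a2_z7 a3_z7 2 := by
  refine ⟨?_, ?_, ?_, (X - 1) * (X ^ 3 - 8 * X ^ 2 + 5 * X + 1), 7, ?_, ?_, ?_⟩
  · unfold a1_z7; compute_degree <;> norm_num
  · unfold a2_z7; compute_degree <;> norm_num
  · unfold a3_z7; compute_degree <;> norm_num
  · compute_degree <;> norm_num
  · intro h
    have := congrArg (eval 0) h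
    simp at this
  · rw [D_z7, C_0, sub_zero, C_1, one_mul]
    simpa using dv3 (X : ℤ[X]) (X - 1) (X ^ 3 - 8 * X ^ 2 + 5 * X + 1) 7 7 1 7 (by norm_num)
      (by norm_num) (by norm_num)

theorem good_z7 : Good (c4p a1_z7 a2_z7 a3_z7) (Dp a1_z7 a2_z7 a3_z7) := by
  have c4e := c4_z7
  have k0 : Good (c4p a1_z7 a2_z7 a3_z7) (X) :=
    good_of (1) (-X ^ 7 + 12 * X ^ 6 - 42 * X ^ 5 + 56 * X ^ 4 - 35 * X ^ 3 + 14 * X - 4) 1 (by rw [c4e]; push_cast; ring)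
      (by norm_num)
  have k1 : Good (c4p a1_z7 a2_z7 a3_z7) (X - 1) :=
    good_of (1) (-X ^ 7 + 11 * X ^ 6 - 31 * X ^ 5 + 25 * X ^ 4 - 10 * X ^ 3 - 10 * X ^ 2 + 4 * X) 1 (by rw [c4e]; push_cast; ring)
      (by norm_num)
  have k2 : Good (c4p a1_z7 a2_z7 a3_z7) (X ^ 3 - 8 * X ^ 2 + 5 * X + 1) :=
    good_of (-444 * X ^ 2 + 3005 * X + 1710) (444 * X ^ 7 - 4781 * X ^ 6 + 12530 * X ^ 5 - 6853 * X ^ 4 - 693 * X ^ 3 + 6776 * X ^ 2 - 1540 * X - 1661) 49 (by rw [c4e]; push_cast; ring)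
      (by norm_num)
  rw [D_z7]
  exact ((k0.pow 7).mul (k1.pow 7)).mul k2

theorem sd_z7 : SData a1_z7 a2_z7 a3_z7 2 := by
  refine ⟨by norm_num, dt_z7, ?_, ?_, good_z7⟩
  · rw [c4_z7, coeff_zero_eq_eval_zero]
    simp
  · rw [c4_z7]
    simp [coeff_X, coeff_X_pow, coeff_one]

theorem dt_z8 : DataT a1_z8 a2_z8 a3_z8 2 := by
  refine ⟨?_, ?_, ?_, (X - 1) * (2 * X - 1) * (8 * X ^ 2 - 8 * X + 1), 8, ?_, ?_, ?_⟩
  · unfold a1_z8; compute_degree <;> norm_num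
  · unfold a2_z8; compute_degree <;> norm_num
  · unfold a3_z8; compute_degree <;> norm_num
  · compute_degree <;> norm_num
  · intro h
    have := congrArg (eval 0) h
    simp at this
  · rw [D_z8, C_0, sub_zero, C_1, one_mul]
    simpa using dv4 (X : ℤ[X]) (X - 1) (2 * X - 1) (8 * X ^ 2 - 8 * X + 1) 8 8 4 1 8 (by norm_num)
      (by norm_num) (by norm_num) (by norm_num)

theorem good_z8 : Good (c4p a1_z8 a2_z8 a3_z8) (Dp a1_z8 a2_z8 a3_z8) := by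
  have c4e := c4_z8
  have k0 : Good (c4p a1_z8 a2_z8 a3_z8) (X) :=
    good_of (1) (-16 * X ^ 7 + 64 * X ^ 6 - 224 * X ^ 5 + 448 * X ^ 4 - 480 * X ^ 3 + 288 * X ^ 2 - 96 * X + 16) 1 (by rw [c4e]; push_cast; ring)
      (by norm_num)
  have k1 : Good (c4p a1_z8 a2_z8 a3_z8) (X - 1) :=
    good_of (1) (-16 * X ^ 7 + 48 * X ^ 6 - 176 * X ^ 5 + 272 * X ^ 4 - 208 * X ^ 3 + 80 * X ^ 2 - 16 * X) 1 (by rw [c4e]; push_cast; ring)
      (by norm_num)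
  have k2 : Good (c4p a1_z8 a2_z8 a3_z8) (2 * X - 1) :=
    good_of (16) (-128 * X ^ 7 + 448 * X ^ 6 - 1568 * X ^ 5 + 2800 * X ^ 4 - 2440 * X ^ 3 + 1084 * X ^ 2 - 226 * X + 15) 1 (by rw [c4e]; push_cast; ring)
      (by norm_num)
  have k3 : Good (c4p a1_z8 a2_z8 a3_z8) (8 * X ^ 2 - 8 * X + 1) :=
    good_of (256) (-512 * X ^ 6 + 1536 * X ^ 5 - 5568 * X ^ 4 + 8576 * X ^ 3 - 6088 * X ^ 2 + 2056 * X - 255) 1 (by rw [c4e]; push_cast; ring)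
      (by norm_num)
  rw [D_z8]
  exact (((k0.pow 8).mul (k1.pow 8)).mul (k2.pow 4)).mul k3

theorem sd_z8 : SData a1_z8 a2_z8 a3_z8 2 := by
  refine ⟨by norm_num, dt_z8, ?_, ?_, good_z8⟩
  · rw [c4_z8, coeff_zero_eq_eval_zero]
    simp
  · rw [c4_z8]
    simp [coeff_X, coeff_X_pow, coeff_one]

theorem dt_z9 : DataT a1_z9 a2_z9 a3_z9 3 := by
  refine ⟨?_, ?_, ?_, (X - 1) * (X ^ 2 - X + 1) * (X ^ 3 - 6 * X ^ 2 + 3 * X + 1), 9, ?_, ?_, ?_⟩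
  · unfold a1_z9; compute_degree <;> norm_num
  · unfold a2_z9; compute_degree <;> norm_num
  · unfold a3_z9; compute_degree <;> norm_num
  · compute_degree <;> norm_num
  · intro h
    have := congrArg (eval 0) h
    simp at this
  · rw [D_z9, C_0, sub_zero, C_1, one_mul]
    simpa using dv4 (X : ℤ[X]) (X - 1) (X ^ 2 - X + 1) (X ^ 3 - 6 * X ^ 2 + 3 * X + 1) 9 9 3 1 9
      (by norm_num) (by norm_num) (by norm_num) (by norm_num)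

theorem good_z9 : Good (c4p a1_z9 a2_z9 a3_z9) (Dp a1_z9 a2_z9 a3_z9) := by
  have c4e := c4_z9
  have k0 : Good (c4p a1_z9 a2_z9 a3_z9) (X) :=
    good_of (1) (-X ^ 11 + 12 * X ^ 10 - 54 * X ^ 9 + 128 * X ^ 8 - 189 * X ^ 7 + 180 * X ^ 6 - 114 * X ^ 5 + 36 * X ^ 4 + 18 * X ^ 3 - 28 * X ^ 2 + 12 * X) 1 (by rw [c4e]; push_cast; ring)
      (by norm_num)
  have k1 : Good (c4p a1_z9 a2_z9 a3_z9) (X - 1) :=
    good_of (1) (-X ^ 11 + 11 * X ^ 10 - 43 * X ^ 9 + 85 * X ^ 8 - 104 * X ^ 7 + 76 * X ^ 6 - 38 * X ^ 5 - 2 * X ^ 4 + 16 * X ^ 3 - 12 * X ^ 2) 1 (by rw [c4e]; push_cast; ring)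
      (by norm_num)
  have k2 : Good (c4p a1_z9 a2_z9 a3_z9) (X ^ 2 - X + 1) :=
    good_of (-X) (X ^ 11 - 11 * X ^ 10 + 42 * X ^ 9 - 75 * X ^ 8 + 72 * X ^ 7 - 33 * X ^ 6 + 9 * X ^ 5 + 6 * X ^ 4 - 21 * X ^ 3 + X ^ 2 + 10 * X + 9) 9 (by rw [c4e]; push_cast; ring)
      (by norm_num)
  have k3 : Good (c4p a1_z9 a2_z9 a3_z9) (X ^ 3 - 6 * X ^ 2 + 3 * X + 1) :=
    good_of (-377 * X ^ 2 + 1925 * X + 623) (377 * X ^ 11 - 4187 * X ^ 10 + 16582 * X ^ 9 - 33054 * X ^ 8 + 40128 * X ^ 7 - 28593 * X ^ 6 + 12843 * X ^ 5 + 1827 * X ^ 4 - 7482 * X ^ 3 + 4418 * X ^ 2 - 83 * X - 614) 9 (by rw [c4e]; push_cast; ring)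
      (by norm_num)
  rw [D_z9]
  exact (((k0.pow 9).mul (k1.pow 9)).mul (k2.pow 3)).mul k3

theorem sd_z9 : SData a1_z9 a2_z9 a3_z9 3 := by
  refine ⟨by norm_num, dt_z9, ?_, ?_, good_z9⟩
  · rw [c4_z9, coeff_zero_eq_eval_zero]
    simp
  · rw [c4_z9]
    simp [coeff_X, coeff_X_pow, coeff_one]

theorem dt_z10 : DataT a1_z10 a2_z10 a3_z10 3 := by
  refine ⟨?_, ?_, ?_, (X - 1) * (2 * X - 1) * (X ^ 2 - 3 * X + 1) * (4 * X ^ 2 - 2 * X - 1), 10, ?_, ?_, ?_⟩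
  · unfold a1_z10; compute_degree <;> norm_num
  · unfold a2_z10; compute_degree <;> norm_num
  · unfold a3_z10; compute_degree <;> norm_num
  · compute_degree <;> norm_num
  · intro h
    have := congrArg (eval 0) h
    simp at this
  · rw [D_z10, C_0, sub_zero, C_1, one_mul]
    simpa using dv5 (X : ℤ[X]) (X - 1) (2 * X - 1) (X ^ 2 - 3 * X + 1) (4 * X ^ 2 - 2 * X - 1)
      10 10 5 2 1 10 (by norm_num) (by norm_num) (by norm_num) (by norm_num) (by norm_num)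

theorem good_z10 : Good (c4p a1_z10 a2_z10 a3_z10) (Dp a1_z10 a2_z10 a3_z10) := by
  have c4e := c4_z10
  have k0 : Good (c4p a1_z10 a2_z10 a3_z10) (X) :=
    good_of (1) (-16 * X ^ 11 + 128 * X ^ 10 - 416 * X ^ 9 + 720 * X ^ 8 - 720 * X ^ 7 + 288 * X ^ 6 + 256 * X ^ 5 - 432 * X ^ 4 + 240 * X ^ 3 - 40 * X ^ 2 - 16 * X + 8) 1 (by rw [c4e]; push_cast; ring)
      (by norm_num)
  have k1 : Good (c4p a1_z10 a2_z10 a3_z10) (X - 1) :=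
    good_of (1) (-16 * X ^ 11 + 112 * X ^ 10 - 304 * X ^ 9 + 416 * X ^ 8 - 304 * X ^ 7 - 16 * X ^ 6 + 240 * X ^ 5 - 192 * X ^ 4 + 48 * X ^ 3 + 8 * X ^ 2 - 8 * X) 1 (by rw [c4e]; push_cast; ring)
      (by norm_num)
  have k2 : Good (c4p a1_z10 a2_z10 a3_z10) (2 * X - 1) :=
    good_of (256) (-2048 * X ^ 11 + 15360 * X ^ 10 - 45568 * X ^ 9 + 69376 * X ^ 8 - 57472 * X ^ 7 + 8128 * X ^ 6 + 36832 * X ^ 5 - 36880 * X ^ 4 + 12280 * X ^ 3 + 1020 * X ^ 2 - 1538 * X + 255) 1 (by rw [c4e]; push_cast; ring)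
      (by norm_num)
  have k3 : Good (c4p a1_z10 a2_z10 a3_z10) (X ^ 2 - 3 * X + 1) :=
    good_of (-2584 * X + 6765) (41344 * X ^ 11 - 314960 * X ^ 10 + 954640 * X ^ 9 - 1495840 * X ^ 8 + 1289120 * X ^ 7 - 251792 * X ^ 6 - 757680 * X ^ 5 + 826880 * X ^ 4 - 304320 * X ^ 3 - 12880 * X ^ 2 + 36424 * X - 6760) 5 (by rw [c4e]; push_cast; ring)
      (by norm_num)
  have k4 : Good (c4p a1_z10 a2_z10 a3_z10) (4 * X ^ 2 - 2 * X - 1) :=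
    good_of (4096 * X + 1280) (-16384 * X ^ 11 + 117760 * X ^ 10 - 330240 * X ^ 9 + 468480 * X ^ 8 - 355200 * X ^ 7 + 4032 * X ^ 6 + 267520 * X ^ 5 - 225680 * X ^ 4 + 61560 * X ^ 3 + 10200 * X ^ 2 - 8694 * X + 1275) 5 (by rw [c4e]; push_cast; ring)
      (by norm_num)
  rw [D_z10]
  exact ((((k0.pow 10).mul (k1.pow 10)).mul (k2.pow 5)).mul (k3.pow 2)).mul k4

theorem sd_z10 : SData a1_z10 a2_z10 a3_z10 3 := by
  refine ⟨by norm_num, dt_z10, ?_, ?_, good_z10⟩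
  · rw [c4_z10, coeff_zero_eq_eval_zero]
    simp
  · rw [c4_z10]
    simp [coeff_X, coeff_X_pow, coeff_one]

theorem dt_z12 : DataT a1_z12 a2_z12 a3_z12 4 := by
  refine ⟨?_, ?_, ?_, (X - 1) * (2 * X - 1) * (2 * X ^ 2 - 2 * X + 1) * (3 * X ^ 2 - 3 * X + 1) *
    (6 * X ^ 2 - 6 * X + 1), 12, ?_, ?_, ?_⟩
  · unfold a1_z12; compute_degree <;> norm_num
  · unfold a2_z12; compute_degree <;> norm_num
  · unfold a3_z12; compute_degree <;> norm_num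
  · compute_degree <;> norm_num
  · intro h
    have := congrArg (eval 0) h
    simp at this
  · rw [D_z12, C_0, sub_zero, C_1, one_mul]
    simpa using dv6 (X : ℤ[X]) (X - 1) (2 * X - 1) (2 * X ^ 2 - 2 * X + 1) (3 * X ^ 2 - 3 * X + 1)
      (6 * X ^ 2 - 6 * X + 1) 12 12 6 3 4 1 12 (by norm_num) (by norm_num) (by norm_num)
      (by norm_num) (by norm_num) (by norm_num)

theorem good_z12 : Good (c4p a1_z12 a2_z12 a3_z12) (Dp a1_z12 a2_z12 a3_z12) := by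
  have c4e := c4_z12
  have k0 : Good (c4p a1_z12 a2_z12 a3_z12) (X) :=
    good_of (1) (-144 * X ^ 15 + 1152 * X ^ 14 - 7200 * X ^ 13 + 30240 * X ^ 12 - 84048 * X ^ 11 + 163584 * X ^ 10 - 234000 * X ^ 9 + 253920 * X ^ 8 - 212880 * X ^ 7 + 139008 * X ^ 6 - 70656 * X ^ 5 + 27696 * X ^ 4 - 8208 * X ^ 3 + 1776 * X ^ 2 - 264 * X + 24) 1 (by rw [c4e]; push_cast; ring)
      (by norm_num)
  have k1 : Good (c4p a1_z12 a2_z12 a3_z12) (X - 1) :=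
    good_of (1) (-144 * X ^ 15 + 1008 * X ^ 14 - 6192 * X ^ 13 + 24048 * X ^ 12 - 60000 * X ^ 11 + 103584 * X ^ 10 - 130416 * X ^ 9 + 123504 * X ^ 8 - 89376 * X ^ 7 + 49632 * X ^ 6 - 21024 * X ^ 5 + 6672 * X ^ 4 - 1536 * X ^ 3 + 240 * X ^ 2 - 24 * X) 1 (by rw [c4e]; push_cast; ring)
      (by norm_num)
  have k2 : Good (c4p a1_z12 a2_z12 a3_z12) (2 * X - 1) :=
    good_of (4096) (-294912 * X ^ 15 + 2211840 * X ^ 14 - 13639680 * X ^ 13 + 55111680 * X ^ 12 - 144574464 * X ^ 11 + 262732800 * X ^ 10 - 347865600 * X ^ 9 + 346095360 * X ^ 8 - 262930560 * X ^ 7 + 153223104 * X ^ 6 - 68091936 * X ^ 5 + 22675440 * X ^ 4 - 5472264 * X ^ 3 + 901116 * X ^ 2 - 90114 * X + 4095) 1 (by rw [c4e]; push_cast; ring)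
      (by norm_num)
  have k3 : Good (c4p a1_z12 a2_z12 a3_z12) (2 * X ^ 2 - 2 * X + 1) :=
    good_of (16) (-1152 * X ^ 14 + 8064 * X ^ 13 - 48960 * X ^ 12 + 188928 * X ^ 11 - 458976 * X ^ 10 + 755232 * X ^ 9 - 887280 * X ^ 8 + 766464 * X ^ 7 - 492936 * X ^ 6 + 235896 * X ^ 5 - 82884 * X ^ 4 + 20736 * X ^ 3 - 3486 * X ^ 2 + 354 * X - 15) 1 (by rw [c4e]; push_cast; ring)
      (by norm_num)
  have k4 : Good (c4p a1_z12 a2_z12 a3_z12) (3 * X ^ 2 - 3 * X + 1) :=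
    good_of (729) (-34992 * X ^ 14 + 244944 * X ^ 13 - 1492992 * X ^ 12 + 5773680 * X ^ 11 - 14152320 * X ^ 10 + 23674032 * X ^ 9 - 28470528 * X ^ 8 + 25340688 * X ^ 7 - 16898976 * X ^ 6 + 8433072 * X ^ 5 - 3103344 * X ^ 4 + 815760 * X ^ 3 - 144336 * X ^ 2 + 15312 * X - 728) 1 (by rw [c4e]; push_cast; ring)
      (by norm_num)
  have k5 : Good (c4p a1_z12 a2_z12 a3_z12) (6 * X ^ 2 - 6 * X + 1) :=
    good_of (11664) (-279936 * X ^ 14 + 1959552 * X ^ 13 - 11990592 * X ^ 12 + 46469376 * X ^ 11 - 114921504 * X ^ 10 + 195340896 * X ^ 9 - 240401520 * X ^ 8 + 220662144 * X ^ 7 - 153109656 * X ^ 6 + 80344872 * X ^ 5 - 31492116 * X ^ 4 + 8958096 * X ^ 3 - 1749570 * X ^ 2 + 209958 * X - 11663) 1 (by rw [c4e]; push_cast; ring)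
      (by norm_num)
  rw [D_z12]
  exact (((((k0.pow 12).mul (k1.pow 12)).mul (k2.pow 6)).mul (k3.pow 3)).mul (k4.pow 4)).mul k5

theorem sd_z12 : SData a1_z12 a2_z12 a3_z12 4 := by
  refine ⟨by norm_num, dt_z12, ?_, ?_, good_z12⟩
  · rw [c4_z12, coeff_zero_eq_eval_zero]
    simp
  · rw [c4_z12]
    simp [coeff_X, coeff_X_pow, coeff_one]

theorem dt_z2x8 : DataT a1_z2x8 a2_z2x8 a3_z2x8 4 := by
  refine ⟨?_, ?_, ?_, (X + 1) * (2 * X + 1) * (2 * X ^ 2 - 1) * (2 * X ^ 2 + 2 * X + 1) *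
    (2 * X ^ 2 + 4 * X + 1), 8, ?_, ?_, ?_⟩
  · unfold a1_z2x8; compute_degree <;> norm_num
  · unfold a2_z2x8; compute_degree <;> norm_num
  · unfold a3_z2x8; compute_degree <;> norm_num
  · compute_degree <;> norm_num
  · intro h
    have := congrArg (eval 0) h
    simp at this
  · rw [D_z2x8, C_0, sub_zero, C_1, one_mul]
    exact dv6 (X : ℤ[X]) (X + 1) (2 * X + 1) (2 * X ^ 2 - 1) (2 * X ^ 2 + 2 * X + 1)
      (2 * X ^ 2 + 4 * X + 1) 8 8 8 2 4 2 8 (by norm_num) (by norm_num) (by norm_num)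
      (by norm_num) (by norm_num) (by norm_num)

theorem good_z2x8 : Good (c4p a1_z2x8 a2_z2x8 a3_z2x8) (Dp a1_z2x8 a2_z2x8 a3_z2x8) := by
  have c4e := c4_z2x8
  have k0 : Good (c4p a1_z2x8 a2_z2x8 a3_z2x8) (X) :=
    good_of (1) (-256 * X ^ 15 - 2048 * X ^ 14 - 7168 * X ^ 13 - 14336 * X ^ 12 - 17664 * X ^ 11 - 12800 * X ^ 10 - 3200 * X ^ 9 + 3712 * X ^ 8 + 4624 * X ^ 7 + 1856 * X ^ 6 - 800 * X ^ 5 - 1600 * X ^ 4 - 1104 * X ^ 3 - 448 * X ^ 2 - 112 * X - 16) 1 (by rw [c4e]; push_cast; ring)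
      (by norm_num)
  have k1 : Good (c4p a1_z2x8 a2_z2x8 a3_z2x8) (X + 1) :=
    good_of (1) (-256 * X ^ 15 - 1792 * X ^ 14 - 5376 * X ^ 13 - 8960 * X ^ 12 - 8704 * X ^ 11 - 4096 * X ^ 10 + 896 * X ^ 9 + 2816 * X ^ 8 + 1808 * X ^ 7 + 48 * X ^ 6 - 848 * X ^ 5 - 752 * X ^ 4 - 352 * X ^ 3 - 96 * X ^ 2 - 16 * X) 1 (by rw [c4e]; push_cast; ring)
      (by norm_num)
  have k2 : Good (c4p a1_z2x8 a2_z2x8 a3_z2x8) (2 * X + 1) :=
    good_of (256) (-32768 * X ^ 15 - 245760 * X ^ 14 - 794624 * X ^ 13 - 1437696 * X ^ 12 - 1542144 * X ^ 11 - 867328 * X ^ 10 + 24064 * X ^ 9 + 463104 * X ^ 8 + 360320 * X ^ 7 + 57408 * X ^ 6 - 131104 * X ^ 5 - 139248 * X ^ 4 - 71688 * X ^ 3 - 21500 * X ^ 2 - 3586 * X - 255) 1 (by rw [c4e]; push_cast; ring)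
      (by norm_num)
  have k3 : Good (c4p a1_z2x8 a2_z2x8 a3_z2x8) (2 * X ^ 2 - 1) :=
    good_of (-816 * X + 577) (104448 * X ^ 15 + 761728 * X ^ 14 + 2385920 * X ^ 13 + 4161984 * X ^ 12 + 4263936 * X ^ 11 + 2207328 * X ^ 10 - 255232 * X ^ 9 - 1334032 * X ^ 8 - 943296 * X ^ 7 - 90240 * X ^ 6 + 390208 * X ^ 5 + 376880 * X ^ 4 + 183936 * X ^ 3 + 52720 * X ^ 2 + 8416 * X + 576) 1 (by rw [c4e]; push_cast; ring)
      (by norm_num)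
  have k4 : Good (c4p a1_z2x8 a2_z2x8 a3_z2x8) (2 * X ^ 2 + 2 * X + 1) :=
    good_of (1) (-128 * X ^ 14 - 896 * X ^ 13 - 2624 * X ^ 12 - 4096 * X ^ 11 - 3424 * X ^ 10 - 928 * X ^ 9 + 1040 * X ^ 8 + 1280 * X ^ 7 + 512 * X ^ 6 - 224 * X ^ 5 - 432 * X ^ 4 - 256 * X ^ 3 - 80 * X ^ 2 - 16 * X) 1 (by rw [c4e]; push_cast; ring)
      (by norm_num)
  have k5 : Good (c4p a1_z2x8 a2_z2x8 a3_z2x8) (2 * X ^ 2 + 4 * X + 1) :=
    good_of (816 * X + 1393) (-104448 * X ^ 15 - 804992 * X ^ 14 - 2688768 * X ^ 13 - 5061568 * X ^ 12 - 5724416 * X ^ 11 - 3545760 * X ^ 10 - 267072 * X ^ 9 + 1592720 * X ^ 8 + 1420096 * X ^ 7 + 341312 * X ^ 6 - 426368 * X ^ 5 - 527920 * X ^ 4 - 295808 * X ^ 3 - 96144 * X ^ 2 - 17536 * X - 1392) 1 (by rw [c4e]; push_cast; ring)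
      (by norm_num)
  rw [D_z2x8]
  exact (((((k0.pow 8).mul (k1.pow 8)).mul (k2.pow 8)).mul (k3.pow 2)).mul (k4.pow 4)).mul (k5.pow 2)

theorem sd_z2x8 : SData a1_z2x8 a2_z2x8 a3_z2x8 4 := by
  refine ⟨by norm_num, dt_z2x8, ?_, ?_, good_z2x8⟩
  · rw [c4_z2x8, coeff_zero_eq_eval_zero]
    simp
  · rw [c4_z2x8]
    simp [coeff_X, coeff_X_pow, coeff_one]

noncomputable def a1_n24 : ℤ[X] := 1
noncomputable def a2_n24 : ℤ[X] := -(X + 4 * X ^ 2)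
noncomputable def a3_n24 : ℤ[X] := -(X + 4 * X ^ 2)

theorem c4_n24 : c4p a1_n24 a2_n24 a3_n24 =
    256 * X ^ 4 + 128 * X ^ 3 + 80 * X ^ 2 + 16 * X + 1 := by
  unfold c4p a1_n24 a2_n24 a3_n24
  ring

theorem D_n24 : Dp a1_n24 a2_n24 a3_n24 =
    X ^ 4 * (4 * X + 1) ^ 4 * (8 * X + 1) ^ 2 := by
  unfold Dp a1_n24 a2_n24 a3_n24
  ring

theorem good_n24 : Good (c4p a1_n24 a2_n24 a3_n24) (Dp a1_n24 a2_n24 a3_n24) := by
  have c4e := c4_n24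
  have k0 : Good (c4p a1_n24 a2_n24 a3_n24) (X) :=
    good_of (1) (-256 * X ^ 3 - 128 * X ^ 2 - 80 * X - 16) 1 (by rw [c4e]; push_cast; ring)
      (by norm_num)
  have k1 : Good (c4p a1_n24 a2_n24 a3_n24) (4 * X + 1) :=
    good_of (1) (-64 * X ^ 3 - 16 * X ^ 2 - 16 * X) 1 (by rw [c4e]; push_cast; ring)
      (by norm_num)
  have k2 : Good (c4p a1_n24 a2_n24 a3_n24) (8 * X + 1) :=
    good_of (16) (-512 * X ^ 3 - 192 * X ^ 2 - 136 * X - 15) 1 (by rw [c4e]; push_cast; ring)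
      (by norm_num)
  rw [D_n24]
  exact ((k0.pow 4).mul (k1.pow 4)).mul (k2.pow 2)

theorem dt_n24 : DataT a1_n24 a2_n24 a3_n24 1 := by
  refine ⟨?_, ?_, ?_, (4 * X + 1) * (8 * X + 1), 4, ?_, ?_, ?_⟩
  · unfold a1_n24; compute_degree <;> norm_num
  · unfold a2_n24; compute_degree <;> norm_num
  · unfold a3_n24; compute_degree <;> norm_num
  · compute_degree <;> norm_num
  · intro h
    have := congrArg (eval 0) h
    simp at this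
  · rw [D_n24, C_0, sub_zero, C_1, one_mul]
    exact dv3 (X : ℤ[X]) (4 * X + 1) (8 * X + 1) 4 4 2 4
      (by norm_num) (by norm_num) (by norm_num)

theorem sd_n24 : SData a1_n24 a2_n24 a3_n24 1 := by
  refine ⟨by norm_num, dt_n24, ?_, ?_, good_n24⟩
  · rw [c4_n24, coeff_zero_eq_eval_zero]
    simp
  · rw [c4_n24]
    simp [coeff_X, coeff_X_pow, coeff_one]

noncomputable def a1_n26 : ℤ[X] := 4 * X ^ 2 + 2 * X - 1
noncomputable def a2_n26 : ℤ[X] := 2 * X ^ 2 * (2 * X - 1)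
noncomputable def a3_n26 : ℤ[X] := X ^ 2 * (2 * X - 1) * ((4 * X - 1) * (2 * X + 1))

theorem c4_n26 : c4p a1_n26 a2_n26 a3_n26 =
    256 * X ^ 8 - 512 * X ^ 7 + 256 * X ^ 6 + 64 * X ^ 5 - 80 * X ^ 4 + 16 * X ^ 3 + 16 * X ^ 2 - 8 * X + 1 := by
  unfold c4p a1_n26 a2_n26 a3_n26
  ring

theorem D_n26 : Dp a1_n26 a2_n26 a3_n26 =
    X ^ 6 * (4 * X - 1) ^ 2 * (2 * X + 1) ^ 2 * (2 * X - 1) ^ 6 * (X - 1) ^ 2 := by
  unfold Dp a1_n26 a2_n26 a3_n26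
  ring

theorem good_n26 : Good (c4p a1_n26 a2_n26 a3_n26) (Dp a1_n26 a2_n26 a3_n26) := by
  have c4e := c4_n26
  have k0 : Good (c4p a1_n26 a2_n26 a3_n26) (X) :=
    good_of (1) (-256 * X ^ 7 + 512 * X ^ 6 - 256 * X ^ 5 - 64 * X ^ 4 + 80 * X ^ 3 - 16 * X ^ 2 - 16 * X + 8) 1 (by rw [c4e]; push_cast; ring)
      (by norm_num)
  have k1 : Good (c4p a1_n26 a2_n26 a3_n26) (4 * X - 1) :=
    good_of (256) (-16384 * X ^ 7 + 28672 * X ^ 6 - 9216 * X ^ 5 - 6400 * X ^ 4 + 3520 * X ^ 3 - 144 * X ^ 2 - 1060 * X + 247) 9 (by rw [c4e]; push_cast; ring)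
      (by norm_num)
  have k2 : Good (c4p a1_n26 a2_n26 a3_n26) (2 * X + 1) :=
    good_of (1) (-128 * X ^ 7 + 320 * X ^ 6 - 288 * X ^ 5 + 112 * X ^ 4 - 16 * X ^ 3 - 8 * X + 8) 9 (by rw [c4e]; push_cast; ring)
      (by norm_num)
  have k3 : Good (c4p a1_n26 a2_n26 a3_n26) (2 * X - 1) :=
    good_of (1) (-128 * X ^ 7 + 192 * X ^ 6 - 32 * X ^ 5 - 48 * X ^ 4 + 16 * X ^ 3 - 8 * X) 1 (by rw [c4e]; push_cast; ring)
      (by norm_num)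
  have k4 : Good (c4p a1_n26 a2_n26 a3_n26) (X - 1) :=
    good_of (1) (-256 * X ^ 7 + 256 * X ^ 6 - 64 * X ^ 4 + 16 * X ^ 3 - 16 * X - 8) 9 (by rw [c4e]; push_cast; ring)
      (by norm_num)
  rw [D_n26]
  exact ((((k0.pow 6).mul (k1.pow 2)).mul (k2.pow 2)).mul (k3.pow 6)).mul (k4.pow 2)

theorem dt_n26 : DataT a1_n26 a2_n26 a3_n26 2 := by
  refine ⟨?_, ?_, ?_, (4 * X - 1) * (2 * X + 1) * (2 * X - 1) * (X - 1), 6, ?_, ?_, ?_⟩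
  · unfold a1_n26; compute_degree <;> norm_num
  · unfold a2_n26; compute_degree <;> norm_num
  · unfold a3_n26; compute_degree <;> norm_num
  · compute_degree <;> norm_num
  · intro h
    have := congrArg (eval 0) h
    simp at this
  · rw [D_n26, C_0, sub_zero, C_1, one_mul]
    exact dv5 (X : ℤ[X]) (4 * X - 1) (2 * X + 1) (2 * X - 1) (X - 1) 6 2 2 6 2 6
      (by norm_num) (by norm_num) (by norm_num) (by norm_num) (by norm_num)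

theorem sd_n26 : SData a1_n26 a2_n26 a3_n26 2 := by
  refine ⟨by norm_num, dt_n26, ?_, ?_, good_n26⟩
  · rw [c4_n26, coeff_zero_eq_eval_zero]
    simp
  · rw [c4_n26]
    simp [coeff_X, coeff_X_pow, coeff_one]

end Pool.Agent.H775.SZ
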