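import Pool.Agent.H775.SZ.Pairs

/-!
# Many pairs of coprime integers with a small radical in a given sector, first term divisible
by `210`
-/

set_option autoImplicit false

namespace Pool.Agent.H775.SZ

open Finset

/-- numbers `2310 n + 1` divisible by `d` -/
theorem card_T' (N d : ℕ) :
    ((Icc 1 N).filter (fun n => d ∣ 2310 * n + 1)).card ≤ N / d + 1 := by
  rw [← Finset.card_range (N / d + 1)]
  refine Finset.card_le_card_of_injOn (fun n => n / d) ?_ ?_
  · intro n hn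
    obtain ⟨h1, -⟩ := mem_filter.mp hn
    rw [mem_coe, mem_range]
    exact Nat.lt_succ_of_le (Nat.div_le_div_right (mem_Icc.mp h1).2)
  · intro n hn n' hn' h
    obtain ⟨-, h1⟩ := mem_filter.mp hn
    obtain ⟨-, h2⟩ := mem_filter.mp hn'
    have hc : Nat.gcd d 2310 = 1 := by
      have e1 : Nat.gcd d 2310 ∣ 2310 * n + 1 := (Nat.gcd_dvd_left d 2310).trans h1
      have e2 : Nat.gcd d 2310 ∣ 2310 * n := (Nat.gcd_dvd_right d 2310).mul_right n
      exact Nat.dvd_one.mp ((Nat.dvd_add_right e2).mp e1)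
    have h3 : 2310 * n + 1 ≡ 2310 * n' + 1 [MOD d] :=
      (Nat.modEq_zero_iff_dvd.mpr h1).trans (Nat.modEq_zero_iff_dvd.mpr h2).symm
    have h4 : 2310 * n ≡ 2310 * n' [MOD d] := Nat.ModEq.add_right_cancel' 1 h3
    have h5 : n ≡ n' [MOD d] := Nat.ModEq.cancel_left_of_coprime hc h4
    have h6 : n % d = n' % d := h5
    have h7 : n / d = n' / d := h
    rw [← Nat.div_add_mod n d, ← Nat.div_add_mod n' d, h6, h7]

/-- the number of coprime pairs -/
theorem cop_count' (N : ℕ) (hN : 20000 ≤ N) : (N : ℝ) ^ 2 / 4 ≤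
    (((Icc 1 N ×ˢ Icc 1 N).filter
      (fun x => Nat.Coprime (2310 * x.1 + 1) (2310 * x.2 + 1))).card : ℝ) := by
  classical
  set S := Icc 1 N ×ˢ Icc 1 N with hS
  have hcard : S.card = N * N := by
    rw [hS, card_product, Nat.card_Icc]
    simp
  set bad := S.filter (fun x => ¬ Nat.Coprime (2310 * x.1 + 1) (2310 * x.2 + 1)) with hbad
  have hsplit := Finset.card_filter_add_card_filter_not (s := S)
    (fun x => Nat.Coprime (2310 * x.1 + 1) (2310 * x.2 + 1))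
  have hb : (bad.card : ℝ) ≤ (N : ℝ) ^ 2 / 2 + 4620 * N := by
    have hsub : bad ⊆ (Icc 5 (2310 * N + 1)).biUnion (fun d =>
        (Icc 1 N).filter (fun n => d ∣ 2310 * n + 1) ×ˢ
          (Icc 1 N).filter (fun n => d ∣ 2310 * n + 1)) := by
      intro x hx
      obtain ⟨h1, h2⟩ := mem_filter.mp hx
      obtain ⟨h3, h4⟩ := mem_product.mp h1
      set g := Nat.gcd (2310 * x.1 + 1) (2310 * x.2 + 1) with hg
      have g1 : g ∣ 2310 * x.1 + 1 := Nat.gcd_dvd_left _ _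
      have g2 : g ∣ 2310 * x.2 + 1 := Nat.gcd_dvd_right _ _
      have g3 : g ≠ 1 := h2
      have g0 : g ≠ 0 := by
        intro h0
        rw [h0] at g1
        have := Nat.eq_zero_of_zero_dvd g1
        omega
      have hc : Nat.gcd g 2310 = 1 := by
        have e1 : Nat.gcd g 2310 ∣ 2310 * x.1 + 1 := (Nat.gcd_dvd_left g 2310).trans g1
        have e2 : Nat.gcd g 2310 ∣ 2310 * x.1 := (Nat.gcd_dvd_right g 2310).mul_right _
        exact Nat.dvd_one.mp ((Nat.dvd_add_right e2).mp e1)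
      have g5 : 5 ≤ g := by
        by_contra hlt
        push Not at hlt
        interval_cases g
        · exact g0 rfl
        · exact g3 rfl
        · norm_num at hc
        · norm_num at hc
        · norm_num at hc
      have g6 : g ≤ 2310 * N + 1 := by
        have := Nat.le_of_dvd (by omega) g1
        have := (mem_Icc.mp h3).2
        omega
      rw [mem_biUnion]
      exact ⟨g, mem_Icc.mpr ⟨g5, g6⟩, mem_product.mpr ⟨mem_filter.mpr ⟨h3, g1⟩,
        mem_filter.mpr ⟨h4, g2⟩⟩⟩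
    have h1 : bad.card ≤ ∑ d ∈ Icc 5 (2310 * N + 1), (N / d + 1) * (N / d + 1) := by
      refine (card_le_card hsub).trans (card_biUnion_le.trans (sum_le_sum fun d _ => ?_))
      rw [card_product]
      exact Nat.mul_le_mul (card_T' N d) (card_T' N d)
    have h2 : ((∑ d ∈ Icc 5 (2310 * N + 1), (N / d + 1) * (N / d + 1) : ℕ) : ℝ) ≤
        ∑ d ∈ Icc 5 (2310 * N + 1), (2 * (N : ℝ) ^ 2 * (1 / (d : ℝ) ^ 2) + 2) := by
      push_cast
      refine sum_le_sum fun d hd => ?_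
      have hd0 : (0 : ℝ) < d := by
        have := (mem_Icc.mp hd).1
        exact_mod_cast (by omega : 0 < d)
      have e1 : ((N / d : ℕ) : ℝ) ≤ (N : ℝ) / d := Nat.cast_div_le
      have e0 : (0 : ℝ) ≤ ((N / d : ℕ) : ℝ) := Nat.cast_nonneg _
      have e2 : 2 * (N : ℝ) ^ 2 * (1 / (d : ℝ) ^ 2) = 2 * ((N : ℝ) / d) ^ 2 := by
        rw [div_pow]
        ring
      rw [e2]
      nlinarith [sq_nonneg (((N / d : ℕ) : ℝ) - 1)]
    have h3 : ∑ d ∈ Icc 5 (2310 * N + 1), (2 * (N : ℝ) ^ 2 * (1 / (d : ℝ) ^ 2) + 2) ≤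
        (N : ℝ) ^ 2 / 2 + 4620 * N := by
      rw [sum_add_distrib, ← mul_sum, sum_const, Nat.card_Icc, nsmul_eq_mul]
      have e1 := sum_sq (2310 * N + 1) (by omega)
      have e2 : (0 : ℝ) ≤ 1 / ((2310 * N + 1 : ℕ) : ℝ) := by positivity
      have e3 : ∑ d ∈ Icc 5 (2310 * N + 1), 1 / (d : ℝ) ^ 2 ≤ 1 / 4 := by linarith
      have e4 : (((2310 * N + 1 + 1 - 5 : ℕ) : ℝ)) ≤ 2310 * N := by
        have : 2310 * N + 1 + 1 - 5 ≤ 2310 * N := by omega
        exact_mod_cast this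
      have e5 : (0 : ℝ) ≤ 2 * (N : ℝ) ^ 2 := by positivity
      nlinarith [mul_le_mul_of_nonneg_left e3 e5]
    exact ((by exact_mod_cast h1 : (bad.card : ℝ) ≤ ((∑ d ∈ Icc 5 (2310 * N + 1),
      (N / d + 1) * (N / d + 1) : ℕ) : ℝ)).trans h2).trans h3
  have hs : ((S.filter (fun x => Nat.Coprime (2310 * x.1 + 1) (2310 * x.2 + 1))).card : ℝ) +
      (bad.card : ℝ) = (N : ℝ) * N := by
    rw [hcard] at hsplit
    exact_mod_cast hsplit
  have hN' : (20000 : ℝ) ≤ N := by exact_mod_cast hN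
  nlinarith

/-- **Pairs.** -/
theorem pairs' (θ δ c0 : ℝ) (h0 : 0 < θ) (h2 : θ < 2) (hδ : 0 < δ) (hδ1 : δ ≤ 1) (hc0 : 0 < c0) :
    ∃ c1 : ℝ, 0 < c1 ∧ ∃ Y0 : ℝ, 1 ≤ Y0 ∧ ∀ Y : ℝ, Y0 ≤ Y → ∃ S : Finset (ℕ × ℕ),
      (∀ x ∈ S, 210 ∣ x.1 ∧ 0 < x.1 ∧ 0 < x.2 ∧ Nat.Coprime x.1 x.2 ∧ δ * x.2 / 4 ≤ x.1 ∧
        (x.1 : ℝ) ≤ δ * x.2 / 2 ∧ Y / 11 ≤ x.2 ∧ (x.2 : ℝ) ≤ Y ∧
        (rd x.1 : ℝ) * rd x.2 ≤ c0 * Y ^ θ) ∧ c1 * Y ^ θ ≤ S.card := by
  classical
  set η : ℝ := min 1 (c0 / 30000000000) with hη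
  have hη0 : 0 < η := lt_min one_pos (by positivity)
  have hη1 : η ≤ 1 := min_le_left _ _
  have hη2 : 30000000000 * η ≤ c0 := by
    have := min_le_right (1 : ℝ) (c0 / 30000000000)
    rw [← hη] at this
    linarith
  -- large `Y`
  have hlarge : ∃ Y0 : ℝ, 1 ≤ Y0 ∧ ∀ Y : ℝ, Y0 ≤ Y → 50000 ≤ η * Y ^ (θ / 2) ∧
      11000000 * Y ^ (θ / 2) ≤ δ * Y := by
    have t1 : Filter.Tendsto (fun Y : ℝ => η * Y ^ (θ / 2)) Filter.atTop Filter.atTop :=
      (tendsto_rpow_atTop (by positivity : 0 < θ / 2)).const_mul_atTop hη0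
    have t2 : Filter.Tendsto (fun Y : ℝ => δ * Y ^ (1 - θ / 2)) Filter.atTop Filter.atTop :=
      (tendsto_rpow_atTop (by linarith : 0 < 1 - θ / 2)).const_mul_atTop hδ
    have := ((t1.eventually_ge_atTop 50000).and (t2.eventually_ge_atTop 11000000)).and
      (Filter.eventually_ge_atTop (1 : ℝ))
    obtain ⟨Y1, hY1⟩ := Filter.eventually_atTop.mp this
    refine ⟨max Y1 1, le_max_right _ _, fun Y hY => ?_⟩
    obtain ⟨⟨a1, a2⟩, a3⟩ := hY1 Y (le_trans (le_max_left _ _) hY)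
    refine ⟨a1, ?_⟩
    have hY0 : 0 < Y := by linarith
    have e1 : Y = Y ^ (1 - θ / 2) * Y ^ (θ / 2) := by
      rw [← Real.rpow_add hY0]
      have : 1 - θ / 2 + θ / 2 = 1 := by ring
      rw [this, Real.rpow_one]
    have e2 : 0 ≤ Y ^ (θ / 2) := Real.rpow_nonneg hY0.le _
    calc 11000000 * Y ^ (θ / 2) ≤ (δ * Y ^ (1 - θ / 2)) * Y ^ (θ / 2) := by gcongr
      _ = δ * (Y ^ (1 - θ / 2) * Y ^ (θ / 2)) := by ring
      _ = δ * Y := by rw [← e1]
  obtain ⟨Y0, hY01, hY0⟩ := hlarge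
  refine ⟨η ^ 2 / 16, by positivity, Y0, hY01, fun Y hY => ?_⟩
  obtain ⟨b1, b2⟩ := hY0 Y hY
  have hYp : 0 < Y := by linarith
  set P : ℝ := Y ^ (θ / 2) with hP
  have hP0 : 0 ≤ P := Real.rpow_nonneg hYp.le _
  have hPP : P * P = Y ^ θ := by
    rw [hP, ← Real.rpow_add hYp]
    congr 1
    ring
  set N : ℕ := ⌊η * P⌋₊ with hN
  have hN1 : (N : ℝ) ≤ η * P := Nat.floor_le (by positivity)
  have hN2 : η * P < N + 1 := Nat.lt_floor_add_one _
  have hN48 : 20000 ≤ N := by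
    have : (20000 : ℝ) < N + 1 := by linarith
    have h3 : (20000 : ℕ) < N + 1 := by exact_mod_cast this
    omega
  have hNP : (N : ℝ) ≤ P := hN1.trans (mul_le_of_le_one_left hP0 hη1)
  -- the exponents
  have hm : ∀ n : ℕ, n ≤ N → ((2310 * n + 1 : ℕ) : ℝ) ≤ 2311 * N := by
    intro n hn
    have : 2310 * n + 1 ≤ 2311 * N := by omega
    exact_mod_cast this
  have hq : ∀ n : ℕ, n ≤ N → ∃ b : ℕ, Y / 11 ≤ ((11 ^ b * (2310 * n + 1) : ℕ) : ℝ) ∧
      ((11 ^ b * (2310 * n + 1) : ℕ) : ℝ) ≤ Y := by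
    intro n hn
    have e0 : (0 : ℝ) < ((2310 * n + 1 : ℕ) : ℝ) := by positivity
    have e1 : (1 : ℝ) ≤ Y / ((2310 * n + 1 : ℕ) : ℝ) := by
      rw [le_div_iff₀ e0, one_mul]
      have := hm n hn
      nlinarith
    obtain ⟨b, e2, e3⟩ := exists_nat_pow_near e1 (by norm_num : (1 : ℝ) < 11)
    refine ⟨b, ?_, ?_⟩
    · rw [div_lt_iff₀ e0] at e3
      push_cast
      push_cast at e3
      have : (11 : ℝ) ^ (b + 1) = 11 * 11 ^ b := by ring
      rw [this] at e3
      linarith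
    · rw [le_div_iff₀ e0] at e2
      push_cast
      push_cast at e2
      linarith
  choose! fb hb1 hb2 using hq
  have hp : ∀ n n' : ℕ, n ≤ N → n' ≤ N → ∃ a : ℕ,
      δ * ((11 ^ fb n' * (2310 * n' + 1) : ℕ) : ℝ) / 4 ≤
        ((210 * (2 ^ a * (2310 * n + 1)) : ℕ) : ℝ) ∧
      ((210 * (2 ^ a * (2310 * n + 1)) : ℕ) : ℝ) ≤
        δ * ((11 ^ fb n' * (2310 * n' + 1) : ℕ) : ℝ) / 2 := by
    intro n n' hn hn'
    set q : ℝ := ((11 ^ fb n' * (2310 * n' + 1) : ℕ) : ℝ) with hq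
    have e0 : (0 : ℝ) < ((210 * (2310 * n + 1) : ℕ) : ℝ) := by positivity
    have hqY := hb1 n' hn'
    rw [← hq] at hqY
    have e1 : (1 : ℝ) ≤ δ * q / 2 / ((210 * (2310 * n + 1) : ℕ) : ℝ) := by
      rw [le_div_iff₀ e0, one_mul]
      have := hm n hn
      push_cast at this ⊢
      nlinarith
    obtain ⟨a, e2, e3⟩ := exists_nat_pow_near e1 (by norm_num : (1 : ℝ) < 2)
    refine ⟨a, ?_, ?_⟩
    · rw [div_lt_iff₀ e0] at e3
      push_cast
      push_cast at e3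
      have : (2 : ℝ) ^ (a + 1) = 2 * 2 ^ a := by ring
      rw [this] at e3
      linarith
    · rw [le_div_iff₀ e0] at e2
      push_cast
      push_cast at e2
      linarith
  choose! fa ha1 ha2 using hp
  let φ : ℕ × ℕ → ℕ × ℕ := fun x =>
    (210 * (2 ^ fa x.1 x.2 * (2310 * x.1 + 1)), 11 ^ fb x.2 * (2310 * x.2 + 1))
  set G := (Icc 1 N ×ˢ Icc 1 N).filter
    (fun x => Nat.Coprime (2310 * x.1 + 1) (2310 * x.2 + 1)) with hG
  have hinj : Set.InjOn φ (G : Set (ℕ × ℕ)) := by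
    rintro ⟨n, n'⟩ - ⟨m, m'⟩ - h
    simp only [φ, Prod.mk.injEq] at h
    obtain ⟨h1, h2⟩ := h
    have e1 := strip (by norm_num) (Nat.eq_of_mul_eq_mul_left (by norm_num) h1) (by omega)
      (by omega)
    have e2 := strip (by norm_num) h2 (by omega) (by omega)
    ext <;> simp only <;> omega
  refine ⟨G.image φ, ?_, ?_⟩
  · intro y hy
    obtain ⟨⟨n, n'⟩, hx, rfl⟩ := mem_image.mp hy
    obtain ⟨hx1, hx2⟩ := mem_filter.mp hx
    obtain ⟨hx3, hx4⟩ := mem_product.mp hx1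
    have hn := (mem_Icc.mp hx3).2
    have hn' := (mem_Icc.mp hx4).2
    simp only at hn hn' hx2
    refine ⟨⟨_, rfl⟩, by positivity, by positivity, ?_, ha1 n n' hn hn', ha2 n n' hn hn',
      hb1 n' hn', hb2 n' hn', ?_⟩
    · change Nat.Coprime (210 * (2 ^ fa n n' * (2310 * n + 1))) (11 ^ fb n' * (2310 * n' + 1))
      have c0 : Nat.Coprime 2310 (2310 * n' + 1) := by
        rw [Nat.coprime_mul_left_add_right]
        norm_num
      have c1 : Nat.Coprime 2 (2310 * n' + 1) := Nat.Coprime.coprime_dvd_left (by norm_num) c0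
      have c4 : Nat.Coprime 210 (2310 * n' + 1) := Nat.Coprime.coprime_dvd_left (by norm_num) c0
      have c2 : Nat.Coprime (2310 * n + 1) 11 := by
        rw [Nat.coprime_comm]
        refine Nat.Coprime.coprime_dvd_left (by norm_num : 11 ∣ 2310) ?_
        rw [Nat.coprime_mul_left_add_right]
        norm_num
      have c3 : Nat.Coprime 2 11 := by norm_num
      have c5 : Nat.Coprime 210 11 := by norm_num
      exact Nat.Coprime.mul_left
        (Nat.Coprime.mul_right (Nat.Coprime.pow_right _ c5) c4)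
        (Nat.Coprime.mul_left
          (Nat.Coprime.mul_right (Nat.Coprime.pow _ _ c3) (Nat.Coprime.pow_left _ c1))
          (Nat.Coprime.mul_right (Nat.Coprime.pow_right _ c2) hx2))
    · have r0 : rd 210 ≤ 210 := rd_le (by norm_num)
      have r1 : rd (210 * (2 ^ fa n n' * (2310 * n + 1))) ≤ 210 * (2 * (2310 * n + 1)) :=
        (rd_mul_le (by norm_num) (by positivity)).trans
          (Nat.mul_le_mul r0 (rd_pow_mul Nat.prime_two (by omega)))
      have r2 : rd (11 ^ fb n' * (2310 * n' + 1)) ≤ 11 * (2310 * n' + 1) :=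
        rd_pow_mul (by norm_num) (by omega)
      have r3 : (rd (210 * (2 ^ fa n n' * (2310 * n + 1))) : ℝ) ≤ 420 * (2311 * N) := by
        have : (rd (210 * (2 ^ fa n n' * (2310 * n + 1))) : ℝ) ≤
            ((210 * (2 * (2310 * n + 1)) : ℕ) : ℝ) := by
          exact_mod_cast r1
        have h5 := hm n hn
        push_cast at this h5
        linarith
      have r4 : (rd (11 ^ fb n' * (2310 * n' + 1)) : ℝ) ≤ 11 * (2311 * N) := by
        have : (rd (11 ^ fb n' * (2310 * n' + 1)) : ℝ) ≤ ((11 * (2310 * n' + 1) : ℕ) : ℝ) := by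
          exact_mod_cast r2
        have h5 := hm n' hn'
        push_cast at this h5
        linarith
      change (rd (210 * (2 ^ fa n n' * (2310 * n + 1))) : ℝ) *
        (rd (11 ^ fb n' * (2310 * n' + 1)) : ℝ) ≤ _
      have hN0 : (0 : ℝ) ≤ N := Nat.cast_nonneg _
      calc (rd (210 * (2 ^ fa n n' * (2310 * n + 1))) : ℝ) *
            (rd (11 ^ fb n' * (2310 * n' + 1)) : ℝ) ≤
            (420 * (2311 * N)) * (11 * (2311 * N)) := by gcongr
        _ ≤ 30000000000 * (N * N) := by nlinarith [mul_nonneg hN0 hN0]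
        _ ≤ 30000000000 * ((η * P) * P) := by gcongr
        _ = (30000000000 * η) * (P * P) := by ring
        _ ≤ c0 * (P * P) := by gcongr
        _ = c0 * Y ^ θ := by rw [hPP]
  · rw [Finset.card_image_of_injOn hinj]
    refine le_trans ?_ (cop_count' N hN48)
    rw [← hPP]
    have h3 : η * P / 2 ≤ N := by linarith
    have h4 : (0 : ℝ) ≤ η * P / 2 := by positivity
    nlinarith

end Pool.Agent.H775.SZ
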