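import Pool.Agent.H775.SZ.Scaled

/-!
# The upper bound in terms of the height
-/

set_option autoImplicit false

namespace Pool.Agent.H775.SZ

open Finset Polynomial Pool.Agent.TH498.KB

theorem rad5_le_condW (W : WeierstrassCurve ℤ) : rad5 W.Δ ≤ Pool.Agent.H39R3.condW W := by
  unfold rad5 Pool.Agent.H39R3.condW
  refine Finset.prod_le_prod' fun p hp => ?_
  have h1 := (Nat.prime_of_mem_primeFactors (mem_filter.mp hp).1).one_le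
  split_ifs
  · nlinarith
  · exact le_rfl

theorem max_ge (W : WeierstrassCurve ℤ) :
    864 * |(W.Δ : ℝ)| ≤ max (|(W.c₄ : ℝ)| ^ 3) ((W.c₆ : ℝ) ^ 2) := by
  have h1 : (1728 : ℝ) * (W.Δ : ℝ) = (W.c₄ : ℝ) ^ 3 - (W.c₆ : ℝ) ^ 2 := by
    exact_mod_cast W.c_relation
  have h2 : 1728 * |(W.Δ : ℝ)| = |(W.c₄ : ℝ) ^ 3 - (W.c₆ : ℝ) ^ 2| := by
    rw [← h1, abs_mul]
    norm_num
  have h3 : |(W.c₄ : ℝ) ^ 3 - (W.c₆ : ℝ) ^ 2| ≤ |(W.c₄ : ℝ)| ^ 3 + (W.c₆ : ℝ) ^ 2 := by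
    refine (abs_sub _ _).trans ?_
    rw [abs_pow, abs_of_nonneg (sq_nonneg (W.c₆ : ℝ))]
  have h4 := le_max_left (|(W.c₄ : ℝ)| ^ 3) ((W.c₆ : ℝ) ^ 2)
  have h5 := le_max_right (|(W.c₄ : ℝ)| ^ 3) ((W.c₆ : ℝ) ^ 2)
  linarith

theorem up_height (a1 a2 a3 : ℤ[X]) (k w L e : ℕ)
    (hF : Fam (27 * c4p a1 a2 a3) (54 * c6p a1 a2 a3) k w L) (he : L + 2 * w = e) (κ K ε : ℝ)
    (hκ : 0 < κ) (hK : 0 < K) (hε : 0 < ε) :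
    ∃ C : ℝ, 0 < C ∧ ∀ X : ℝ, 1 ≤ X → ∀ S : Set (ℤ × ℤ),
      (∀ q ∈ S, ∃ W : WeierstrassCurve ℤ, Pool.Agent.H39R3.GMin W ∧
        (∃ (t : ℚ) (D : WeierstrassCurve.VariableChange ℚ),
          D • crv a1 a2 a3 t = W.map (Int.castRingHom ℚ)) ∧ q = (W.c₄, W.c₆) ∧
        max (|(W.c₄ : ℝ)| ^ 3) ((W.c₆ : ℝ) ^ 2) ≤ X ∧
        K * (Pool.Agent.H39R3.condW W : ℝ) ^ κ < max (|(W.c₄ : ℝ)| ^ 3) ((W.c₆ : ℝ) ^ 2)) →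
      S.Finite ∧ (S.ncard : ℝ) ≤ C * X ^ (2 / (κ * (e : ℝ)) + ε) := by
  obtain ⟨C, hC, h⟩ := kub_inv a1 a2 a3 k w L e hF he (crv a1 a2 a3) (fun _ => rfl) κ K (6 * ε)
    hκ hK (by positivity)
  refine ⟨C * 2 ^ (12 / (κ * (e : ℝ)) + 6 * ε), by positivity, fun X hX S hS => ?_⟩
  have hX0 : 0 < X := by linarith
  have hx1 : (1 : ℝ) ≤ X ^ (1 / 6 : ℝ) := Real.one_le_rpow hX (by norm_num)
  set n : ℕ := ⌈X ^ (1 / 6 : ℝ)⌉₊ with hn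
  have hn1 : 1 ≤ n := by
    have : (1 : ℝ) ≤ n := hx1.trans (Nat.le_ceil _)
    exact_mod_cast this
  have h6 : (X ^ (1 / 6 : ℝ)) ^ 6 = X := by
    rw [← Real.rpow_natCast, ← Real.rpow_mul hX0.le]
    norm_num
  have hnX : X ≤ (n : ℝ) ^ 6 := by
    calc X = (X ^ (1 / 6 : ℝ)) ^ 6 := h6.symm
      _ ≤ (n : ℝ) ^ 6 := by gcongr; exact Nat.le_ceil _
  have hn2 : (n : ℝ) ≤ 2 * X ^ (1 / 6 : ℝ) := by
    have := Nat.ceil_lt_add_one (a := X ^ (1 / 6 : ℝ)) (by positivity)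
    linarith
  obtain ⟨f1, f2⟩ := h n hn1 S (by
    intro q hq
    obtain ⟨W, g1, g2, g3, g4, g5⟩ := hS q hq
    refine ⟨W, g1.1, prim_of_gmin W g1, g2, g3, ?_, ?_, ?_⟩
    · have : |(W.c₄ : ℝ)| ^ 3 ≤ (n : ℝ) ^ 6 := (le_max_left _ _).trans (g4.trans hnX)
      exact_mod_cast this
    · have : (W.c₆ : ℝ) ^ 2 ≤ (n : ℝ) ^ 6 := (le_max_right _ _).trans (g4.trans hnX)
      exact_mod_cast this
    · have e1 : (rad5 W.Δ : ℝ) ≤ (Pool.Agent.H39R3.condW W : ℝ) := by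
        exact_mod_cast rad5_le_condW W
      calc K * (rad5 W.Δ : ℝ) ^ κ ≤ K * (Pool.Agent.H39R3.condW W : ℝ) ^ κ := by gcongr
        _ ≤ _ := g5.le
        _ ≤ X := g4
        _ ≤ _ := hnX)
  refine ⟨f1, f2.trans ?_⟩
  have e2 : 0 ≤ 12 / (κ * (e : ℝ)) + 6 * ε := by positivity
  calc C * (n : ℝ) ^ (12 / (κ * (e : ℝ)) + 6 * ε)
      ≤ C * (2 * X ^ (1 / 6 : ℝ)) ^ (12 / (κ * (e : ℝ)) + 6 * ε) := by gcongr
    _ = C * 2 ^ (12 / (κ * (e : ℝ)) + 6 * ε) * X ^ (2 / (κ * (e : ℝ)) + ε) := by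
        rw [Real.mul_rpow (by norm_num) (by positivity), ← Real.rpow_mul hX0.le]
        have e3 : (1 / 6 : ℝ) * (12 / (κ * (e : ℝ)) + 6 * ε) = 2 / (κ * (e : ℝ)) + ε := by
          ring
        rw [e3]
        ring

end Pool.Agent.H775.SZ
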