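import Pool.Agent.H775.SZ.SemiData
import Pool.Agent.H775.SZ.SemiPairs
import Pool.Agent.H775.SZ.Upper

/-!
# Many semistable members of a family violate Szpiro's inequality with an exponent below six
-/

set_option autoImplicit false

namespace Pool.Agent.H775.SZ

open Finset Polynomial Pool.Agent.W4.CF Pool.Agent.W4.VC Pool.Agent.TH498.KB

theorem c4p_deg (a1 a2 a3 : ℤ[X]) (k : ℕ) (h1 : a1.natDegree ≤ k) (h2 : a2.natDegree ≤ 2 * k)
    (h3 : a3.natDegree ≤ 3 * k) : (c4p a1 a2 a3).natDegree ≤ 4 * k := by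
  have e2 : (a1 ^ 2 + 4 * a2).natDegree ≤ 2 * k :=
    natDegree_add_le_of_degree_le (natDegree_pow_le_of_le 2 h1)
      ((natDegree_mul_le_of_le (natDegree_ofNat 4).le h2).trans (by omega))
  have e3 : (24 * (a1 * a3)).natDegree ≤ 4 * k :=
    (natDegree_mul_le_of_le (natDegree_ofNat 24).le (natDegree_mul_le_of_le h1 h3)).trans
      (by omega)
  unfold c4p
  refine (natDegree_sub_le_of_le (natDegree_pow_le_of_le 2 e2) e3).trans ?_
  omega

theorem c6p_deg (a1 a2 a3 : ℤ[X]) (k : ℕ) (h1 : a1.natDegree ≤ k) (h2 : a2.natDegree ≤ 2 * k)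
    (h3 : a3.natDegree ≤ 3 * k) : (c6p a1 a2 a3).natDegree ≤ 6 * k := by
  have e2 : (a1 ^ 2 + 4 * a2).natDegree ≤ 2 * k :=
    natDegree_add_le_of_degree_le (natDegree_pow_le_of_le 2 h1)
      ((natDegree_mul_le_of_le (natDegree_ofNat 4).le h2).trans (by omega))
  have e3 : (-(a1 ^ 2 + 4 * a2) ^ 3).natDegree ≤ 6 * k := by
    rw [natDegree_neg]
    exact (natDegree_pow_le_of_le 3 e2).trans (by omega)
  have e4 : (36 * (a1 ^ 2 + 4 * a2) * (a1 * a3)).natDegree ≤ 6 * k :=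
    (natDegree_mul_le_of_le (natDegree_mul_le_of_le (natDegree_ofNat 36).le e2)
      (natDegree_mul_le_of_le h1 h3)).trans (by omega)
  have e5 : (216 * a3 ^ 2).natDegree ≤ 6 * k :=
    (natDegree_mul_le_of_le (natDegree_ofNat 216).le (natDegree_pow_le_of_le 2 h3)).trans
      (by omega)
  unfold c6p
  refine (natDegree_sub_le_of_le (natDegree_add_le_of_degree_le e3 e4) e5).trans ?_
  omega

theorem Dp_deg' (a1 a2 a3 : ℤ[X]) (k : ℕ) (h1 : a1.natDegree ≤ k) (h2 : a2.natDegree ≤ 2 * k)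
    (h3 : a3.natDegree ≤ 3 * k) : (Dp a1 a2 a3).natDegree ≤ 12 * k := by
  refine Dp_deg a1 a2 a3 k ?_ ?_
  · exact (natDegree_mul_le_of_le (natDegree_ofNat 27).le
      (c4p_deg a1 a2 a3 k h1 h2 h3)).trans (by omega)
  · exact (natDegree_mul_le_of_le (natDegree_ofNat 54).le
      (c6p_deg a1 a2 a3 k h1 h2 h3)).trans (by omega)

/-- the integral model -/
def V0 (a1 a2 a3 : ℤ[X]) (k : ℕ) (p q : ℤ) : WeierstrassCurve ℤ :=
  ⟨hom a1 k p q, hom a2 (2 * k) p q, hom a3 (3 * k) p q, 0, 0⟩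

theorem V0_c4 (a1 a2 a3 : ℤ[X]) (k : ℕ) (h1 : a1.natDegree ≤ k) (h2 : a2.natDegree ≤ 2 * k)
    (h3 : a3.natDegree ≤ 3 * k) (p q : ℤ) (hq : (q : ℚ) ≠ 0) :
    (V0 a1 a2 a3 k p q).c₄ = hom (c4p a1 a2 a3) (4 * k) p q := by
  have e1 := hom_eval a1 k h1 p q hq
  have e2 := hom_eval a2 (2 * k) h2 p q hq
  have e3 := hom_eval a3 (3 * k) h3 p q hq
  have e4 := hom_eval _ (4 * k) (c4p_deg a1 a2 a3 k h1 h2 h3) p q hq
  have : (((V0 a1 a2 a3 k p q).c₄ : ℤ) : ℚ) = ((hom (c4p a1 a2 a3) (4 * k) p q : ℤ) : ℚ) := by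
    rw [e4]
    simp only [V0, WeierstrassCurve.c₄, WeierstrassCurve.b₂, WeierstrassCurve.b₄]
    push_cast
    rw [e1, e2, e3]
    unfold c4p
    simp only [Polynomial.map_sub, Polynomial.map_mul, Polynomial.map_pow, Polynomial.map_add,
      Polynomial.map_ofNat, eval_sub, eval_mul, eval_pow, eval_add, eval_ofNat]
    ring
  exact_mod_cast this

theorem V0_c6 (a1 a2 a3 : ℤ[X]) (k : ℕ) (h1 : a1.natDegree ≤ k) (h2 : a2.natDegree ≤ 2 * k)
    (h3 : a3.natDegree ≤ 3 * k) (p q : ℤ) (hq : (q : ℚ) ≠ 0) :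
    (V0 a1 a2 a3 k p q).c₆ = hom (c6p a1 a2 a3) (6 * k) p q := by
  have e1 := hom_eval a1 k h1 p q hq
  have e2 := hom_eval a2 (2 * k) h2 p q hq
  have e3 := hom_eval a3 (3 * k) h3 p q hq
  have e4 := hom_eval _ (6 * k) (c6p_deg a1 a2 a3 k h1 h2 h3) p q hq
  have : (((V0 a1 a2 a3 k p q).c₆ : ℤ) : ℚ) = ((hom (c6p a1 a2 a3) (6 * k) p q : ℤ) : ℚ) := by
    rw [e4]
    simp only [V0, WeierstrassCurve.c₆, WeierstrassCurve.b₂, WeierstrassCurve.b₄,
      WeierstrassCurve.b₆]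
    push_cast
    rw [e1, e2, e3]
    unfold c6p
    simp only [Polynomial.map_sub, Polynomial.map_mul, Polynomial.map_pow, Polynomial.map_add,
      Polynomial.map_neg, eval_neg,
      Polynomial.map_ofNat, eval_sub, eval_mul, eval_pow, eval_add, eval_ofNat]
    ring
  exact_mod_cast this

theorem V0_D (a1 a2 a3 : ℤ[X]) (k : ℕ) (h1 : a1.natDegree ≤ k) (h2 : a2.natDegree ≤ 2 * k)
    (h3 : a3.natDegree ≤ 3 * k) (p q : ℤ) (hq : (q : ℚ) ≠ 0) :
    (V0 a1 a2 a3 k p q).Δ = hom (Dp a1 a2 a3) (12 * k) p q := by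
  have e1 := hom_eval a1 k h1 p q hq
  have e2 := hom_eval a2 (2 * k) h2 p q hq
  have e3 := hom_eval a3 (3 * k) h3 p q hq
  have e4 := hom_eval _ (12 * k) (Dp_deg' a1 a2 a3 k h1 h2 h3) p q hq
  have : (((V0 a1 a2 a3 k p q).Δ : ℤ) : ℚ) = ((hom (Dp a1 a2 a3) (12 * k) p q : ℤ) : ℚ) := by
    rw [e4]
    simp only [V0, WeierstrassCurve.Δ, WeierstrassCurve.b₂, WeierstrassCurve.b₄,
      WeierstrassCurve.b₆, WeierstrassCurve.b₈]
    push_cast
    rw [e1, e2, e3]
    unfold Dp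
    simp only [Polynomial.map_sub, Polynomial.map_mul, Polynomial.map_pow, Polynomial.map_add,
      Polynomial.map_neg, eval_neg,
      Polynomial.map_ofNat, eval_sub, eval_mul, eval_pow, eval_add, eval_ofNat]
    ring
  exact_mod_cast this

/-- the radical of the discriminant -/
theorem rad_le (D E : ℤ[X]) (k n : ℕ) (hD : D.natDegree ≤ 12 * k)
    (hE : E.natDegree ≤ 2 * k) (hdvd : D ∣ C 1 * ((X - C 0) * E) ^ n) (p q : ℕ) (hp : 0 < p)
    (hq : 0 < q) (hEh : hom E (2 * k) (p : ℤ) q ≠ 0) :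
    rd (hom D (12 * k) (p : ℤ) q).natAbs ≤
      rd p * rd q * (hom E (2 * k) (p : ℤ) q).natAbs := by
  set e : ℕ := (hom E (2 * k) (p : ℤ) q).natAbs with he
  have he0 : e ≠ 0 := Int.natAbs_ne_zero.mpr hEh
  have h1 : rd (hom D (12 * k) (p : ℤ) q).natAbs ≤ rd (p * q * e) := by
    refine rd_mono fun l hl => ?_
    have hl' := Nat.prime_of_mem_primeFactors hl
    have hdl : (l : ℤ) ∣ hom D (12 * k) (p : ℤ) q :=
      Int.natCast_dvd.mpr (Nat.dvd_of_mem_primeFactors hl)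
    rw [Nat.mem_primeFactors]
    refine ⟨hl', ?_, mul_ne_zero (mul_ne_zero hp.ne' hq.ne') he0⟩
    rcases prime_disc D E k n 0 1 hD hE hdvd p q (by exact_mod_cast hq.ne') l hl' hdl with
      h | h | h | h
    · have h' : (l : ℤ) ∣ ((1 : ℕ) : ℤ) := by simpa using h
      exact absurd (Nat.dvd_one.mp (Int.natCast_dvd_natCast.mp h')) hl'.one_lt.ne'
    · have : l ∣ p := Int.natCast_dvd_natCast.mp (by simpa using h)
      exact (this.mul_right q).mul_right e
    · have : l ∣ q := Int.natCast_dvd_natCast.mp h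
      exact (this.mul_left p).mul_right e
    · have : l ∣ e := Int.natCast_dvd.mp h
      exact this.mul_left _
  refine h1.trans ((rd_mul_le (mul_ne_zero hp.ne' hq.ne') he0).trans ?_)
  exact Nat.mul_le_mul (rd_mul_le hp.ne' hq.ne') (rd_le he0)

theorem cop46 (a1 a2 a3 : ℤ[X]) (hg : Good (c4p a1 a2 a3) (Dp a1 a2 a3)) :
    IsCoprime ((c4p a1 a2 a3).map (Int.castRingHom ℚ)) ((c6p a1 a2 a3).map (Int.castRingHom ℚ)) := by
  obtain ⟨u, v, m, j, e, ⟨w, hw⟩⟩ := hg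
  have hm : (m : ℚ) ≠ 0 := by
    intro h0
    have : m = 0 := by exact_mod_cast h0
    rw [this, zero_mul] at hw
    exact absurd hw (by positivity)
  have h2 := congrArg (Polynomial.map (Int.castRingHom ℚ)) e
  simp only [Polynomial.map_add, Polynomial.map_mul, Polynomial.map_C, eq_intCast,
    Polynomial.map_intCast] at h2
  have h3 := congrArg (Polynomial.map (Int.castRingHom ℚ)) (disc_id a1 a2 a3)
  simp only [Polynomial.map_sub, Polynomial.map_mul, Polynomial.map_pow, Polynomial.map_ofNat]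
    at h3
  set A := (c4p a1 a2 a3).map (Int.castRingHom ℚ) with hA
  set B := (c6p a1 a2 a3).map (Int.castRingHom ℚ) with hB
  set D := (Dp a1 a2 a3).map (Int.castRingHom ℚ) with hD
  have h4 : IsCoprime A D := by
    refine ⟨C (1 / (m : ℚ)) * u.map (Int.castRingHom ℚ), C (1 / (m : ℚ)) *
      v.map (Int.castRingHom ℚ), ?_⟩
    have h5 : C (1 / (m : ℚ)) * u.map (Int.castRingHom ℚ) * A +
        C (1 / (m : ℚ)) * v.map (Int.castRingHom ℚ) * D =
        C (1 / (m : ℚ)) * (u.map (Int.castRingHom ℚ) * A + v.map (Int.castRingHom ℚ) * D) := by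
      ring
    rw [h5, h2, ← C_eq_intCast, ← C_mul, one_div_mul_cancel hm, C_1]
  have h6 : IsCoprime A (B ^ 2) := by
    obtain ⟨x, y, hxy⟩ := h4
    refine ⟨x + y * (C (1 / 1728) * A ^ 2), -(y * C (1 / 1728)), ?_⟩
    have h7 : D = C (1 / 1728) * (A ^ 3 - B ^ 2) := by
      have h8 : (136048896 : ℚ[X]) * D = (136048896 : ℚ[X]) * (C (1 / 1728) * (A ^ 3 - B ^ 2)) := by
        rw [← h3]
        have h9 : (136048896 : ℚ[X]) * C (1 / 1728 : ℚ) = 78732 := by
          have t1 : (136048896 : ℚ[X]) = C 136048896 := (map_ofNat (C : ℚ →+* ℚ[X]) 136048896).symm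
          have t2 : (78732 : ℚ[X]) = C 78732 := (map_ofNat (C : ℚ →+* ℚ[X]) 78732).symm
          rw [t1, t2, ← C_mul]
          congr 1
          norm_num
        rw [← mul_assoc, h9]
        ring
      exact mul_left_cancel₀ (by norm_num) h8
    rw [← hxy, h7]
    ring
  exact (IsCoprime.pow_right_iff (by norm_num)).mp h6

theorem main_semi (a1 a2 a3 : ℤ[X]) (k : ℕ) (hS : SData a1 a2 a3 k) (κ K : ℝ)
    (hκ1 : 6 * (k : ℝ) / (k + 1) < κ) (hκ2 : κ < 6) (hK : 0 < K) :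
    ∃ c : ℝ, 0 < c ∧ ∃ X0 : ℝ, 1 ≤ X0 ∧ ∀ X : ℝ, X0 ≤ X → ∃ S : Finset (ℤ × ℤ),
      (∀ x ∈ S, ∃ W : WeierstrassCurve ℤ, W.Δ ≠ 0 ∧ IsCoprime W.c₄ W.Δ ∧
        (∃ (t : ℚ) (D : WeierstrassCurve.VariableChange ℚ),
          D • crv a1 a2 a3 t = W.map (Int.castRingHom ℚ)) ∧ x = (W.c₄, W.c₆) ∧
        |(W.c₄ : ℝ)| ^ 3 ≤ X ∧ (W.c₆ : ℝ) ^ 2 ≤ X ∧
        (rd W.Δ.natAbs : ℝ) ≤ X ^ (1 / κ) ∧
        K * (rd W.Δ.natAbs : ℝ) ^ κ < |(W.Δ : ℝ)|) ∧
      c * X ^ (1 / κ - 1 / 6) ≤ S.card := by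
  classical
  obtain ⟨hk, ⟨h1, h2, h3, E, n, hE, hE0, hdvd⟩, hc0, hlead, hgood⟩ := hS
  have hA := c4p_deg a1 a2 a3 k h1 h2 h3
  have hB := c6p_deg a1 a2 a3 k h1 h2 h3
  have hDdeg := Dp_deg' a1 a2 a3 k h1 h2 h3
  have hkR : (1 : ℝ) ≤ k := by exact_mod_cast hk
  have hκ0 : 0 < κ := lt_of_le_of_lt (by positivity) hκ1
  set θ : ℝ := 12 * k / κ - 2 * k with hθ
  have hθ0 : 0 < θ := by
    have : 2 * (k : ℝ) < 12 * k / κ := by
      rw [lt_div_iff₀ hκ0]
      nlinarith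
    rw [hθ]
    linarith
  have hθ2 : θ < 2 := by
    have h5 : 6 * (k : ℝ) < κ * (k + 1) := by
      rwa [div_lt_iff₀ (by positivity)] at hκ1
    have : 12 * (k : ℝ) / κ < 2 * k + 2 := by
      rw [div_lt_iff₀ hκ0]
      nlinarith
    rw [hθ]
    linarith
  have hD0 : Dp a1 a2 a3 ≠ 0 := by
    intro h0
    rw [h0] at hdvd
    have h5 := zero_dvd_iff.mp hdvd
    rw [C_1, one_mul, C_0, sub_zero] at h5
    have hn0 : n ≠ 0 := by
      rintro rfl
      simp at h5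
    rcases mul_eq_zero.mp ((pow_eq_zero_iff hn0).mp h5) with h7 | h7
    · exact X_ne_zero h7
    · exact hE0 h7
  obtain ⟨δ, hδ, hδ1, hnz⟩ := no_zero (Dp a1 a2 a3 * E) (mul_ne_zero hD0 hE0) 0
  have hnzD : ∀ x : ℝ, 0 < x → x ≤ δ →
      ((Dp a1 a2 a3).map (Int.castRingHom ℝ)).eval (((0 : ℤ) : ℝ) + x) ≠ 0 := by
    intro x hx hx' h0
    apply hnz x hx hx'
    rw [Polynomial.map_mul, eval_mul, h0, zero_mul]
  have hnzE : ∀ x : ℝ, 0 < x → x ≤ δ →
      (E.map (Int.castRingHom ℝ)).eval (((0 : ℤ) : ℝ) + x) ≠ 0 := by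
    intro x hx hx' h0
    apply hnz x hx hx'
    rw [Polynomial.map_mul, eval_mul, h0, mul_zero]
  obtain ⟨cD, hcD, hlowD⟩ := low _ (12 * k) hDdeg 0 δ hδ hnzD
  obtain ⟨cE, hcE, hlowE⟩ := low E (2 * k) hE 0 δ hδ hnzE
  obtain ⟨CA, hCA, huA⟩ := upp (c4p a1 a2 a3) (4 * k) 0
  obtain ⟨CB, hCB, huB⟩ := upp (c6p a1 a2 a3) (6 * k) 0
  obtain ⟨CE, hCE, huE⟩ := upp E (2 * k) 0
  simp only [zero_mul, add_zero] at hlowD hlowE huA huB huE
  -- constants
  set B0 : ℝ := cD / (2 * K * 11 ^ (12 * k)) with hB0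
  have hB00 : 0 < B0 := by positivity
  set b : ℝ := min 1 (B0 ^ (1 / κ)) with hb
  have hb0 : 0 < b := lt_min one_pos (by positivity)
  have hb1 : b ≤ 1 := min_le_left _ _
  have hbκ : b ^ κ ≤ B0 := by
    calc b ^ κ ≤ (B0 ^ (1 / κ)) ^ κ := Real.rpow_le_rpow hb0.le (min_le_right _ _) hκ0.le
      _ = B0 := by
        rw [← Real.rpow_mul hB00.le, one_div_mul_cancel hκ0.ne', Real.rpow_one]
  have hCE0 : 0 < CE := by linarith
  set c' : ℝ := b / CE with hc'
  have hc'0 : 0 < c' := by positivity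
  obtain ⟨c1, hc1, Y0, hY01, hpairs⟩ := pairs' θ δ c' hθ0 hθ2 hδ hδ1 hc'0
  set ρ : ℝ := 1 / (CA + CB) with hρ
  have hρ0 : 0 < ρ := by positivity
  have hρ1 : ρ ≤ 1 := by
    rw [hρ, div_le_one (by positivity)]
    linarith
  have hρA : CA * ρ ≤ 1 := by
    rw [hρ, mul_one_div, div_le_one (by positivity)]
    linarith
  have hρB : CB * ρ ≤ 1 := by
    rw [hρ, mul_one_div, div_le_one (by positivity)]
    linarith
  have h12k : (0 : ℝ) < 12 * k := by positivity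
  refine ⟨c1 * ρ ^ θ / (12 * k), by positivity, max 1 ((Y0 / ρ) ^ (12 * k)), le_max_left _ _,
    fun X hX => ?_⟩
  have hX1 : (1 : ℝ) ≤ X := le_trans (le_max_left _ _) hX
  have hX0 : (0 : ℝ) < X := by linarith
  set Y : ℝ := ρ * X ^ (1 / (12 * (k : ℝ))) with hY
  have hYpos : 0 < Y := by positivity
  have hroot : ∀ m : ℕ, (X ^ (1 / (12 * (k : ℝ)))) ^ (m * k) = X ^ ((m : ℝ) / 12) := by
    intro m
    rw [← Real.rpow_natCast, ← Real.rpow_mul hX0.le]
    congr 1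
    push_cast
    field_simp
  have hY0Y : Y0 ≤ Y := by
    have h5 : (Y0 / ρ) ^ (12 * k) ≤ X := le_trans (le_max_right _ _) hX
    have h6 : Y0 / ρ ≤ X ^ (1 / (12 * (k : ℝ))) := by
      have h7 : Y0 / ρ = ((Y0 / ρ) ^ (12 * k)) ^ (1 / (12 * (k : ℝ))) := by
        rw [← Real.rpow_natCast, ← Real.rpow_mul (by positivity)]
        push_cast
        rw [mul_one_div_cancel h12k.ne', Real.rpow_one]
      rw [h7]
      exact Real.rpow_le_rpow (by positivity) h5 (by positivity)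
    rw [hY]
    rw [div_le_iff₀ hρ0] at h6
    linarith
  have hYm : ∀ m : ℕ, 1 ≤ m → Y ^ (m * k) ≤ ρ * X ^ ((m : ℝ) / 12) := by
    intro m hm
    rw [hY, mul_pow, hroot m]
    gcongr
    exact pow_le_of_le_one hρ0.le hρ1 (by positivity)
  obtain ⟨S, hS, hScard⟩ := hpairs Y hY0Y
  -- the curves
  have hex : ∀ x ∈ S, (V0 a1 a2 a3 k x.1 x.2).Δ ≠ 0 ∧
      IsCoprime (V0 a1 a2 a3 k x.1 x.2).c₄ (V0 a1 a2 a3 k x.1 x.2).Δ ∧
      (∃ (t : ℚ) (D : WeierstrassCurve.VariableChange ℚ),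
        D • crv a1 a2 a3 t = (V0 a1 a2 a3 k x.1 x.2).map (Int.castRingHom ℚ)) ∧
      |((V0 a1 a2 a3 k x.1 x.2).c₄ : ℝ)| ^ 3 ≤ X ∧
      ((V0 a1 a2 a3 k x.1 x.2).c₆ : ℝ) ^ 2 ≤ X ∧
      (rd (V0 a1 a2 a3 k x.1 x.2).Δ.natAbs : ℝ) ≤ X ^ (1 / κ) ∧
      K * (rd (V0 a1 a2 a3 k x.1 x.2).Δ.natAbs : ℝ) ^ κ <
        |((V0 a1 a2 a3 k x.1 x.2).Δ : ℝ)| := by
    intro x hx
    obtain ⟨hd210, hp, hq, hcop, s1, s2, s3, s4, s5⟩ := hS x hx
    set p := x.1 with hpdef
    set q := x.2 with hqdef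
    have hqR : (0 : ℝ) < q := by exact_mod_cast hq
    have hpq : p ≤ q := by
      have : (p : ℝ) ≤ q := by nlinarith
      exact_mod_cast this
    have hco : IsCoprime (p : ℤ) (q : ℤ) := Nat.isCoprime_iff_coprime.mpr hcop
    have hq0 : ((q : ℤ) : ℚ) ≠ 0 := by exact_mod_cast hq.ne'
    have hDr := hlowD p q hq s1 s2
    have hEr := hlowE p q hq s1 s2
    have hDne : hom (Dp a1 a2 a3) (12 * k) (p : ℤ) q ≠ 0 := by
      intro h0
      rw [h0, Int.cast_zero, abs_zero] at hDr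
      have : 0 < cD * (q : ℝ) ^ (12 * k) := by positivity
      linarith
    have hEne : hom E (2 * k) (p : ℤ) q ≠ 0 := by
      intro h0
      rw [h0, Int.cast_zero, abs_zero] at hEr
      have : 0 < cE * (q : ℝ) ^ (2 * k) := by positivity
      linarith
    rw [V0_c4 a1 a2 a3 k h1 h2 h3 _ _ hq0, V0_c6 a1 a2 a3 k h1 h2 h3 _ _ hq0,
      V0_D a1 a2 a3 k h1 h2 h3 _ _ hq0]
    refine ⟨hDne, ?_, ?_, ?_, ?_, ?_⟩
    · exact cop_hom _ _ _ _ hA hDdeg hc0 20 hlead hgood _ _ hco (by exact_mod_cast hd210)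
    · obtain ⟨D, hD⟩ := model a1 a2 a3 k h1 h2 h3 p q hq0
      exact ⟨_, D, hD⟩
    · have f1 := huA p q hpq
      have f2 : |((hom (c4p a1 a2 a3) (4 * k) (p : ℤ) q : ℤ) : ℝ)| ≤ X ^ ((4 : ℝ) / 12) := by
        calc _ ≤ CA * (q : ℝ) ^ (4 * k) := f1
          _ ≤ CA * Y ^ (4 * k) := by gcongr
          _ ≤ CA * (ρ * X ^ ((4 : ℝ) / 12)) := by
            gcongr
            exact_mod_cast hYm 4 (by norm_num)
          _ = (CA * ρ) * X ^ ((4 : ℝ) / 12) := by ring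
          _ ≤ 1 * X ^ ((4 : ℝ) / 12) := by gcongr
          _ = _ := one_mul _
      calc |((hom (c4p a1 a2 a3) (4 * k) (p : ℤ) q : ℤ) : ℝ)| ^ 3 ≤ (X ^ ((4 : ℝ) / 12)) ^ 3 := by
            gcongr
        _ = X := by
            rw [← Real.rpow_natCast, ← Real.rpow_mul hX0.le]
            norm_num
    · have f1 := huB p q hpq
      have f2 : |((hom (c6p a1 a2 a3) (6 * k) (p : ℤ) q : ℤ) : ℝ)| ≤ X ^ ((6 : ℝ) / 12) := by
        calc _ ≤ CB * (q : ℝ) ^ (6 * k) := f1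
          _ ≤ CB * Y ^ (6 * k) := by gcongr
          _ ≤ CB * (ρ * X ^ ((6 : ℝ) / 12)) := by
            gcongr
            exact_mod_cast hYm 6 (by norm_num)
          _ = (CB * ρ) * X ^ ((6 : ℝ) / 12) := by ring
          _ ≤ 1 * X ^ ((6 : ℝ) / 12) := by gcongr
          _ = _ := one_mul _
      calc ((hom (c6p a1 a2 a3) (6 * k) (p : ℤ) q : ℤ) : ℝ) ^ 2 =
            |((hom (c6p a1 a2 a3) (6 * k) (p : ℤ) q : ℤ) : ℝ)| ^ 2 := (sq_abs _).symm
        _ ≤ (X ^ ((6 : ℝ) / 12)) ^ 2 := by gcongr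
        _ = X := by
            rw [← Real.rpow_natCast, ← Real.rpow_mul hX0.le]
            norm_num
    · have hE' := huE p q hpq
      set N := rd (hom (Dp a1 a2 a3) (12 * k) (p : ℤ) q).natAbs with hN
      have hcond := rad_le (Dp a1 a2 a3) E k n hDdeg hE hdvd p q hp hq hEne
      rw [← hN] at hcond
      have g1 : (N : ℝ) ≤ b * Y ^ (12 * (k : ℝ) / κ) := by
        have g2 : (N : ℝ) ≤ ((rd p * rd q * (hom E (2 * k) (p : ℤ) q).natAbs : ℕ) : ℝ) := by
          exact_mod_cast hcond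
        push_cast at g2
        have g5 : Y ^ (12 * (k : ℝ) / κ) = Y ^ θ * Y ^ (2 * k) := by
          have : 12 * (k : ℝ) / κ = θ + 2 * (k : ℝ) := by rw [hθ]; ring
          rw [this, Real.rpow_add hYpos]
          congr 1
          rw [← Real.rpow_natCast]
          push_cast
          rfl
        calc (N : ℝ) ≤ ((rd p : ℝ) * rd q) *
              |((hom E (2 * k) (p : ℤ) q : ℤ) : ℝ)| := by
              refine g2.trans (le_of_eq ?_)
              simp [Nat.cast_natAbs]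
          _ ≤ (c' * Y ^ θ) * (CE * Y ^ (2 * k)) := by
              gcongr
              exact hE'.trans (by gcongr)
          _ = b * Y ^ (12 * (k : ℝ) / κ) := by
              rw [g5, hc']
              field_simp
      have hY12 : Y ^ (12 * k) ≤ X := by
        have := hYm 12 (by norm_num)
        calc Y ^ (12 * k) ≤ ρ * X ^ (((12 : ℕ) : ℝ) / 12) := this
          _ ≤ 1 * X ^ (((12 : ℕ) : ℝ) / 12) := by gcongr
          _ = X := by norm_num
      have hYk : (Y ^ (12 * (k : ℝ) / κ)) ^ κ = Y ^ (12 * k) := by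
        rw [← Real.rpow_mul hYpos.le, div_mul_cancel₀ _ hκ0.ne', ← Real.rpow_natCast]
        push_cast
        rfl
      refine ⟨?_, ?_⟩
      · calc (N : ℝ) ≤ b * Y ^ (12 * (k : ℝ) / κ) := g1
          _ ≤ 1 * Y ^ (12 * (k : ℝ) / κ) := by gcongr
          _ = (Y ^ (12 * k)) ^ (1 / κ) := by
              rw [one_mul, ← hYk, ← Real.rpow_mul (by positivity), mul_one_div_cancel hκ0.ne',
                Real.rpow_one]
          _ ≤ X ^ (1 / κ) := Real.rpow_le_rpow (by positivity) hY12 (by positivity)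
      · have g6 : (N : ℝ) ^ κ ≤ B0 * Y ^ (12 * k) := by
          calc (N : ℝ) ^ κ ≤ (b * Y ^ (12 * (k : ℝ) / κ)) ^ κ :=
                Real.rpow_le_rpow (Nat.cast_nonneg _) g1 hκ0.le
            _ = b ^ κ * Y ^ (12 * k) := by
                rw [Real.mul_rpow hb0.le (by positivity), hYk]
            _ ≤ B0 * Y ^ (12 * k) := by gcongr
        have g8 : cD * (Y / 11) ^ (12 * k) ≤
            |((hom (Dp a1 a2 a3) (12 * k) (p : ℤ) q : ℤ) : ℝ)| := by
          calc cD * (Y / 11) ^ (12 * k) ≤ cD * (q : ℝ) ^ (12 * k) := by gcongr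
            _ ≤ _ := hDr
        have g9 : K * (B0 * Y ^ (12 * k)) < cD * (Y / 11) ^ (12 * k) := by
          have g10 : K * (B0 * Y ^ (12 * k)) = (cD * (Y / 11) ^ (12 * k)) / 2 := by
            rw [hB0, div_pow]
            field_simp
          rw [g10]
          have : 0 < cD * (Y / 11) ^ (12 * k) := by positivity
          linarith
        calc K * (N : ℝ) ^ κ ≤ K * (B0 * Y ^ (12 * k)) := by gcongr
          _ < _ := g9
          _ ≤ _ := g8
  set f : ℕ × ℕ → ℤ × ℤ := fun x =>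
    ((V0 a1 a2 a3 k x.1 x.2).c₄, (V0 a1 a2 a3 k x.1 x.2).c₆) with hf
  refine ⟨S.image f, ?_, ?_⟩
  · intro z hz
    obtain ⟨x, hx, rfl⟩ := mem_image.mp hz
    obtain ⟨g1, g2, g3, g4, g5, g6, g7⟩ := hex x hx
    exact ⟨V0 a1 a2 a3 k x.1 x.2, g1, g2, g3, rfl, g4, g5, g6, g7⟩
  · -- the fibres
    have hfib : ∀ z ∈ S.image f, (S.filter (fun x => f x = z)).card ≤ 12 * k := by
      intro z hz
      obtain ⟨x0, hx0, hz0⟩ := mem_image.mp hz
      set A' := (c4p a1 a2 a3).map (Int.castRingHom ℚ) with hA'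
      set B' := (c6p a1 a2 a3).map (Int.castRingHom ℚ) with hB'
      set α : ℚ := ((z.2 : ℤ) : ℚ) ^ 2 with hα
      set β : ℚ := ((z.1 : ℤ) : ℚ) ^ 3 with hβ
      have hαβ : α ≠ 0 ∨ β ≠ 0 := by
        by_contra hcon
        push Not at hcon
        obtain ⟨k1, k2⟩ := hcon
        have k3 : z.2 = 0 := by
          have := pow_eq_zero_iff (two_ne_zero) |>.mp k1
          exact_mod_cast this
        have k4 : z.1 = 0 := by
          have := pow_eq_zero_iff (three_ne_zero) |>.mp k2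
          exact_mod_cast this
        apply (hex x0 hx0).1
        have k6 := (V0 a1 a2 a3 k x0.1 x0.2).c_relation
        have k7 : (V0 a1 a2 a3 k x0.1 x0.2).c₄ = 0 := by rw [← k4, ← hz0]
        have k8 : (V0 a1 a2 a3 k x0.1 x0.2).c₆ = 0 := by rw [← k3, ← hz0]
        rw [k7, k8] at k6
        omega
      have hdegs : A'.natDegree ≠ 0 ∨ B'.natDegree ≠ 0 := by
        left
        rw [hA', natDegree_map_eq_of_injective Int.cast_injective]
        have hne : (c4p a1 a2 a3).coeff (4 * k) ≠ 0 := by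
          intro h0
          rw [h0] at hlead
          exact absurd (zero_dvd_iff.mp hlead) (by positivity)
        have := le_natDegree_of_ne_zero hne
        omega
      have hΦ := phi_ne A' B' (cop46 a1 a2 a3 hgood) hdegs α β hαβ
      set Φ : ℚ[X] := C α * A' ^ 3 - C β * B' ^ 2 with hΦdef
      have hΦdeg : Φ.natDegree ≤ 12 * k := by
        refine (natDegree_sub_le _ _).trans (max_le ?_ ?_)
        · refine (natDegree_C_mul_le _ _).trans (natDegree_pow_le.trans ?_)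
          have := (natDegree_map_le (f := Int.castRingHom ℚ) (p := c4p a1 a2 a3)).trans hA
          rw [← hA'] at this
          omega
        · refine (natDegree_C_mul_le _ _).trans (natDegree_pow_le.trans ?_)
          have := (natDegree_map_le (f := Int.castRingHom ℚ) (p := c6p a1 a2 a3)).trans hB
          rw [← hB'] at this
          omega
      have hcardle : (S.filter (fun x => f x = z)).card ≤ Φ.roots.toFinset.card := by
        refine Finset.card_le_card_of_injOn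
          (fun x => ((x.1 : ℤ) : ℚ) / ((x.2 : ℤ) : ℚ)) ?_ ?_
        · intro x hx
          obtain ⟨hxS, hxz⟩ := mem_filter.mp hx
          obtain ⟨-, hp, hq, -⟩ := hS x hxS
          rw [mem_coe, Multiset.mem_toFinset, mem_roots hΦ, IsRoot.def]
          have hbQ : ((x.2 : ℤ) : ℚ) ≠ 0 := by exact_mod_cast hq.ne'
          have hA4 := hom_eval _ (4 * k) hA (x.1 : ℤ) (x.2 : ℤ) hbQ
          have hB6 := hom_eval _ (6 * k) hB (x.1 : ℤ) (x.2 : ℤ) hbQ
          rw [← hA'] at hA4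
          rw [← hB'] at hB6
          set t : ℚ := ((x.1 : ℤ) : ℚ) / ((x.2 : ℤ) : ℚ) with ht
          have z4 : z.1 = hom (c4p a1 a2 a3) (4 * k) (x.1 : ℤ) (x.2 : ℤ) := by
            rw [← hxz, hf]
            exact V0_c4 a1 a2 a3 k h1 h2 h3 _ _ hbQ
          have z6 : z.2 = hom (c6p a1 a2 a3) (6 * k) (x.1 : ℤ) (x.2 : ℤ) := by
            rw [← hxz, hf]
            exact V0_c6 a1 a2 a3 k h1 h2 h3 _ _ hbQ
          change eval t Φ = 0
          rw [hΦdef, eval_sub, eval_mul, eval_mul, eval_pow, eval_pow, eval_C, eval_C, hα, hβ,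
            z4, z6, hA4, hB6]
          ring
        · intro x hx x' hx' hxx
          obtain ⟨hxS, -⟩ := mem_filter.mp hx
          obtain ⟨hxS', -⟩ := mem_filter.mp hx'
          obtain ⟨-, hp, hq, hc, -⟩ := hS x hxS
          obtain ⟨-, hp', hq', hc', -⟩ := hS x' hxS'
          have hbQ : ((x.2 : ℤ) : ℚ) ≠ 0 := by exact_mod_cast hq.ne'
          have hbQ' : ((x'.2 : ℤ) : ℚ) ≠ 0 := by exact_mod_cast hq'.ne'
          simp only at hxx
          rw [div_eq_div_iff hbQ hbQ'] at hxx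
          have e2 : x.1 * x'.2 = x'.1 * x.2 := by exact_mod_cast hxx
          have d1 : x.2 ∣ x'.2 := by
            exact (Nat.Coprime.symm hc).dvd_of_dvd_mul_left ⟨x'.1, by rw [e2]; ring⟩
          have d2 : x'.2 ∣ x.2 := by
            exact (Nat.Coprime.symm hc').dvd_of_dvd_mul_left ⟨x.1, by rw [← e2]; ring⟩
          have e3 : x.2 = x'.2 := Nat.dvd_antisymm d1 d2
          have e4 : x.1 = x'.1 := by
            rw [e3] at e2
            exact Nat.eq_of_mul_eq_mul_right hq' e2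
          exact Prod.ext e4 e3
      exact hcardle.trans ((Multiset.toFinset_card_le _).trans ((card_roots' _).trans hΦdeg))
    have hmul := Finset.card_le_mul_card_image (f := f) S (12 * k) hfib
    have hmulR : (S.card : ℝ) ≤ (12 * k) * ((S.image f).card : ℝ) := by
      exact_mod_cast hmul
    have hYθ : Y ^ θ = ρ ^ θ * X ^ (1 / κ - 1 / 6) := by
      rw [hY, Real.mul_rpow hρ0.le (by positivity), ← Real.rpow_mul hX0.le]
      congr 2
      rw [hθ]
      field_simp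
      ring
    rw [hYθ] at hScard
    calc c1 * ρ ^ θ / (12 * k) * X ^ (1 / κ - 1 / 6) =
          (c1 * (ρ ^ θ * X ^ (1 / κ - 1 / 6))) / (12 * k) := by ring
      _ ≤ (S.card : ℝ) / (12 * k) := by gcongr
      _ ≤ _ := by
          rw [div_le_iff₀ h12k]
          linarith

end Pool.Agent.H775.SZ
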