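import Pool.Agent.H775.SZ.Main

/-!
# The data of Kubert's families
-/

set_option autoImplicit false
set_option maxHeartbeats 4000000

namespace Pool.Agent.H775.SZ

open Finset Polynomial Pool.Agent.TH498.KB

theorem dv2 {R : Type*} [CommRing R] (a b : R) (i j n : ℕ) (hi : i ≤ n) (hj : j ≤ n) :
    a ^ i * b ^ j ∣ (a * b) ^ n := by
  rw [mul_pow]
  exact mul_dvd_mul (pow_dvd_pow a hi) (pow_dvd_pow b hj)

theorem dv3 {R : Type*} [CommRing R] (a b c : R) (i j k n : ℕ) (hi : i ≤ n) (hj : j ≤ n)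
    (hk : k ≤ n) : a ^ i * b ^ j * c ^ k ∣ (a * (b * c)) ^ n := by
  rw [← mul_assoc, mul_pow]
  exact mul_dvd_mul (dv2 a b i j n hi hj) (pow_dvd_pow c hk)

theorem dv4 {R : Type*} [CommRing R] (a b c d : R) (i j k l n : ℕ) (hi : i ≤ n) (hj : j ≤ n)
    (hk : k ≤ n) (hl : l ≤ n) : a ^ i * b ^ j * c ^ k * d ^ l ∣ (a * (b * c * d)) ^ n := by
  rw [← mul_assoc, mul_pow]
  exact mul_dvd_mul (dv3 a b c i j k n hi hj hk) (pow_dvd_pow d hl)

theorem dv5 {R : Type*} [CommRing R] (a b c d e : R) (i j k l m n : ℕ) (hi : i ≤ n) (hj : j ≤ n)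
    (hk : k ≤ n) (hl : l ≤ n) (hm : m ≤ n) :
    a ^ i * b ^ j * c ^ k * d ^ l * e ^ m ∣ (a * (b * c * d * e)) ^ n := by
  rw [← mul_assoc, mul_pow]
  exact mul_dvd_mul (dv4 a b c d i j k l n hi hj hk hl) (pow_dvd_pow e hm)

theorem dv6 {R : Type*} [CommRing R] (a b c d e f : R) (i j k l m o n : ℕ) (hi : i ≤ n)
    (hj : j ≤ n) (hk : k ≤ n) (hl : l ≤ n) (hm : m ≤ n) (ho : o ≤ n) :
    a ^ i * b ^ j * c ^ k * d ^ l * e ^ m * f ^ o ∣ (a * (b * c * d * e * f)) ^ n := by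
  rw [← mul_assoc, mul_pow]
  exact mul_dvd_mul (dv5 a b c d e i j k l m n hi hj hk hl hm) (pow_dvd_pow f ho)

/-- the degrees of the coefficients and the factorisation of the discriminant -/
def Data (a1 a2 a3 : ℤ[X]) (k : ℕ) : Prop :=
  a1.natDegree ≤ k ∧ a2.natDegree ≤ 2 * k ∧ a3.natDegree ≤ 3 * k ∧
  ∃ (E : ℤ[X]) (n : ℕ) (t0 c0 : ℤ), c0 ≠ 0 ∧ E.natDegree ≤ 2 * k ∧ E ≠ 0 ∧
    Dp a1 a2 a3 ∣ C c0 * ((X - C t0) * E) ^ n

theorem data_z5 : Data a1_z5 a2_z5 a3_z5 1 := by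
  refine ⟨?_, ?_, ?_, X ^ 2 - 11 * X - 1, 5, 0, 1, one_ne_zero, ?_, ?_, ?_⟩
  · unfold a1_z5; compute_degree
  · unfold a2_z5; compute_degree <;> norm_num
  · unfold a3_z5; compute_degree <;> norm_num
  · compute_degree
  · intro h
    have := congrArg (eval 0) h
    simp at this
  · rw [D_z5, C_0, sub_zero, C_1, one_mul]
    simpa using dv2 (X : ℤ[X]) (X ^ 2 - 11 * X - 1) 5 1 5 (by norm_num) (by norm_num)

theorem data_z6 : Data a1_z6 a2_z6 a3_z6 1 := by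
  refine ⟨?_, ?_, ?_, (X + 1) * (9 * X + 1), 6, 0, 1, one_ne_zero, ?_, ?_, ?_⟩
  · unfold a1_z6; compute_degree
  · unfold a2_z6; compute_degree <;> norm_num
  · unfold a3_z6; compute_degree <;> norm_num
  · compute_degree <;> norm_num
  · intro h
    have := congrArg (eval 0) h
    simp at this
  · rw [D_z6, C_0, sub_zero, C_1, one_mul]
    simpa using dv3 (X : ℤ[X]) (X + 1) (9 * X + 1) 6 3 1 6 (by norm_num) (by norm_num)
      (by norm_num)

theorem data_z7 : Data a1_z7 a2_z7 a3_z7 2 := by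
  refine ⟨?_, ?_, ?_, (X - 1) * (X ^ 3 - 8 * X ^ 2 + 5 * X + 1), 7, 0, 1, one_ne_zero,
    ?_, ?_, ?_⟩
  · unfold a1_z7; compute_degree <;> norm_num
  · unfold a2_z7; compute_degree <;> norm_num
  · unfold a3_z7; compute_degree <;> norm_num
  · compute_degree <;> norm_num
  · intro h
    have := congrArg (eval 0) h
    simp at this
  · rw [D_z7, C_0, sub_zero, C_1, one_mul]
    simpa using dv3 (X : ℤ[X]) (X - 1) (X ^ 3 - 8 * X ^ 2 + 5 * X + 1) 7 7 1 7 (by norm_num)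
      (by norm_num) (by norm_num)

theorem data_z8 : Data a1_z8 a2_z8 a3_z8 2 := by
  refine ⟨?_, ?_, ?_, (X - 1) * (2 * X - 1) * (8 * X ^ 2 - 8 * X + 1), 8, 0, 1, one_ne_zero,
    ?_, ?_, ?_⟩
  · unfold a1_z8; compute_degree <;> norm_num
  · unfold a2_z8; compute_degree <;> norm_num
  · unfold a3_z8; compute_degree <;> norm_num
  · compute_degree <;> norm_num
  · intro h
    have := congrArg (eval 0) h
    simp at this
  · rw [D_z8, C_0, sub_zero, C_1, one_mul]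
    simpa using dv4 (X : ℤ[X]) (X - 1) (2 * X - 1) (8 * X ^ 2 - 8 * X + 1) 8 8 4 1 8 (by norm_num)
      (by norm_num) (by norm_num) (by norm_num)

theorem data_z9 : Data a1_z9 a2_z9 a3_z9 3 := by
  refine ⟨?_, ?_, ?_, (X - 1) * (X ^ 2 - X + 1) * (X ^ 3 - 6 * X ^ 2 + 3 * X + 1), 9, 0, 1,
    one_ne_zero, ?_, ?_, ?_⟩
  · unfold a1_z9; compute_degree <;> norm_num
  · unfold a2_z9; compute_degree <;> norm_num
  · unfold a3_z9; compute_degree <;> norm_num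
  · compute_degree <;> norm_num
  · intro h
    have := congrArg (eval 0) h
    simp at this
  · rw [D_z9, C_0, sub_zero, C_1, one_mul]
    simpa using dv4 (X : ℤ[X]) (X - 1) (X ^ 2 - X + 1) (X ^ 3 - 6 * X ^ 2 + 3 * X + 1) 9 9 3 1 9
      (by norm_num) (by norm_num) (by norm_num) (by norm_num)

theorem data_z10 : Data a1_z10 a2_z10 a3_z10 3 := by
  refine ⟨?_, ?_, ?_, (X - 1) * (2 * X - 1) * (X ^ 2 - 3 * X + 1) * (4 * X ^ 2 - 2 * X - 1), 10,
    0, 1, one_ne_zero, ?_, ?_, ?_⟩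
  · unfold a1_z10; compute_degree <;> norm_num
  · unfold a2_z10; compute_degree <;> norm_num
  · unfold a3_z10; compute_degree <;> norm_num
  · compute_degree <;> norm_num
  · intro h
    have := congrArg (eval 0) h
    simp at this
  · rw [D_z10, C_0, sub_zero, C_1, one_mul]
    simpa using dv5 (X : ℤ[X]) (X - 1) (2 * X - 1) (X ^ 2 - 3 * X + 1) (4 * X ^ 2 - 2 * X - 1)
      10 10 5 2 1 10 (by norm_num) (by norm_num) (by norm_num) (by norm_num) (by norm_num)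

theorem data_z12 : Data a1_z12 a2_z12 a3_z12 4 := by
  refine ⟨?_, ?_, ?_, (X - 1) * (2 * X - 1) * (2 * X ^ 2 - 2 * X + 1) * (3 * X ^ 2 - 3 * X + 1) *
    (6 * X ^ 2 - 6 * X + 1), 12, 0, 1, one_ne_zero, ?_, ?_, ?_⟩
  · unfold a1_z12; compute_degree <;> norm_num
  · unfold a2_z12; compute_degree <;> norm_num
  · unfold a3_z12; compute_degree <;> norm_num
  · compute_degree <;> norm_num
  · intro h
    have := congrArg (eval 0) h
    simp at this
  · rw [D_z12, C_0, sub_zero, C_1, one_mul]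
    simpa using dv6 (X : ℤ[X]) (X - 1) (2 * X - 1) (2 * X ^ 2 - 2 * X + 1) (3 * X ^ 2 - 3 * X + 1)
      (6 * X ^ 2 - 6 * X + 1) 12 12 6 3 4 1 12 (by norm_num) (by norm_num) (by norm_num)
      (by norm_num) (by norm_num) (by norm_num)

theorem data_z2x4 : Data a1_z2x4 a2_z2x4 a3_z2x4 1 := by
  refine ⟨?_, ?_, ?_, (X - 1) * (X + 1), 4, 0, 256, by norm_num, ?_, ?_, ?_⟩
  · unfold a1_z2x4; compute_degree <;> norm_num
  · unfold a2_z2x4; compute_degree <;> norm_num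
  · unfold a3_z2x4; compute_degree <;> norm_num
  · compute_degree <;> norm_num
  · intro h
    have := congrArg (eval 0) h
    simp at this
  · have h := dv3 (X : ℤ[X]) (X - 1) (X + 1) 2 4 4 4 (by norm_num) (by norm_num) (by norm_num)
    have h2 := mul_dvd_mul_left (C (256 : ℤ)) h
    rw [C_0, sub_zero]
    refine dvd_trans (dvd_of_eq ?_) h2
    rw [D_z2x4]
    simp only [map_ofNat]
    ring

theorem data_z2x6 : Data a1_z2x6 a2_z2x6 a3_z2x6 2 := by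
  refine ⟨?_, ?_, ?_, (X - 3) * (X + 3) * (X - 5) * (X - 9), 6, 1, 64, by norm_num, ?_, ?_, ?_⟩
  · unfold a1_z2x6; compute_degree <;> norm_num
  · unfold a2_z2x6; compute_degree <;> norm_num
  · unfold a3_z2x6; compute_degree <;> norm_num
  · compute_degree <;> norm_num
  · intro h
    have := congrArg (eval 0) h
    norm_num at this
  · have h := dv5 (X - 1 : ℤ[X]) (X - 3) (X + 3) (X - 5) (X - 9) 6 2 2 6 2 6 (by norm_num)
      (by norm_num) (by norm_num) (by norm_num) (by norm_num)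
    have h2 := mul_dvd_mul_left (C (64 : ℤ)) h
    rw [C_1]
    refine dvd_trans (dvd_of_eq ?_) h2
    rw [D_z2x6]
    simp only [map_ofNat, mul_assoc]

theorem data_z2x8 : Data a1_z2x8 a2_z2x8 a3_z2x8 4 := by
  refine ⟨?_, ?_, ?_, (X + 1) * (2 * X + 1) * (2 * X ^ 2 - 1) * (2 * X ^ 2 + 2 * X + 1) *
    (2 * X ^ 2 + 4 * X + 1), 8, 0, 1, one_ne_zero, ?_, ?_, ?_⟩
  · unfold a1_z2x8; compute_degree <;> norm_num
  · unfold a2_z2x8; compute_degree <;> norm_num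
  · unfold a3_z2x8; compute_degree <;> norm_num
  · compute_degree <;> norm_num
  · intro h
    have := congrArg (eval 0) h
    simp at this
  · rw [D_z2x8, C_0, sub_zero, C_1, one_mul]
    exact dv6 (X : ℤ[X]) (X + 1) (2 * X + 1) (2 * X ^ 2 - 1) (2 * X ^ 2 + 2 * X + 1)
      (2 * X ^ 2 + 4 * X + 1) 8 8 8 2 4 2 8 (by norm_num) (by norm_num) (by norm_num)
      (by norm_num) (by norm_num) (by norm_num)

/-- the lower bound, in the form used below -/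
theorem low_of_data (a1 a2 a3 : ℤ[X]) (k w L : ℕ) (hd : Data a1 a2 a3 k)
    (hF : Fam (27 * c4p a1 a2 a3) (54 * c6p a1 a2 a3) k w L) (κ K : ℝ)
    (hκ1 : 6 * (k : ℝ) / (k + 1) < κ) (hκ2 : κ < 6) (hK : 0 < K) :
    ∃ c C : ℝ, 0 < c ∧ 0 < C ∧ ∃ X0 : ℝ, ∀ X : ℝ, X0 ≤ X → ∃ S : Finset (ℤ × ℤ),
      (∀ x ∈ S, ∃ W : WeierstrassCurve ℤ, Pool.Agent.H39R3.GMin W ∧
        (∃ (t : ℚ) (D : WeierstrassCurve.VariableChange ℚ),
          D • crv a1 a2 a3 t = W.map (Int.castRingHom ℚ)) ∧ x = (W.c₄, W.c₆) ∧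
        |(W.c₄ : ℝ)| ^ 3 ≤ X ^ 6 ∧ (W.c₆ : ℝ) ^ 2 ≤ X ^ 6 ∧
        (Pool.Agent.H39R3.condW W : ℝ) ≤ C * X ^ (6 / κ) ∧
        K * (Pool.Agent.H39R3.condW W : ℝ) ^ κ < |(W.Δ : ℝ)|) ∧
      c * X ^ (6 / κ - 1) ≤ S.card := by
  obtain ⟨h1, h2, h3, E, n, t0, c0, g1, g2, g3, g4⟩ := hd
  exact main_low a1 a2 a3 E k w L n t0 c0 g1 hF h1 h2 h3 g2 g3 g4 κ K hκ1 hκ2 hK

end Pool.Agent.H775.SZ
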