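import Pool.Agent.H775.SZ.Upper

/-!
# Values of a binary form with a small radical
-/

set_option autoImplicit false

namespace Pool.Agent.H775.SZ

open Finset Polynomial Pool.Agent.W4.CF Pool.Agent.W4.VC Pool.Agent.TH498.KB

theorem div_between (w0 : ℕ) (T U : ℝ) (hw0 : w0 ≠ 0) (hT : 1 ≤ T) (hTU : T ^ 2 ≤ U)
    (hTw : T ≤ w0) (hp : ∀ l : ℕ, l.Prime → l ∣ w0 → (l : ℝ) ≤ U) :
    ∃ w : ℕ, w ∣ w0 ∧ T ≤ (w : ℝ) ∧ (w : ℝ) ≤ U := by
  classical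
  have hex : ∃ w : ℕ, w ∣ w0 ∧ T ≤ (w : ℝ) := ⟨w0, dvd_rfl, hTw⟩
  obtain ⟨h1, h2⟩ := Nat.find_spec hex
  have hmin := fun (m : ℕ) (hm : m < Nat.find hex) => Nat.find_min hex hm
  set w := Nat.find hex with hw
  by_cases hU : (w : ℝ) ≤ U
  · exact ⟨w, h1, h2, hU⟩
  · push Not at hU
    have hw1 : w ≠ 1 := by
      intro h
      rw [h] at hU
      push_cast at hU
      nlinarith
    obtain ⟨l, hl, hlw⟩ := Nat.exists_prime_and_dvd hw1
    obtain ⟨d, hd⟩ := hlw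
    have hd0 : d ≠ 0 := by
      rintro rfl
      rw [mul_zero] at hd
      rw [hd] at h1
      exact hw0 (Nat.eq_zero_of_zero_dvd h1)
    have hdlt : d < w := by
      rw [hd]
      have := hl.two_le
      nlinarith [Nat.pos_of_ne_zero hd0]
    have hdT : (d : ℝ) < T := by
      by_contra hcon
      push Not at hcon
      exact hmin d hdlt ⟨(Dvd.intro_left l hd.symm).trans h1, hcon⟩
    have hlw0 : l ∣ w0 := (Dvd.intro d hd.symm).trans h1
    have hlU : (l : ℝ) ≤ U := hp l hl hlw0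
    have hlT : T ≤ (l : ℝ) := by
      have e1 : (l : ℝ) * d = w := by exact_mod_cast hd.symm
      by_contra hcon
      push Not at hcon
      have e2 : (0 : ℝ) ≤ d := Nat.cast_nonneg _
      have e3 : (l : ℝ) * d ≤ T * T := by
        have e4 : (0 : ℝ) ≤ l := Nat.cast_nonneg _
        nlinarith
      nlinarith
    exact ⟨l, hlw0, hlT, hlU⟩

theorem rd_dvd_rd {a b : ℕ} (h : a ∣ b) (hb : b ≠ 0) : rd a ∣ rd b :=
  Finset.prod_dvd_prod_of_subset _ _ _ (Nat.primeFactors_mono h hb)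

theorem choose_w (v : ℕ) (R U : ℝ) (hv : v ≠ 0) (hR : 0 < R) (hrd : (rd v : ℝ) ≤ R) (hU : 1 ≤ U)
    (hvR : ((v : ℝ) / R) ^ 2 ≤ U) (hp : ∀ l : ℕ, l.Prime → l ^ 2 ∣ v → (l : ℝ) ≤ U) :
    ∃ w : ℕ, 1 ≤ w ∧ (w : ℝ) ≤ U ∧ w * rd w ∣ v ∧ (v : ℝ) ≤ w * R := by
  by_cases h1 : (v : ℝ) ≤ R
  · exact ⟨1, le_rfl, by simpa using hU, by simp [rd], by simpa using h1⟩
  · push Not at h1
    have hdv : rd v ∣ v := Nat.prod_primeFactors_dvd v
    obtain ⟨w0, hw0⟩ := hdv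
    have hw00 : w0 ≠ 0 := by
      rintro rfl
      exact hv (by rw [hw0, mul_zero])
    have hTw : (v : ℝ) / R ≤ w0 := by
      rw [div_le_iff₀ hR]
      have e1 : (v : ℝ) = (rd v : ℝ) * w0 := by exact_mod_cast hw0
      rw [e1, mul_comm]
      gcongr
    have hw0v : w0 ∣ v := Dvd.intro_left _ hw0.symm
    obtain ⟨w, hw, a, b⟩ := div_between w0 ((v : ℝ) / R) U hw00
      (by rw [le_div_iff₀ hR]; linarith) hvR hTw (by
        intro l hl hlw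
        refine hp l hl ?_
        have e1 : l ∣ rd v := by
          refine Finset.dvd_prod_of_mem (fun p : ℕ => p) ?_
          exact Nat.mem_primeFactors.mpr ⟨hl, hlw.trans hw0v, hv⟩
        rw [hw0, pow_two]
        exact mul_dvd_mul e1 hlw)
    have hwpos : w ≠ 0 := by
      rintro rfl
      exact hw00 (Nat.eq_zero_of_zero_dvd hw)
    refine ⟨w, Nat.one_le_iff_ne_zero.mpr hwpos, b, ?_, by rwa [div_le_iff₀ hR] at a⟩
    rw [hw0, mul_comm]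
    exact mul_dvd_mul (rd_dvd_rd (hw.trans hw0v) hv) hw

theorem radp_one (t : ℕ) : radp 1 t = rd t := by
  unfold radp rd
  congr 1
  refine Finset.filter_true_of_mem fun p hp => ?_
  intro h
  exact (Nat.prime_of_mem_primeFactors hp).one_lt.ne' (Nat.dvd_one.mp h)

theorem blk (f : ℤ[X]) (n : ℕ) (hf : Sqf f n) (hn : 1 ≤ n) (ε : ℝ) (hε : 0 < ε) :
    ∃ C : ℝ, 0 < C ∧ ∀ Y R U : ℝ, 1 ≤ Y → 0 ≤ R → 1 ≤ U → ∀ s : Finset (ℤ × ℤ),
      (∀ p ∈ s, Dy Y p ∧ ∃ w : ℕ, 1 ≤ w ∧ (w : ℝ) ≤ U ∧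
        ((w * rd w : ℕ) : ℤ) ∣ hom f n p.1 p.2 ∧
        |((hom f n p.1 p.2 : ℤ) : ℝ)| ≤ w * R) →
      (s.card : ℝ) ≤ C * U ^ ε * (R * Y ^ 2 / Y ^ n + U) := by
  classical
  obtain ⟨C1, hC1, h1⟩ := lat f n hf hn (ε / 4) (by positivity)
  obtain ⟨C2, hC2, h2⟩ := Pool.W335.CF.t_RAD (ε / 2) (by positivity)
  refine ⟨C1 * (C2 + 1), by positivity, fun Y R U hY hR hU s hs => ?_⟩
  have hY0 : 0 < Y := by linarith
  have hU0 : 0 < U := by linarith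
  have hex : ∀ p ∈ s, ∃ w : ℕ, 1 ≤ w ∧ (w : ℝ) ≤ U ∧
        ((w * rd w : ℕ) : ℤ) ∣ hom f n p.1 p.2 ∧
        |((hom f n p.1 p.2 : ℤ) : ℝ)| ≤ w * R := fun p hp => (hs p hp).2
  choose! w w1 wU wd wR using hex
  set N : ℕ := ⌊U⌋₊ with hN
  have hN1 : 1 ≤ N := Nat.le_floor (by simpa using hU)
  have hNU : (N : ℝ) ≤ U := Nat.floor_le hU0.le
  have hmem : ∀ p ∈ s, w p ∈ Icc 1 N := fun p hp =>
    mem_Icc.mpr ⟨w1 p hp, Nat.le_floor (wU p hp)⟩
  have hfib : ∀ t ∈ Icc 1 N, (((s.filter (fun p => w p = t)).card : ℕ) : ℝ) ≤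
      C1 * U ^ (ε / 2) * (R * Y ^ 2 / Y ^ n * (1 / (radp 1 t : ℝ)) + 1) := by
    intro t ht
    obtain ⟨t1, tN⟩ := mem_Icc.mp ht
    have t0 : (0 : ℝ) < t := by exact_mod_cast t1
    have r0 : (0 : ℝ) < rd t := by exact_mod_cast rd_pos t
    have htU : (t : ℝ) ≤ U := le_trans (by exact_mod_cast tN) hNU
    have hrt : (rd t : ℝ) ≤ t := by exact_mod_cast rd_le (by omega : t ≠ 0)
    have := h1 Y (t * R) (t * rd t) hY (by positivity)
      (Nat.one_le_iff_ne_zero.mpr (mul_ne_zero (by omega) (rd_pos t).ne'))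
      (s.filter (fun p => w p = t)) (by
        intro p hp
        obtain ⟨hp1, hp2⟩ := mem_filter.mp hp
        refine ⟨(hs p hp1).1, ?_, ?_⟩
        · have := wd p hp1
          rwa [hp2] at this
        · have := wR p hp1
          rwa [hp2] at this)
    refine this.trans ?_
    rw [radp_one]
    have e1 : (((t * rd t : ℕ) : ℝ)) ^ (ε / 4) ≤ U ^ (ε / 2) := by
      have e2 : (((t * rd t : ℕ) : ℝ)) ≤ U * U := by
        push_cast
        exact mul_le_mul htU (hrt.trans htU) r0.le hU0.le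
      calc (((t * rd t : ℕ) : ℝ)) ^ (ε / 4) ≤ (U * U) ^ (ε / 4) :=
            Real.rpow_le_rpow (Nat.cast_nonneg _) e2 (by positivity)
        _ = U ^ (ε / 2) := by
            rw [Real.mul_rpow hU0.le hU0.le, ← Real.rpow_add hU0]
            congr 1
            ring
    have e3 : (t * R) * Y ^ 2 / (Y ^ n * ((t * rd t : ℕ) : ℝ)) =
        R * Y ^ 2 / Y ^ n * (1 / (rd t : ℝ)) := by
      push_cast
      field_simp
    rw [e3]
    gcongr
  have hcard : (s.card : ℝ) ≤ ∑ t ∈ Icc 1 N,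
      C1 * U ^ (ε / 2) * (R * Y ^ 2 / Y ^ n * (1 / (radp 1 t : ℝ)) + 1) := by
    rw [card_eq_sum_card_fiberwise (f := w) (s := s) (t := Icc 1 N) (fun p hp => hmem p hp)]
    push_cast
    exact sum_le_sum hfib
  rw [← mul_sum, sum_add_distrib, ← mul_sum] at hcard
  have h3 := h2 1 N le_rfl hN1
  have h4 : ((1 : ℕ) * (N : ℝ)) ^ (ε / 2) ≤ U ^ (ε / 2) := by
    push_cast
    rw [one_mul]
    exact Real.rpow_le_rpow (Nat.cast_nonneg _) hNU (by positivity)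
  have h5 : ∑ t ∈ Icc 1 N, (1 : ℝ) ≤ U := by
    rw [sum_const, Nat.card_Icc, nsmul_eq_mul, mul_one]
    simpa using hNU
  have hRY : 0 ≤ R * Y ^ 2 / Y ^ n := by positivity
  have hUe : (1 : ℝ) ≤ U ^ (ε / 2) := Real.one_le_rpow hU (by positivity)
  calc (s.card : ℝ) ≤ C1 * U ^ (ε / 2) * (R * Y ^ 2 / Y ^ n *
        ∑ t ∈ Icc 1 N, (1 / (radp 1 t : ℝ)) + ∑ t ∈ Icc 1 N, (1 : ℝ)) := hcard
    _ ≤ C1 * U ^ (ε / 2) * (R * Y ^ 2 / Y ^ n * (C2 * U ^ (ε / 2)) + U) := by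
        gcongr
        exact h3.trans (by gcongr)
    _ ≤ C1 * U ^ (ε / 2) * ((C2 + 1) * U ^ (ε / 2) * (R * Y ^ 2 / Y ^ n + U)) := by
        gcongr
        have e1 : 0 ≤ C2 * U ^ (ε / 2) * U := by positivity
        have e2 : 0 ≤ (U ^ (ε / 2)) * (R * Y ^ 2 / Y ^ n) := by positivity
        nlinarith [mul_le_mul_of_nonneg_right hUe hU0.le]
    _ = C1 * (C2 + 1) * (U ^ (ε / 2) * U ^ (ε / 2)) * (R * Y ^ 2 / Y ^ n + U) := by ring
    _ = C1 * (C2 + 1) * U ^ ε * (R * Y ^ 2 / Y ^ n + U) := by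
        rw [← Real.rpow_add hU0]
        congr 3
        ring

/-- squares of primes dividing the values of the form -/
def LPr (f : ℤ[X]) (n : ℕ) : Prop :=
  ∃ C : ℝ, 1 ≤ C ∧ ∀ a b : ℤ, IsCoprime a b → hom f n a b ≠ 0 → ∀ l : ℕ, l.Prime →
    (l : ℤ) ^ 2 ∣ hom f n a b → (l : ℝ) ≤ C * max |(a : ℝ)| |(b : ℝ)|

theorem max_ge_one {a b : ℤ} (h : IsCoprime a b) : 1 ≤ max |(a : ℝ)| |(b : ℝ)| := by
  by_cases ha : a = 0
  · have hb : b ≠ 0 := by
      rintro rfl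
      obtain ⟨x, y, hxy⟩ := h
      rw [ha] at hxy
      simp at hxy
    exact le_max_of_le_right (by exact_mod_cast Int.one_le_abs hb)
  · exact le_max_of_le_left (by exact_mod_cast Int.one_le_abs ha)

theorem lpr_small (f : ℤ[X]) (n : ℕ) (hn : n ≤ 2) : LPr f n := by
  obtain ⟨C, hC, h⟩ := Pool.Agent.W505.VC.t_HOM.2.1 f n
  refine ⟨C, hC, fun a b hab h0 l hl hd => ?_⟩
  have hm := max_ge_one hab
  set x := max |(a : ℝ)| |(b : ℝ)| with hx
  have h1 : (l : ℝ) ^ 2 ≤ |((hom f n a b : ℤ) : ℝ)| := by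
    have := Int.le_of_dvd (abs_pos.mpr h0) ((dvd_abs _ _).mpr hd)
    exact_mod_cast this
  have h2 : (l : ℝ) ^ 2 ≤ (C * x) ^ 2 := by
    calc (l : ℝ) ^ 2 ≤ C * x ^ n := h1.trans (h a b)
      _ ≤ C * x ^ 2 := by gcongr
      _ ≤ C ^ 2 * x ^ 2 := by
          have : C ≤ C ^ 2 := by nlinarith
          gcongr
      _ = (C * x) ^ 2 := by ring
  exact le_of_pow_le_pow_left₀ two_ne_zero (by positivity) h2

end Pool.Agent.H775.SZ
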