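import Pool.Agent.H775.SZ.Up1

/-!
# Counting the values of a binary form with a radical that is small compared with their size
-/

set_option autoImplicit false

namespace Pool.Agent.H775.SZ

open Finset Polynomial Pool.Agent.W4.CF Pool.Agent.W4.VC Pool.Agent.TH498.KB

theorem lpr_mul (f g : ℤ[X]) (n m : ℕ) (hf : f.natDegree ≤ n) (hg : g.natDegree ≤ m)
    (hsq : Sqf (f * g) (n + m)) (h1 : LPr f n) (h2 : LPr g m) : LPr (f * g) (n + m) := by
  obtain ⟨-, -, M, hM, hres⟩ := Pool.Agent.W290.VC.t_RES f g n m hf hg hsq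
  obtain ⟨C1, hC1, g1⟩ := h1
  obtain ⟨C2, hC2, g2⟩ := h2
  have hMR : (1 : ℝ) ≤ M := by exact_mod_cast hM
  refine ⟨max (max C1 C2) M, le_max_of_le_right hMR, fun a b hab h0 l hl hd => ?_⟩
  have hm := max_ge_one hab
  set x := max |(a : ℝ)| |(b : ℝ)| with hx
  have hx0 : 0 ≤ x := by linarith
  rw [Pool.Agent.W505.VC.t_HOM.1 f g n m hf hg a b] at h0 hd
  have hf0 : hom f n a b ≠ 0 := left_ne_zero_of_mul h0
  have hg0 : hom g m a b ≠ 0 := right_ne_zero_of_mul h0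
  have hlZ : Prime (l : ℤ) := Nat.prime_iff_prime_int.mp hl
  by_cases hlf : (l : ℤ) ∣ hom f n a b
  · by_cases hlg : (l : ℤ) ∣ hom g m a b
    · have h3 : (l : ℝ) ≤ M := by exact_mod_cast Nat.le_of_dvd (by omega) (hres a b hab l hl hlf hlg)
      calc (l : ℝ) ≤ M * 1 := by linarith
        _ ≤ max (max C1 C2) M * x := by gcongr; exact le_max_right _ _
    · have h3 : (l : ℤ) ^ 2 ∣ hom f n a b :=
        hlZ.pow_dvd_of_dvd_mul_right 2 hlg hd
      refine (g1 a b hab hf0 l hl h3).trans ?_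
      gcongr
      exact (le_max_left _ _).trans (le_max_left _ _)
  · have h3 : (l : ℤ) ^ 2 ∣ hom g m a b :=
      hlZ.pow_dvd_of_dvd_mul_left 2 hlf hd
    refine (g2 a b hab hg0 l hl h3).trans ?_
    gcongr
    exact (le_max_right _ _).trans (le_max_left _ _)

theorem geo (α : ℝ) (hα : 1 ≤ α) (I : ℕ) :
    ∑ i ∈ range I, ((2 : ℝ) ^ (i + 1)) ^ α ≤ 2 * ((2 : ℝ) ^ I) ^ α := by
  induction I with
  | zero => simp
  | succ I ih =>
    rw [sum_range_succ]
    have e1 : ((2 : ℝ) ^ (I + 1)) ^ α = 2 ^ α * ((2 : ℝ) ^ I) ^ α := by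
      rw [pow_succ, mul_comm, Real.mul_rpow (by norm_num) (by positivity)]
    have e2 : (2 : ℝ) ≤ 2 ^ α := by
      calc (2 : ℝ) = 2 ^ (1 : ℝ) := (Real.rpow_one 2).symm
        _ ≤ 2 ^ α := Real.rpow_le_rpow_of_exponent_le (by norm_num) hα
    have e3 : 0 ≤ ((2 : ℝ) ^ I) ^ α := by positivity
    nlinarith

theorem count_up (f : ℤ[X]) (n : ℕ) (hf : Sqf f n) (hn : 2 ≤ n) (hL : LPr f n) (θ : ℝ)
    (hθ : 3 / 2 ≤ θ) (c2 : ℝ) (hc2 : 1 ≤ c2) (ε : ℝ) (hε : 0 < ε) :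
    ∃ C : ℝ, 0 < C ∧ ∀ Y : ℝ, 1 ≤ Y → ∀ s : Finset (ℤ × ℤ),
      (∀ p ∈ s, IsCoprime p.1 p.2 ∧ |(p.1 : ℝ)| ≤ Y ∧ |(p.2 : ℝ)| ≤ Y ∧
        hom f n p.1 p.2 ≠ 0 ∧ (rd (hom f n p.1 p.2).natAbs : ℝ) ≤
          c2 * (max |(p.1 : ℝ)| |(p.2 : ℝ)|) ^ ((n : ℝ) - 2 + θ)) →
      (s.card : ℝ) ≤ C * Y ^ (θ + ε) := by
  classical
  obtain ⟨CL, hCL, hlarge⟩ := hL
  obtain ⟨C3, hC3, hsize⟩ := Pool.Agent.W505.VC.t_HOM.2.1 f n
  obtain ⟨C1, hC1, hblk⟩ := blk f n hf (by omega) ε hε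
  have hn2 : (2 : ℝ) ≤ n := by exact_mod_cast hn
  set C6 : ℝ := C3 ^ 2 + CL with hC6
  have hC61 : 1 ≤ C6 := by
    rw [hC6]
    nlinarith [sq_nonneg C3]
  have hC60 : 0 < C6 := by linarith
  set D : ℝ := C1 * C6 ^ ε * (c2 + C6) with hD
  have hD0 : 0 < D := by positivity
  refine ⟨D * 2 * 2 ^ (θ + ε), by positivity, fun Y hY s hs => ?_⟩
  have hY0 : 0 < Y := by linarith
  -- the dyadic index
  let mx : ℤ × ℤ → ℕ := fun p => max p.1.natAbs p.2.natAbs
  have hmx : ∀ p : ℤ × ℤ, ((mx p : ℕ) : ℝ) = max |(p.1 : ℝ)| |(p.2 : ℝ)| := by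
    intro p
    simp only [mx]
    push_cast
    rw [Nat.cast_natAbs, Nat.cast_natAbs]
    push_cast
    rfl
  let ix : ℤ × ℤ → ℕ := fun p => Nat.log 2 (mx p)
  have hmx1 : ∀ p ∈ s, 1 ≤ mx p := by
    intro p hp
    have := max_ge_one (hs p hp).1
    rw [← hmx p] at this
    exact_mod_cast this
  have hlow : ∀ p ∈ s, (2 : ℝ) ^ (ix p) ≤ max |(p.1 : ℝ)| |(p.2 : ℝ)| := by
    intro p hp
    rw [← hmx p]
    have := Nat.pow_log_le_self 2 (by have := hmx1 p hp; omega : mx p ≠ 0)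
    exact_mod_cast this
  have hupp : ∀ p ∈ s, max |(p.1 : ℝ)| |(p.2 : ℝ)| ≤ (2 : ℝ) ^ (ix p + 1) := by
    intro p hp
    rw [← hmx p]
    have := (Nat.lt_pow_succ_log_self (by norm_num : 1 < 2) (mx p)).le
    exact_mod_cast this
  set I : ℕ := Nat.log 2 ⌊Y⌋₊ + 1 with hI
  have hix : ∀ p ∈ s, ix p ∈ range I := by
    intro p hp
    rw [mem_range, hI]
    refine Nat.lt_succ_of_le (Nat.log_mono_right ?_)
    apply Nat.le_floor
    rw [hmx p]
    exact max_le (hs p hp).2.1 (hs p hp).2.2.1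
  have hIY : (2 : ℝ) ^ I ≤ 2 * Y := by
    have hfl : ⌊Y⌋₊ ≠ 0 := by
      have : 1 ≤ ⌊Y⌋₊ := Nat.le_floor (by simpa using hY)
      omega
    have e1 := Nat.pow_log_le_self 2 hfl
    have e2 : ((2 ^ Nat.log 2 ⌊Y⌋₊ : ℕ) : ℝ) ≤ (⌊Y⌋₊ : ℝ) := by exact_mod_cast e1
    have e3 : (⌊Y⌋₊ : ℝ) ≤ Y := Nat.floor_le hY0.le
    rw [hI, pow_succ]
    push_cast at e2
    linarith
  have hfib : ∀ i ∈ range I, (((s.filter (fun p => ix p = i)).card : ℕ) : ℝ) ≤
      D * ((2 : ℝ) ^ (i + 1)) ^ (θ + ε) := by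
    intro i hi
    set Z : ℝ := (2 : ℝ) ^ (i + 1) with hZ
    have hZ1 : 1 ≤ Z := one_le_pow₀ (by norm_num)
    have hZ0 : 0 < Z := by linarith
    set R : ℝ := c2 * Z ^ ((n : ℝ) - 2 + θ) with hR
    have hR0 : 0 < R := by positivity
    set U : ℝ := C6 * Z with hU
    have hU1 : 1 ≤ U := by nlinarith
    have := hblk Z R U hZ1 hR0.le hU1 (s.filter (fun p => ix p = i)) (by
      intro p hp
      obtain ⟨hps, hpi⟩ := mem_filter.mp hp
      obtain ⟨q1, q2, q3, q4, q5⟩ := hs p hps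
      have hl := hlow p hps
      have hu := hupp p hps
      rw [hpi] at hl hu
      rw [← hZ] at hu
      set x := max |(p.1 : ℝ)| |(p.2 : ℝ)| with hx
      have hx1 : 1 ≤ x := max_ge_one q1
      have hx0 : 0 < x := by linarith
      refine ⟨⟨q1, (le_max_left _ _).trans hu, (le_max_right _ _).trans hu, ?_⟩, ?_⟩
      · rw [hZ, pow_succ]
        linarith
      · set v := (hom f n p.1 p.2).natAbs with hv
        have hv0 : v ≠ 0 := Int.natAbs_ne_zero.mpr q4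
        have hvR : (v : ℝ) = |((hom f n p.1 p.2 : ℤ) : ℝ)| := by
          rw [hv, Nat.cast_natAbs]
          push_cast
          rfl
        have hvs : (v : ℝ) ≤ C3 * Z ^ n := by
          rw [hvR]
          refine (hsize _ _).trans ?_
          gcongr
        have hrdR : (rd v : ℝ) ≤ R := by
          refine q5.trans ?_
          rw [hR]
          gcongr
        have hratio : ((v : ℝ) / R) ^ 2 ≤ U := by
          have e1 : (v : ℝ) / R ≤ C3 * Z ^ (1 / 2 : ℝ) := by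
            rw [div_le_iff₀ hR0]
            refine hvs.trans ?_
            have e2 : Z ^ n ≤ Z ^ (1 / 2 : ℝ) * Z ^ ((n : ℝ) - 2 + θ) := by
              rw [← Real.rpow_add hZ0, ← Real.rpow_natCast Z n]
              exact Real.rpow_le_rpow_of_exponent_le hZ1 (by linarith)
            have e3 : 0 ≤ Z ^ (1 / 2 : ℝ) * Z ^ ((n : ℝ) - 2 + θ) := by positivity
            rw [hR]
            calc C3 * Z ^ n ≤ C3 * (Z ^ (1 / 2 : ℝ) * Z ^ ((n : ℝ) - 2 + θ)) := by gcongr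
              _ ≤ c2 * (C3 * (Z ^ (1 / 2 : ℝ) * Z ^ ((n : ℝ) - 2 + θ))) :=
                  le_mul_of_one_le_left (by positivity) hc2
              _ = _ := by ring
          have e4 : 0 ≤ (v : ℝ) / R := by positivity
          calc ((v : ℝ) / R) ^ 2 ≤ (C3 * Z ^ (1 / 2 : ℝ)) ^ 2 := by gcongr
            _ = C3 ^ 2 * Z := by
                rw [mul_pow, ← Real.rpow_natCast (Z ^ (1 / 2 : ℝ)) 2, ← Real.rpow_mul hZ0.le]
                norm_num
            _ ≤ C6 * Z := by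
                gcongr
                rw [hC6]
                linarith
        obtain ⟨w, w1, w2, w3, w4⟩ := choose_w v R U hv0 hR0 hrdR hU1 hratio (by
          intro l hl hlv
          have e1 : (l : ℤ) ^ 2 ∣ hom f n p.1 p.2 := by
            have : ((l ^ 2 : ℕ) : ℤ) ∣ hom f n p.1 p.2 := Int.natCast_dvd.mpr hlv
            exact_mod_cast this
          refine (hlarge _ _ q1 q4 l hl e1).trans ?_
          rw [hU]
          calc CL * x ≤ CL * Z := by gcongr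
            _ ≤ C6 * Z := by
                gcongr
                rw [hC6]
                nlinarith [sq_nonneg C3])
        exact ⟨w, w1, w2, Int.natCast_dvd.mpr w3, by rw [← hvR]; exact w4⟩)
    refine this.trans ?_
    have e1 : R * Z ^ 2 / Z ^ n = c2 * Z ^ θ := by
      rw [hR, div_eq_iff (by positivity), mul_assoc, mul_assoc]
      congr 1
      rw [← Real.rpow_natCast Z 2, ← Real.rpow_natCast Z n, ← Real.rpow_add hZ0,
        ← Real.rpow_add hZ0]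
      congr 1
      push_cast
      ring
    have e2 : Z ≤ Z ^ θ := by
      calc Z = Z ^ (1 : ℝ) := (Real.rpow_one Z).symm
        _ ≤ Z ^ θ := Real.rpow_le_rpow_of_exponent_le hZ1 (by linarith)
    rw [e1, hU, Real.mul_rpow hC60.le hZ0.le]
    calc C1 * (C6 ^ ε * Z ^ ε) * (c2 * Z ^ θ + C6 * Z) ≤
          C1 * (C6 ^ ε * Z ^ ε) * (c2 * Z ^ θ + C6 * Z ^ θ) := by gcongr
      _ = D * (Z ^ θ * Z ^ ε) := by rw [hD]; ring
      _ = D * Z ^ (θ + ε) := by rw [← Real.rpow_add hZ0]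
  have hcard : (s.card : ℝ) ≤ ∑ i ∈ range I, D * ((2 : ℝ) ^ (i + 1)) ^ (θ + ε) := by
    rw [card_eq_sum_card_fiberwise (f := ix) (s := s) (t := range I) (fun p hp => hix p hp)]
    push_cast
    exact sum_le_sum hfib
  rw [← mul_sum] at hcard
  calc (s.card : ℝ) ≤ D * ∑ i ∈ range I, ((2 : ℝ) ^ (i + 1)) ^ (θ + ε) := hcard
    _ ≤ D * (2 * ((2 : ℝ) ^ I) ^ (θ + ε)) := by
        gcongr
        exact geo _ (by linarith) I
    _ ≤ D * (2 * (2 * Y) ^ (θ + ε)) := by gcongr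
    _ = D * 2 * 2 ^ (θ + ε) * Y ^ (θ + ε) := by
        rw [Real.mul_rpow (by norm_num) hY0.le]
        ring

end Pool.Agent.H775.SZ
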